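import Pool.Agent.Helper40.HW.Ser
import Pool.Graph.R_seed8.W108.TW.Mellin
import Pool.Graph.R_seed8.W440.TW.Twist
import Pool.Graph.R_seed8.Y773.HK.FeK

set_option autoImplicit false

/-!
# The completed L-function of a cusp form
-/

open Complex Filter Topology Set MeasureTheory UpperHalfPlane MatrixGroups CongruenceSubgroup
open scoped ComplexConjugate

namespace Pool.Agent.Helper40.HW

open Pool.Agent.W108.TW

/-- a larger strip -/
theorem LF.mono {m k : ℕ} {μ : Fin m → ℝ} {ρ : Fin k → ℂ} {A c β β' : ℝ} {D F : ℂ → ℂ} {ε : ℂ}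
    (h : LF μ ρ A c β D F ε) (hβ : β ≤ β') : LF μ ρ A c β' D F ε := by
  obtain ⟨K, hK⟩ := h.Db
  exact ⟨h.m1, h.A0, h.β1.trans hβ, h.μ0, fun i => (h.ρ0 i).trans (by linarith),
    fun s hs => h.Dz s (by linarith), ⟨K, fun s hs => hK s (by linarith)⟩, h.D1, h.diff,
    fun s hs => h.eq s (by linarith), h.conj, h.fin, h.fe, h.eps⟩

theorem Good.mono {c β β' : ℝ} {D F : ℂ → ℂ} {ε : ℂ} (h : Good c β D F ε) (hβ : β ≤ β') :
    Good c β' D F ε := by
  obtain ⟨t, m, k, μ, ρ, A, g⟩ := h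
  exact ⟨t, m, k, μ, ρ, A, g.mono hβ⟩

section cusp

variable {N : ℕ} [NeZero N] {k : ℤ} (f : CuspForm (Gamma0 N : Subgroup (GL (Fin 2) ℝ)) k)

omit [NeZero N] in
lemma coeff_zero' : (qExpansion 1 f).coeff 0 = 0 := by
  have h1 : (1 : ℝ) ∈ (Gamma0 N : Subgroup (GL (Fin 2) ℝ)).strictPeriods := by simp
  exact CuspFormClass.qExpansion_coeff_zero (Γ := (Gamma0 N : Subgroup (GL (Fin 2) ℝ)))
    (f := f) one_pos h1

/-- Hecke's bound -/
lemma coeff_bound' (hk : 1 ≤ k) :
    ∃ C : ℝ, ∀ n : ℕ, 1 ≤ n → ‖(qExpansion 1 f).coeff n‖ ≤ C * (n : ℝ) ^ ((k : ℝ) / 2) := by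
  have h1 : (Gamma0 N : Subgroup (GL (Fin 2) ℝ)).strictWidthInfty = 1 :=
    Subgroup.strictWidthInfty_eq_one_of_T_mem (by
      rw [Gamma0_mem]; simp [ModularGroup.T])
  have h2 := CuspFormClass.qExpansion_isBigO (Γ := (Gamma0 N : Subgroup (GL (Fin 2) ℝ))) f
  rw [h1] at h2
  obtain ⟨C, hC⟩ := h2.bound
  obtain ⟨n0, hn0⟩ := Filter.eventually_atTop.mp hC
  obtain ⟨B, hB⟩ : ∃ B : ℝ, 0 ≤ B ∧ ∀ n < n0, ‖(qExpansion 1 f).coeff n‖ ≤ B := by
    refine ⟨∑ n ∈ Finset.range n0, ‖(qExpansion 1 f).coeff n‖,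
      Finset.sum_nonneg fun _ _ => norm_nonneg _, fun n hn => ?_⟩
    exact Finset.single_le_sum (f := fun n => ‖(qExpansion 1 f).coeff n‖)
      (fun _ _ => norm_nonneg _) (Finset.mem_range.mpr hn)
  refine ⟨max C B, fun n hn => ?_⟩
  have hn1 : (1 : ℝ) ≤ n := by exact_mod_cast hn
  have hk0 : (0 : ℝ) ≤ (k : ℝ) / 2 := by
    have : (1 : ℝ) ≤ k := by exact_mod_cast hk
    linarith
  have h3 : 1 ≤ (n : ℝ) ^ ((k : ℝ) / 2) := Real.one_le_rpow hn1 hk0
  rcases lt_or_ge n n0 with h | h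
  · refine (hB.2 n h).trans ?_
    calc B ≤ max C B := le_max_right _ _
      _ = max C B * 1 := (mul_one _).symm
      _ ≤ _ := mul_le_mul_of_nonneg_left h3 (le_max_of_le_right hB.1)
  · refine (hn0 n h).trans ?_
    rw [Real.norm_of_nonneg (by positivity)]
    exact mul_le_mul_of_nonneg_right (le_max_left _ _) (by positivity)

/-- `f` on the imaginary axis -/
lemma hasSum_axis {y : ℝ} {τ : ℍ} (hτ : (τ : ℂ) = (y : ℂ) * Complex.I) :
    HasSum (fun n : ℕ => (qExpansion 1 f).coeff n *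
      (Real.exp (-(2 * Real.pi * n * y)) : ℂ)) (f τ) := by
  have h1 : (1 : ℝ) ∈ (Gamma0 N : Subgroup (GL (Fin 2) ℝ)).strictPeriods := by simp
  have h2 := ModularForm.hasSum_qExpansion (f := f) one_pos h1 τ
  convert h2 using 2 with n
  rw [Function.Periodic.qParam, hτ, ← Complex.exp_nat_mul, Complex.ofReal_exp]
  congr 1
  congr 1
  push_cast
  ring_nf
  simp only [Complex.I_sq]
  ring

end cusp

/-- the completed L-function of a cusp form with real coefficients that is an eigenfunction of the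
Fricke involution -/
theorem cf_good {N : ℕ} [NeZero N] {k : ℤ} (hk : 1 ≤ k)
    (f : CuspForm (Gamma0 N : Subgroup (GL (Fin 2) ℝ)) k) (ε : ℝ)
    (h1 : (qExpansion 1 f).coeff 1 = 1) (hreal : ∀ n, ((qExpansion 1 f).coeff n).im = 0)
    (hε : ε = 1 ∨ ε = -1)
    (fricke : ∀ τ τ' : ℍ, (τ' : ℂ) * ((N : ℂ) * (τ : ℂ)) = -1 →
      f τ' = (ε : ℂ) * (((Real.sqrt N : ℝ) : ℂ) * (τ : ℂ) / Complex.I) ^ k * f τ) :
    ∃ (β : ℝ) (F : ℂ → ℂ), Good (k / 2) β
        (fun s => ∑' n : ℕ, (qExpansion 1 f).coeff n * (n : ℂ) ^ (-s)) F ε ∧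
      ∀ s : ℂ, (k : ℝ) / 2 + 1 < s.re →
        Summable (fun n : ℕ => (qExpansion 1 f).coeff n * (n : ℂ) ^ (-s)) ∧
        F s = (N : ℂ) ^ (s / 2) * Gammaℂ s *
          ∑' n : ℕ, (qExpansion 1 f).coeff n * (n : ℂ) ^ (-s) := by
  set a : ℕ → ℂ := fun n => (qExpansion 1 f).coeff n with ha
  have ha0 : a 0 = 0 := coeff_zero' f
  obtain ⟨C, hC⟩ := coeff_bound' f hk
  have hC' : ∀ n : ℕ, 1 ≤ n → ‖a n‖ ≤ C * (n : ℝ) ^ ((k : ℝ) / 2) := hC
  have hkr : (1 : ℝ) ≤ k := by exact_mod_cast hk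
  have hN : (0 : ℝ) < N := Nat.cast_pos.2 (Nat.pos_of_ne_zero (NeZero.ne N))
  set R : ℝ := Real.sqrt N with hR
  have hRpos : 0 < R := Real.sqrt_pos.2 hN
  have hRR : R * R = N := Real.mul_self_sqrt hN.le
  set c : ℝ := 2 * Real.pi / R with hc'
  have hc : 0 < c := by have := Real.pi_pos; positivity
  have hconj : ∀ n, conj (a n) = a n := fun n => Complex.conj_eq_iff_im.2 (hreal n)
  -- the values on the imaginary axis
  have hTh : ∀ t : ℝ, 0 < t → ∀ τ : ℍ, (τ : ℂ) = ((t / R : ℝ) : ℂ) * Complex.I → Th a c t = f τ := by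
    intro t _ τ hτ
    have h2 := hasSum_axis f (y := t / R) hτ
    rw [Th, ← h2.tsum_eq]
    refine tsum_congr fun n => ?_
    congr 3
    rw [hc']
    ring
  have hfe : ∀ t : ℝ, 0 < t → Th a c (1 / t) = (ε : ℂ) * (t : ℂ) ^ k * Th a c t := by
    intro t ht
    have p1 : 0 < (((t / R : ℝ) : ℂ) * Complex.I).im := by
      simp only [mul_im, ofReal_re, Complex.I_im, mul_one, ofReal_im, Complex.I_re, mul_zero, add_zero]
      positivity
    have p2 : 0 < ((((1 / t) / R : ℝ) : ℂ) * Complex.I).im := by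
      simp only [mul_im, ofReal_re, Complex.I_im, mul_one, ofReal_im, Complex.I_re, mul_zero, add_zero]
      positivity
    set τ : ℍ := ⟨((t / R : ℝ) : ℂ) * Complex.I, p1⟩ with hτ
    set τ' : ℍ := ⟨(((1 / t) / R : ℝ) : ℂ) * Complex.I, p2⟩ with hτ'
    have e1 : (τ : ℂ) = ((t / R : ℝ) : ℂ) * Complex.I := rfl
    have e2 : (τ' : ℂ) = (((1 / t) / R : ℝ) : ℂ) * Complex.I := rfl
    have htc : (t : ℂ) ≠ 0 := Complex.ofReal_ne_zero.2 ht.ne'
    have hRc : (R : ℂ) ≠ 0 := Complex.ofReal_ne_zero.2 hRpos.ne'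
    have hNc : (N : ℂ) = (R : ℂ) * (R : ℂ) := by rw [← Complex.ofReal_mul, hRR]; simp
    have h3 := fricke τ τ' (by
      rw [e1, e2, hNc]
      push_cast
      field_simp
      exact Complex.I_sq)
    rw [hTh t ht τ e1, hTh (1 / t) (by positivity) τ' e2, h3, e1]
    congr 3
    push_cast
    field_simp
  let P : WeakFEPair ℂ :=
    { f := Th a c
      g := Th a c
      k := (k : ℝ)
      ε := (ε : ℂ)
      f₀ := 0
      g₀ := 0
      hf_int := (continuousOn_Th ha0 hC' hc).locallyIntegrableOn measurableSet_Ioi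
      hg_int := (continuousOn_Th ha0 hC' hc).locallyIntegrableOn measurableSet_Ioi
      hk := by linarith
      hε := by
        rcases hε with h | h <;> rw [h] <;> simp
      h_feq := by
        intro x (hx : 0 < x)
        rw [smul_eq_mul, Real.rpow_intCast, Complex.ofReal_zpow]
        exact hfe x hx
      hf_top := Th_isBigO ha0 hC' hc
      hg_top := Th_isBigO ha0 hC' hc }
  have hP : IsStrongFEPair P := ⟨rfl, rfl⟩
  have hΛf : P.Λ = mellin (Th a c) := hP.Λ_eq
  have hΛg : P.symm.Λ = mellin (Th a c) := hP.symm_Λ_eq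
  -- the Dirichlet series
  have hsum1 : ∀ x : ℝ, (k : ℝ) / 2 + 1 < x →
      Summable fun n : ℕ => ‖a n * (n : ℂ) ^ (-(x : ℂ))‖ := by
    intro x hx
    have h2 : Summable (fun n : ℕ => |C| * (n : ℝ) ^ ((k : ℝ) / 2 - x)) :=
      (Real.summable_nat_rpow.mpr (by linarith)).mul_left _
    refine Summable.of_nonneg_of_le (fun _ => norm_nonneg _) (fun n => ?_) h2
    rcases Nat.eq_zero_or_pos n with rfl | hn
    · rw [ha0, zero_mul, norm_zero]; positivity
    · have hn' : (0 : ℝ) < n := by exact_mod_cast hn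
      have h3 : ‖a n‖ ≤ |C| * (n : ℝ) ^ ((k : ℝ) / 2) :=
        (hC' n hn).trans (mul_le_mul_of_nonneg_right (le_abs_self C) (by positivity))
      rw [norm_mul, Complex.norm_natCast_cpow_of_pos hn, sub_eq_add_neg, Real.rpow_add hn',
        ← mul_assoc]
      simp only [neg_re, ofReal_re]
      exact mul_le_mul_of_nonneg_right h3 (by positivity)
  have hn2 : ∀ i : ℕ, i ≠ 1 → a i = 0 ∨ 2 ≤ i := by
    intro i hi
    rcases Nat.eq_zero_or_pos i with rfl | h
    · exact Or.inl ha0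
    · right; omega
  have hDs : (fun s : ℂ => ∑' n : ℕ, a n * (n : ℂ) ^ (-s)) = Ds a (fun n : ℕ => n) := rfl
  have htn : Tn (Ds a (fun n : ℕ => n)) :=
    Ds_tn (i0 := 1) (x0 := (k : ℝ) / 2 + 2) h1 rfl hn2 (hsum1 _ (by linarith))
  have hval : ∀ s : ℂ, (k : ℝ) / 2 + 1 < s.re →
      2 * P.Λ s = (N : ℂ) ^ (s / 2) * Gammaℂ s * Ds a (fun n : ℕ => n) s := by
    intro s hs
    have hSpos : 0 < s.re := by linarith
    have hG : Complex.Gamma s ≠ 0 := Complex.Gamma_ne_zero_of_re_pos hSpos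
    have h1 := hasSum_mellin (a := a) (p := fun n : ℕ => c * n) (F := Th a c) (s := s)
      (by
        intro n
        rcases Nat.eq_zero_or_pos n with rfl | hn
        · exact Or.inl ha0
        · right
          have : (0 : ℝ) < n := by exact_mod_cast hn
          positivity) hSpos
      (by
        intro t (ht : 0 < t)
        exact (summable_term ha0 hC' hc ht).hasSum)
      (by
        have h2 : Summable (fun n : ℕ => |C| / c ^ s.re * (n : ℝ) ^ ((k : ℝ) / 2 - s.re)) :=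
          (Real.summable_nat_rpow.mpr (by linarith)).mul_left _
        refine Summable.of_nonneg_of_le (fun n => by positivity) (fun n => ?_) h2
        rcases Nat.eq_zero_or_pos n with rfl | hn
        · rw [ha0, norm_zero, zero_div]; positivity
        · have hn' : (0 : ℝ) < n := by exact_mod_cast hn
          have h3 : ‖a n‖ ≤ |C| * (n : ℝ) ^ ((k : ℝ) / 2) :=
            (hC' n hn).trans (mul_le_mul_of_nonneg_right (le_abs_self C) (by positivity))
          rw [Real.mul_rpow hc.le hn'.le, Real.rpow_sub hn', div_mul_div_comm]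
          exact div_le_div_of_nonneg_right h3 (by positivity))
    have h2 := h1.tsum_eq
    have hcs : ∀ n : ℕ, Complex.Gamma s * a n / ((c * n : ℝ) : ℂ) ^ s =
        (Complex.Gamma s * ((c : ℂ) ^ s)⁻¹) * (a n * (n : ℂ) ^ (-s)) := by
      intro n
      rcases Nat.eq_zero_or_pos n with rfl | hn
      · rw [ha0]; simp
      · rw [Complex.ofReal_mul, Complex.mul_cpow_ofReal_nonneg hc.le (Nat.cast_nonneg n),
          Complex.cpow_neg]
        simp only [Complex.ofReal_natCast]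
        rw [div_eq_mul_inv, mul_inv]
        ring
    simp_rw [hcs] at h2
    rw [tsum_mul_left] at h2
    rw [hΛf, ← h2]
    have hRc : (R : ℂ) ≠ 0 := Complex.ofReal_ne_zero.2 hRpos.ne'
    have e1 : (N : ℂ) ^ (s / 2) = (R : ℂ) ^ s := by
      have hNc : (N : ℂ) = ((R * R : ℝ) : ℂ) := by rw [hRR]; simp
      rw [hNc, Complex.ofReal_mul, Complex.mul_cpow_ofReal_nonneg hRpos.le hRpos.le,
        ← Complex.cpow_add _ _ hRc]
      congr 1
      ring
    have e2 : ((c : ℂ) ^ s)⁻¹ = (R : ℂ) ^ s * (2 * (Real.pi : ℂ)) ^ (-s) := by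
      have h2p : (2 * (Real.pi : ℂ)) = ((2 * Real.pi : ℝ) : ℂ) := by push_cast; ring
      have h3 : (c : ℂ) = ((2 * Real.pi : ℝ) : ℂ) * (((R⁻¹ : ℝ)) : ℂ) := by
        rw [hc', ← Complex.ofReal_mul, div_eq_mul_inv]
      have hRi : (((R⁻¹ : ℝ)) : ℂ) ^ s = ((R : ℂ) ^ s)⁻¹ := by
        rw [Complex.ofReal_inv, Complex.inv_cpow]
        rw [Complex.arg_ofReal_of_nonneg hRpos.le]
        exact Real.pi_pos.ne
      rw [h3, Complex.mul_cpow_ofReal_nonneg (by positivity) (by positivity), mul_inv, hRi, inv_inv,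
        h2p, Complex.cpow_neg]
      ring
    rw [Gammaℂ_def, e1, e2]
    show 2 * (_ * ∑' n : ℕ, a n * (n : ℂ) ^ (-s)) = _ * Ds a (fun n : ℕ => n) s
    unfold Ds
    ring
  -- choice of the strip
  obtain ⟨R1, hR1⟩ := htn (1 / 2) (by norm_num)
  set β : ℝ := max 1 (max 2 (R1 - k / 2)) with hβ
  have hβ1 : 2 ≤ β := (le_max_left _ _).trans (le_max_right _ _)
  have hβ2 : R1 ≤ k / 2 + β := by
    have : R1 - k / 2 ≤ β := (le_max_right _ _).trans (le_max_right _ _)
    linarith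
  set μ : Fin 2 → ℝ := ![0, 1] with hμ
  set ρ : Fin 0 → ℂ := ![] with hρ
  have hHf : ∀ s : ℂ, Hf μ N s = (N : ℂ) ^ (s / 2) * Gammaℂ s := by
    intro s
    rw [Hf, Fin.prod_univ_two, hμ, ← Gammaℝ_mul_Gammaℝ_add_one]
    simp
  have hdiff : Differentiable ℂ (fun s => 2 * P.Λ s) := hP.differentiable_Λ.const_mul 2
  refine ⟨β, fun s => 2 * P.Λ s, ⟨htn, 2, 0, μ, ρ, N, ?_⟩, ?_⟩
  · refine LF.of_strip (by norm_num) hN (by linarith) ?_ (fun i => i.elim0) ?_ ?_ ?_ hdiff ?_ ?_ ?_ ?_ ?_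
    · intro j
      fin_cases j
      · simp [hμ]; linarith
      · simp [hμ]; linarith
    · intro s hs h0
      have h2 := hR1 s (by linarith)
      have h3 : Ds a (fun n : ℕ => n) s = 0 := h0
      rw [h3, zero_sub, norm_neg, norm_one] at h2
      norm_num at h2
    · refine ⟨∑' n : ℕ, ‖a n * (n : ℂ) ^ (-(((k : ℝ) / 2 + 2 : ℝ) : ℂ))‖, fun s hs => ?_⟩
      exact Ds_bound (N := fun n : ℕ => n) (i0 := 1) rfl hn2 (hsum1 _ (by linarith)) (by linarith)
    · exact htn (1 / 100) (by norm_num)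
    · intro s hs
      have h2 : (k : ℝ) / 2 + 1 < s.re := by linarith
      show 2 * P.Λ s = _
      rw [hval s h2, hHf, Finset.univ_eq_empty, Finset.prod_empty, one_mul]
      rfl
    · refine conj_of_half hdiff (x0 := (k : ℝ) / 2 + 1) fun s hs => ?_
      rw [hval s hs, hval (conj s) (by rw [conj_re]; exact hs), Ds_conj hconj, map_mul, ← hHf,
        ← hHf, Hf, Hf, map_mul, map_prod]
      have hNN : ((N : ℝ) : ℂ) ^ (conj s / 2) = conj (((N : ℝ) : ℂ) ^ (s / 2)) := by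
        have h7 : ((N : ℝ) : ℂ).arg ≠ Real.pi := by
          rw [Complex.arg_ofReal_of_nonneg hN.le]
          exact Real.pi_ne_zero.symm
        have h8 := Complex.cpow_conj ((N : ℝ) : ℂ) (s / 2) h7
        rw [Complex.conj_ofReal, map_div₀] at h8
        have h2 : conj (2 : ℂ) = 2 := map_ofNat (starRingEnd ℂ) 2
        rw [h2] at h8
        exact h8
      rw [hNN]
      congr 2
      refine Finset.prod_congr rfl fun j _ => ?_
      rw [← Pool.Agent.Helper75.Jen.GammaR_conj, map_add, conj_ofReal]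
    · obtain ⟨K, hK⟩ := Pool.Agent.Y773.mellin_strip_bound (f := Th a c)
        (fun s => (hP.hasMellin s).1) (k / 2 - β - 1) (k / 2 + β + 1)
      refine ⟨0, 2 * |K|, fun s h2 h3 => ?_⟩
      rw [pow_zero, mul_one, norm_mul, Complex.norm_ofNat, hΛf]
      have h4 := (hK s h2 h3).trans (le_abs_self K)
      have := Real.add_one_le_exp (2 * |K|)
      linarith
    · intro s
      have h2 := P.functional_equation s
      have h3 : (P.k : ℂ) = (k : ℂ) := by simp [P]
      have h4 : P.ε = (ε : ℂ) := rfl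
      rw [h3, h4, hΛg, ← hΛf, smul_eq_mul] at h2
      have h5 : 2 * (((k : ℝ) / 2 : ℝ) : ℂ) - s = (k : ℂ) - s := by
        push_cast
        ring
      rw [h5, h2]
      ring
    · rcases hε with h | h <;> rw [h] <;> simp
  · intro s hs
    exact ⟨(Ds_summable (N := fun n : ℕ => n) (i0 := 1) rfl hn2
      (x0 := s.re) (hsum1 s.re hs) le_rfl).of_norm, hval s hs⟩

end Pool.Agent.Helper40.HW
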