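import Pool.Agent.Helper75.Jen.Main

set_option autoImplicit false

/-!
# The Taylor coefficients are eventually positive
-/

open Complex Filter Topology Metric Polynomial

namespace Pool.Agent.Helper40.HW

open Pool.Agent.Helper75.Jen

theorem gamma_pos {F : ℂ → ℂ} {P : ℕ → ℂ[X]} (h : Conv F P) {C : ℝ} (hC : 0 ≤ C)
    (hgr : ∀ z, ‖F z‖ ≤ Real.exp (C * (1 + ‖z‖) ^ (3 / 5 : ℝ))) :
    ∃ n1 : ℕ, ∀ n, n1 ≤ n → 0 < (iteratedDeriv n F 0).re ∧ (iteratedDeriv n F 0).im = 0 := by
  obtain ⟨K1, hK1, hSS⟩ := h.SS_le hC hgr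
  have hlim : Tendsto (fun n : ℕ => K1 * (n : ℝ) ^ (-(2 / 3 : ℝ))) atTop (𝓝 (K1 * 0)) :=
    ((tendsto_rpow_neg_atTop (by norm_num)).comp tendsto_natCast_atTop_atTop).const_mul K1
  rw [mul_zero] at hlim
  obtain ⟨n1, hn1⟩ := ((hlim.eventually (ge_mem_nhds (show (0 : ℝ) < 1 / 4 by norm_num))).and
    (eventually_ge_atTop 1)).exists_forall_of_atTop
  refine ⟨n1, fun n hn => ?_⟩
  obtain ⟨hs, h1⟩ := hn1 n hn
  have l2 : Tendsto (fun N => (derivative^[n] (P N)).eval 0) atTop
      (𝓝 (iteratedDeriv n F 0)) := h.at_pt n 0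
  have him : ∀ N (x : ℝ), ((derivative^[n] (P N)).eval (x : ℂ)).im = 0 := by
    intro N x
    have := sym_iter (h.good N).sym n (x : ℂ)
    rw [conj_ofReal] at this
    exact Complex.conj_eq_iff_im.1 this.symm
  constructor
  · have l1 : Tendsto (fun N => rr (P N) n * Real.exp (-(1 / 2))) atTop
        (𝓝 ((iteratedDeriv n F 1).re * Real.exp (-(1 / 2)))) := (h.at_one n).mul_const _
    have l3 : ∀ᶠ N in atTop, rr (P N) n * Real.exp (-(1 / 2)) ≤
        ((derivative^[n] (P N)).eval 0).re := by
      filter_upwards [h.deg n, hSS n h1] with N q1 q2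
      have q2' : SS (P N) n ≤ 1 / 4 := q2.trans hs
      have q3 := (h.good N).at_zero q1 q2'
      have q4 : rr (P N) n * Real.exp (-(1 / 2)) ≤ ‖(derivative^[n] (P N)).eval 0‖ := by
        refine le_trans ?_ q3
        have := (h.good N).rr_nonneg n
        gcongr
        linarith
      refine q4.trans (le_of_eq ?_)
      -- positivity
      set g : ℝ → ℝ := fun x => ((derivative^[n] (P N)).eval (x : ℂ)).re with hg
      have hgc : Continuous g :=
        Complex.continuous_re.comp ((derivative^[n] (P N)).continuous.comp Complex.continuous_ofReal)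
      have hgne : ∀ x ∈ Set.Icc (0 : ℝ) 1, g x ≠ 0 := by
        intro x hx h0
        have hz : (derivative^[n] (P N)).eval (x : ℂ) = 0 := Complex.ext h0 (him N x)
        have := (h.good N).far q1 hz
        rw [ofReal_re] at this
        have hSp := (h.good N).SS_pos q1
        have hx0 := hx.1
        have hx1 := hx.2
        nlinarith
      have hg1 : 0 < g 1 := by
        have := (h.good N).rr_pos n q1.le
        simpa [hg, rr] using this
      have hg0 : 0 < g 0 := by
        by_contra hcon
        push Not at hcon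
        have := intermediate_value_Icc (show (0 : ℝ) ≤ 1 by norm_num) hgc.continuousOn
        obtain ⟨x, hx, hx0⟩ := this ⟨hcon, hg1.le⟩
        exact hgne x hx hx0
      have e : (derivative^[n] (P N)).eval 0 = ((g 0 : ℝ) : ℂ) := by
        apply Complex.ext
        · simp [hg]
        · have := him N 0
          rw [ofReal_zero] at this
          rw [this, ofReal_im]
      rw [e, Complex.norm_real, Real.norm_of_nonneg hg0.le, ofReal_re]
    have l4 := le_of_tendsto_of_tendsto l1 ((Complex.continuous_re.tendsto _).comp l2) l3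
    have l5 := h.pos_iter n
    exact lt_of_lt_of_le (by positivity) l4
  · have l6 := (Complex.continuous_im.tendsto _).comp l2
    refine tendsto_nhds_unique l6 (tendsto_const_nhds.congr fun N => ?_)
    have := him N 0
    rw [ofReal_zero] at this
    exact this.symm

/-- a polynomial with positive coefficients and real zeros has negative zeros -/
lemma neg_of_pos {d : ℕ} {a : ℕ → ℂ} (ha : ∀ j, 0 < (a j).re ∧ (a j).im = 0) {x : ℂ}
    (hx : ∑ j ∈ Finset.range (d + 1), (d.choose j : ℂ) * a j * x ^ j = 0) (him : x.im = 0) :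
    x.re < 0 := by
  by_contra hcon
  push Not at hcon
  have hxr : x = (x.re : ℂ) := Complex.ext (by simp) (by simp [him])
  have haj : ∀ j, a j = ((a j).re : ℂ) := fun j => Complex.ext (by simp) (by simp [(ha j).2])
  have e : (∑ j ∈ Finset.range (d + 1), (d.choose j : ℂ) * a j * x ^ j) =
      ((∑ j ∈ Finset.range (d + 1), (d.choose j : ℝ) * (a j).re * x.re ^ j : ℝ) : ℂ) := by
    push_cast
    refine Finset.sum_congr rfl fun j _ => ?_
    rw [← haj, ← hxr]
  rw [e] at hx
  have h1 : (∑ j ∈ Finset.range (d + 1), (d.choose j : ℝ) * (a j).re * x.re ^ j) = 0 := by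
    exact_mod_cast hx
  have h2 : 0 < ∑ j ∈ Finset.range (d + 1), (d.choose j : ℝ) * (a j).re * x.re ^ j := by
    refine Finset.sum_pos' (fun j _ => ?_) ⟨0, by simp, ?_⟩
    · have := (ha j).1
      positivity
    · have := (ha 0).1
      simpa using this
  linarith

end Pool.Agent.Helper40.HW
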