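import Pool.Agent.Helper40.HW.Sd
import Pool.Agent.Helper40.HW.Pos

set_option autoImplicit false
set_option maxHeartbeats 1000000

/-!
# Jensen polynomials of even entire functions which look like a product of Gamma functions
-/

open Complex Filter Topology Metric Polynomial

namespace Pool.Agent.Helper40.HW

open Pool.Agent.Helper75.Jen (KK Jv approx Conv main_abstract cpow_half_sq)

variable {f G : ℂ → ℂ} {q C1 T0 R0 A : ℝ} {B : ℕ}

theorem hS1_FF (hf : Ev f) (hC : Hi f G q C1 T0 R0 A B) :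
    ∃ (K c : ℝ) (m0 : ℕ), 1 ≤ K ∧ 0 < c ∧ ∀ m : ℕ, m0 ≤ m → ∀ z ∈ KK,
    iteratedDeriv m (FF f) z = 0 → K * (m : ℝ) ^ 2 ≤ ‖z‖ → ‖z‖ ≤ Real.exp (c * m) →
      z.im = 0 ∧ iteratedDeriv (m + 1) (FF f) z ≠ 0 := by
  have hC1 := hC.C11
  have hq := hC.q1
  have hR01 := hC.R01
  have hA := hC.A1
  have hT4 := hC.T04
  have hB0 : (0 : ℝ) ≤ B := Nat.cast_nonneg B
  have hqR : 1 ≤ q * R0 := by nlinarith
  set M0 : ℝ := 1000 * (q * R0 + B + A) with hM0
  have hM0pos : 0 < M0 := by rw [hM0]; linarith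
  refine ⟨10 ^ 14 + 1, 1 / M0, ⌈Real.exp (1000 * C1)⌉₊ + 10 ^ 9 + ⌈T0⌉₊, by norm_num,
    by positivity, ?_⟩
  intro m hm z hzK hz hlow hup
  have hm' : Real.exp (1000 * C1) + 10 ^ 9 + T0 ≤ m := by
    have h1 : ((⌈Real.exp (1000 * C1)⌉₊ + 10 ^ 9 + ⌈T0⌉₊ : ℕ) : ℝ) ≤ m := by exact_mod_cast hm
    push_cast at h1
    linarith [Nat.le_ceil (Real.exp (1000 * C1)), Nat.le_ceil T0]
  have hexp : 0 < Real.exp (1000 * C1) := Real.exp_pos _
  have hm9 : (10 : ℝ) ^ 9 ≤ m := by linarith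
  have hm0 : (0 : ℝ) < m := by linarith
  have hKK : z.re + z.im ^ 2 ≤ 1 / 4 := hzK
  have hnorm : ‖z‖ ^ 2 = z.re ^ 2 + z.im ^ 2 := by
    rw [Complex.sq_norm, Complex.normSq_apply]; ring
  have hbig : 10 ^ 18 ≤ ‖z‖ := by nlinarith
  have hre : z.re < 0 := by
    by_contra hcon
    push Not at hcon
    nlinarith [sq_nonneg z.im]
  set τ := Real.sqrt (-z.re) with hτdef
  have hτsq : τ ^ 2 = -z.re := Real.sq_sqrt (by linarith)
  have hτ0 : 0 < τ := Real.sqrt_pos.2 (by linarith)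
  have hn1 : ‖z‖ ≤ τ ^ 2 + 1 / 2 := by
    have : ‖z‖ ^ 2 ≤ (τ ^ 2 + 1 / 2) ^ 2 := by
      rw [hnorm]
      have e : z.re ^ 2 = (τ ^ 2) ^ 2 := by rw [hτsq]; ring
      rw [e]
      nlinarith
    exact le_of_sq_le_sq this (by positivity)
  have hn2 : τ ^ 2 ≤ ‖z‖ := by
    rw [hτsq]
    exact (neg_le_abs _).trans (abs_re_le_norm z)
  have hmt : 10 ^ 7 * (m : ℝ) ≤ τ := by
    have : (10 ^ 7 * (m : ℝ)) ^ 2 ≤ τ ^ 2 := by nlinarith
    exact le_of_sq_le_sq this hτ0.le
  have hpar : Par q C1 T0 R0 A B τ m := by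
    refine ⟨hm9, hmt, by linarith, ?_, ?_⟩
    · rw [Real.le_log_iff_exp_le hτ0]
      linarith
    · have h1 : Real.log (τ ^ 2) ≤ 1 / M0 * m := by
        rw [Real.log_le_iff_le_exp (by positivity)]
        exact hn2.trans hup
      rw [Real.log_pow] at h1
      push_cast at h1
      have hlogpos : 0 ≤ Real.log τ := Real.log_nonneg (by linarith)
      have h2 : Real.log τ ≤ 1 / M0 * m := by linarith
      calc M0 * Real.log τ ≤ M0 * (1 / M0 * m) := by gcongr
        _ = m := by field_simp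
  have hzeq : z = ⟨-(τ ^ 2), z.im⟩ := by
    apply Complex.ext
    · simp [hτsq]
    · rfl
  rw [hzeq] at hz
  have := hS1_core hf hC hpar (y := z.im) (by linarith) hz
  rw [← hzeq] at this
  exact this

lemma FF_np (hf : Ev f) (hC : Hi f G q C1 T0 R0 A B) (n : ℕ) :
    ∃ z, iteratedDeriv n (FF f) z ≠ 0 := by
  by_contra hcon
  push Not at hcon
  have hfun : iteratedDeriv n (FF f) = fun _ => 0 := funext hcon
  have hall : ∀ k : ℕ, iteratedDeriv (n + k) (FF f) = fun _ => 0 := by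
    intro k
    induction k with
    | zero => simpa using hfun
    | succ k ih =>
      rw [← add_assoc, iteratedDeriv_succ, ih]
      funext x
      simp
  obtain ⟨K, c, m0, hK, hc, hS⟩ := hS1_FF hf hC
  have h1 : ∀ᶠ t : ℝ in atTop, K * t ^ 2 ≤ Real.exp (c * t) := by
    have := (isLittleO_pow_exp_pos_mul_atTop 2 hc).def (c := 1 / K) (by positivity)
    filter_upwards [this, eventually_ge_atTop (0 : ℝ)] with t ht ht0
    rw [Real.norm_of_nonneg (by positivity), Real.norm_of_nonneg (Real.exp_pos _).le] at ht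
    calc K * t ^ 2 ≤ K * (1 / K * Real.exp (c * t)) := by gcongr
      _ = _ := by field_simp
  have h2 : ∀ᶠ m : ℕ in atTop, K * (m : ℝ) ^ 2 ≤ Real.exp (c * m) :=
    tendsto_natCast_atTop_atTop.eventually h1
  obtain ⟨m, hm1, hm2, hm3⟩ := (h2.and ((eventually_ge_atTop m0).and (eventually_ge_atTop n))).exists
  obtain ⟨k, rfl⟩ := Nat.exists_eq_add_of_le hm3
  have hX : 0 ≤ K * ((n + k : ℕ) : ℝ) ^ 2 := by positivity
  have hn : ‖((-(K * ((n + k : ℕ) : ℝ) ^ 2) : ℝ) : ℂ)‖ = K * ((n + k : ℕ) : ℝ) ^ 2 := by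
    rw [Complex.norm_real, norm_neg, Real.norm_of_nonneg hX]
  have := (hS (n + k) hm2 ((-(K * ((n + k : ℕ) : ℝ) ^ 2) : ℝ) : ℂ) (by
      simp only [KK, Set.mem_ofPred_eq, ofReal_re, ofReal_im]
      linarith) (by rw [hall k]) (by rw [hn]) (by rw [hn]; exact hm1)).2
  apply this
  rw [add_assoc, hall]

/-- Taylor coefficients -/
lemma FF_taylor (hf : Ev f) (k : ℕ) : iteratedDeriv k (FF f) 0 =
    (k.factorial : ℂ) / ((2 * k).factorial : ℂ) * iteratedDeriv (2 * k) f 0 := by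
  classical
  set b : ℕ → ℂ := fun j => if Even j then
    iteratedDeriv (j / 2) (FF f) 0 / ((j / 2).factorial : ℂ) else 0 with hb
  have h1 : HasFPowerSeriesAt f
      (FormalMultilinearSeries.ofScalars ℂ (fun n ↦ iteratedDeriv n f 0 / n.factorial)) 0 :=
    AnalyticAt.hasFPowerSeriesAt (hf.diff.analyticAt 0)
  have h2 : HasFPowerSeriesAt f (FormalMultilinearSeries.ofScalars ℂ b) 0 := by
    rw [hasFPowerSeriesAt_iff]
    refine Eventually.of_forall fun z => ?_
    rw [zero_add, ← FF_sq hf]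
    have h3 := Complex.hasSum_taylorSeries_of_entire (FF_diff hf) 0 (z ^ 2)
    simp only [smul_eq_mul, sub_zero] at h3
    have hinj : Function.Injective (fun n : ℕ => 2 * n) := fun a b h => by
      simpa using h
    rw [← hinj.hasSum_iff (f := fun n => z ^ n • (FormalMultilinearSeries.ofScalars ℂ b).coeff n)]
    · have e : ((fun n => z ^ n • (FormalMultilinearSeries.ofScalars ℂ b).coeff n) ∘ fun n => 2 * n) =
          fun n : ℕ => (n.factorial : ℂ)⁻¹ * ((z ^ 2) ^ n * iteratedDeriv n (FF f) 0) := by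
        funext n
        simp only [Function.comp_apply, FormalMultilinearSeries.coeff_ofScalars, hb, smul_eq_mul]
        rw [if_pos (even_two_mul n), show 2 * n / 2 = n by omega, ← pow_mul]
        ring
      rw [e]
      exact h3
    · intro x hx
      have hodd : ¬ Even x := by
        intro he
        obtain ⟨r, hr⟩ := he
        exact hx ⟨r, by simp only; omega⟩
      rw [FormalMultilinearSeries.coeff_ofScalars, hb]
      simp [hodd]
  have h4 := h1.eq_formalMultilinearSeries h2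
  have h5 := FormalMultilinearSeries.ofScalars_series_injective ℂ ℂ h4
  have h6 := congrFun h5 (2 * k)
  simp only [hb] at h6
  rw [if_pos (even_two_mul k), show 2 * k / 2 = k by omega] at h6
  have hk : (k.factorial : ℂ) ≠ 0 := by exact_mod_cast k.factorial_ne_zero
  have hk2 : ((2 * k).factorial : ℂ) ≠ 0 := by exact_mod_cast (2 * k).factorial_ne_zero
  field_simp at h6 ⊢
  linear_combination -h6

lemma FF_growth (hf : Ev f) {C : ℝ}
    (hgr : ∀ w, ‖f w‖ ≤ Real.exp (C * (1 + ‖w‖ ^ 2) ^ (3 / 5 : ℝ))) (z : ℂ) :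
    ‖FF f z‖ ≤ Real.exp (C * (1 + ‖z‖) ^ (3 / 5 : ℝ)) := by
  have hz : ‖z‖ = ‖z ^ (1 / 2 : ℂ)‖ ^ 2 := by rw [← norm_pow, cpow_half_sq]
  rw [hz]
  exact hgr _

/-- the positive case -/
theorem jensen_pos (hf : Ev f) (hC : Hi f G q C1 T0 R0 A B)
    (hz : ∀ w, f w = 0 → |w.re| ≤ 1 / 2) (h1 : 0 < (f 1).re) {C : ℝ} (hC0 : 0 ≤ C)
    (hgr : ∀ w, ‖f w‖ ≤ Real.exp (C * (1 + ‖w‖ ^ 2) ^ (3 / 5 : ℝ))) :
    ∃ C0 : ℝ, 0 < C0 ∧ ∀ d n : ℕ, 2 ≤ d → C0 * Real.log d ≤ n →
      ∀ z : ℂ, Jv d (fun j => iteratedDeriv (n + j) (FF f) 0) z = 0 → z.im = 0 ∧ z.re < 0 := by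
  have hF1 : 0 < (FF f 1).re := by
    rw [FF_eq hf (w := 1) (by norm_num)]
    exact h1
  obtain ⟨P, hP1, hP2⟩ := approx (FF_diff hf) (FF_conj hf) hF1 (FF_roots hz) hC0
    (fun z => FF_growth hf hgr z)
  have hconv : Conv (FF f) P := ⟨FF_diff hf, hP1, hP2, hF1, FF_np hf hC⟩
  obtain ⟨K, c, m0, hK, hc, hS1⟩ := hS1_FF hf hC
  obtain ⟨C2, hC2, hmain⟩ := main_abstract hconv hC0 (fun z => FF_growth hf hgr z) (m0 := m0) hK hc hS1
  obtain ⟨n1, hn1⟩ := gamma_pos hconv hC0 (fun z => FF_growth hf hgr z)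
  have hlog2 : 0 < Real.log 2 := Real.log_pos (by norm_num)
  refine ⟨max C2 (n1 / Real.log 2), lt_max_of_lt_left hC2, fun d n hd hn z hz0 => ?_⟩
  have hd2 : (2 : ℝ) ≤ d := by exact_mod_cast hd
  have hlogd : Real.log 2 ≤ Real.log d := Real.log_le_log (by norm_num) hd2
  have hlogd0 : 0 ≤ Real.log d := by linarith
  have him := hmain d n hd ((mul_le_mul_of_nonneg_right (le_max_left _ _) hlogd0).trans hn) z hz0
  refine ⟨him, ?_⟩
  have hn2 : n1 ≤ n := by
    have h2 : (n1 : ℝ) ≤ n := by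
      calc (n1 : ℝ) = n1 / Real.log 2 * Real.log 2 := by field_simp
        _ ≤ max C2 (n1 / Real.log 2) * Real.log d :=
            mul_le_mul (le_max_right _ _) hlogd hlog2.le (le_max_of_le_left hC2.le)
        _ ≤ n := hn
    exact_mod_cast h2
  exact neg_of_pos (a := fun j => iteratedDeriv (n + j) (FF f) 0)
    (fun j => hn1 (n + j) (by omega)) hz0 him

/-- the Taylor coefficients of `f(w) = ∑ γ(n) / n! w^(2n)` -/
noncomputable def gm (f : ℂ → ℂ) (n : ℕ) : ℂ :=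
  (n.factorial : ℂ) / ((2 * n).factorial : ℂ) * iteratedDeriv (2 * n) f 0

/-- **The abstract theorem.** -/
theorem jensen_abs (hf : Ev f) (hC : Hi f G q C1 T0 R0 A B)
    (hz : ∀ w, f w = 0 → |w.re| ≤ 1 / 2) {C : ℝ} (hC0 : 0 ≤ C)
    (hgr : ∀ w, ‖f w‖ ≤ Real.exp (C * (1 + ‖w‖ ^ 2) ^ (3 / 5 : ℝ))) :
    ∃ C0 : ℝ, 0 < C0 ∧ ∀ d n : ℕ, 2 ≤ d → C0 * Real.log d ≤ n →
      ∀ z : ℂ, ∑ j ∈ Finset.range (d + 1), (d.choose j : ℂ) * gm f (n + j) * z ^ j = 0 →
        z.im = 0 ∧ z.re < 0 := by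
  have h0 : f 1 ≠ 0 := by
    intro h
    have := hz 1 h
    norm_num at this
  have him : (f 1).im = 0 := by
    have := hf.conj 1
    rw [map_one] at this
    exact Complex.conj_eq_iff_im.1 this.symm
  have hre : (f 1).re ≠ 0 := by
    intro h
    exact h0 (Complex.ext h him)
  rcases lt_or_gt_of_ne hre with hneg | hpos
  · have hf' : Ev (fun w => -f w) :=
      ⟨hf.diff.neg, fun w => by rw [hf.even], fun w => by rw [hf.conj, map_neg]⟩
    have hC' : Hi (fun w => -f w) (fun w => -G w) q C1 T0 R0 A B := by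
      refine ⟨hC.q1, hC.C11, hC.T04, hC.R01, hC.A1, ?_, ?_, ?_⟩
      · intro w a1 a2
        obtain ⟨b1, b2, b3⟩ := hC.lb w a1 a2
        refine ⟨neg_ne_zero.2 b1, b2.neg, ?_⟩
        have : logDeriv (fun w => -G w) w = logDeriv G w := by
          rw [logDeriv_apply, logDeriv_apply]
          have : deriv (fun w => -G w) w = -deriv G w := deriv.fun_neg
          rw [this, neg_div_neg_eq]
        rw [this]
        exact b3
      · intro w a1 a2 a3
        have := hC.h2 w a1 a2 a3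
        rw [norm_neg]
        have e : -f w - -G w = -(f w - G w) := by ring
        rw [e, norm_neg]
        exact this
      · intro w a1 a2 a3
        rw [norm_neg, norm_neg]
        exact hC.h1 w a1 a2 a3
    obtain ⟨C2, hC2, hmain⟩ := jensen_pos hf' hC' (fun w h => hz w (neg_eq_zero.1 h))
      (by rw [neg_re]; linarith) hC0 (fun w => by rw [norm_neg]; exact hgr w)
    refine ⟨C2, hC2, fun d n hd hn z hz0 => hmain d n hd hn z ?_⟩
    rw [Jv]
    have : ∀ j, iteratedDeriv (n + j) (FF (fun w => -f w)) 0 = -gm f (n + j) := by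
      intro j
      have e : FF (fun w => -f w) = fun z => -FF f z := rfl
      rw [e, iteratedDeriv_fun_neg, FF_taylor hf, gm]
    simp only [this]
    rw [← neg_eq_zero]
    refine Eq.trans ?_ hz0
    rw [← Finset.sum_neg_distrib]
    refine Finset.sum_congr rfl fun j _ => ?_
    ring
  · obtain ⟨C2, hC2, hmain⟩ := jensen_pos hf hC hz hpos hC0 hgr
    refine ⟨C2, hC2, fun d n hd hn z hz0 => hmain d n hd hn z ?_⟩
    refine Eq.trans ?_ hz0
    rw [Jv]
    refine Finset.sum_congr rfl fun j _ => ?_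
    rw [FF_taylor hf, gm]

end Pool.Agent.Helper40.HW
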