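import Pool.Agent.Helper40.HW.Gam

set_option autoImplicit false
set_option maxHeartbeats 1000000

/-!
# Classes of functions of polynomial growth, of order at most `6/5`, and of finite order in strips
-/

open Complex Filter Topology Metric Asymptotics

namespace Pool.Agent.Helper40.HW

/-- polynomial growth on `S` -/
def Pb (S : Set ℂ) (g : ℂ → ℂ) : Prop :=
  ∃ (K : ℝ) (N : ℕ), 0 ≤ K ∧ ∀ s ∈ S, ‖g s‖ ≤ K * (1 + ‖s‖) ^ N

lemma Pb.mul {S : Set ℂ} {f g : ℂ → ℂ} (hf : Pb S f) (hg : Pb S g) : Pb S (fun s => f s * g s) := by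
  obtain ⟨K, N, hK, h⟩ := hf
  obtain ⟨K', N', hK', h'⟩ := hg
  refine ⟨K * K', N + N', by positivity, fun s hs => ?_⟩
  rw [norm_mul, pow_add]
  calc ‖f s‖ * ‖g s‖ ≤ (K * (1 + ‖s‖) ^ N) * (K' * (1 + ‖s‖) ^ N') :=
        mul_le_mul (h s hs) (h' s hs) (norm_nonneg _) (by positivity)
    _ = _ := by ring

lemma Pb.bdd {S : Set ℂ} {f : ℂ → ℂ} {K : ℝ} (h : ∀ s ∈ S, ‖f s‖ ≤ K) : Pb S f := by
  refine ⟨|K|, 0, abs_nonneg _, fun s hs => ?_⟩
  rw [pow_zero, mul_one]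
  exact (h s hs).trans (le_abs_self K)

lemma Pb.prod {S : Set ℂ} {ι : Type*} (J : Finset ι) (f : ι → ℂ → ℂ) (h : ∀ i ∈ J, Pb S (f i)) :
    Pb S (fun s => ∏ i ∈ J, f i s) := by
  classical
  induction J using Finset.induction_on with
  | empty => exact Pb.bdd (K := 1) (fun s _ => by simp)
  | insert a J ha ih =>
    simp only [Finset.prod_insert ha]
    exact (h a (Finset.mem_insert_self _ _)).mul
      (ih fun i hi => h i (Finset.mem_insert_of_mem hi))

lemma Pb.lin {S : Set ℂ} (a b : ℂ) : Pb S (fun s => a * s + b) := by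
  refine ⟨‖a‖ + ‖b‖, 1, by positivity, fun s _ => ?_⟩
  refine (norm_add_le _ _).trans ?_
  rw [norm_mul, pow_one]
  have h1 := norm_nonneg a
  have h2 := norm_nonneg b
  have h3 := norm_nonneg s
  nlinarith [mul_nonneg h2 h3]

lemma Pb.of_le {S : Set ℂ} {f g : ℂ → ℂ} (hg : Pb S g) (h : ∀ s ∈ S, ‖f s‖ ≤ ‖g s‖) : Pb S f := by
  obtain ⟨K, N, hK, h'⟩ := hg
  exact ⟨K, N, hK, fun s hs => (h s hs).trans (h' s hs)⟩

/-- order at most `6/5` on `S` -/
def Go (S : Set ℂ) (g : ℂ → ℂ) : Prop :=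
  ∃ C : ℝ, 0 ≤ C ∧ ∀ s ∈ S, ‖g s‖ ≤ Real.exp (C * (1 + ‖s‖) ^ (6 / 5 : ℝ))

lemma Go.mul {S : Set ℂ} {f g : ℂ → ℂ} (hf : Go S f) (hg : Go S g) : Go S (fun s => f s * g s) := by
  obtain ⟨C, hC, h⟩ := hf
  obtain ⟨C', hC', h'⟩ := hg
  refine ⟨C + C', by positivity, fun s hs => ?_⟩
  rw [norm_mul, add_mul, Real.exp_add]
  exact mul_le_mul (h s hs) (h' s hs) (norm_nonneg _) (Real.exp_pos _).le

lemma Go.prod {S : Set ℂ} {ι : Type*} (J : Finset ι) (f : ι → ℂ → ℂ) (h : ∀ i ∈ J, Go S (f i)) :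
    Go S (fun s => ∏ i ∈ J, f i s) := by
  classical
  induction J using Finset.induction_on with
  | empty => exact ⟨0, le_rfl, fun s _ => by simp⟩
  | insert a J ha ih =>
    simp only [Finset.prod_insert ha]
    exact (h a (Finset.mem_insert_self _ _)).mul
      (ih fun i hi => h i (Finset.mem_insert_of_mem hi))

lemma le_pow65 {x : ℝ} (hx : 1 ≤ x) : x ≤ x ^ (6 / 5 : ℝ) := by
  calc x = x ^ (1 : ℝ) := (Real.rpow_one x).symm
    _ ≤ _ := Real.rpow_le_rpow_of_exponent_le hx (by norm_num)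

lemma Pb.go {S : Set ℂ} {f : ℂ → ℂ} (hf : Pb S f) : Go S f := by
  obtain ⟨K, N, hK, h⟩ := hf
  refine ⟨K + N, by positivity, fun s hs => (h s hs).trans ?_⟩
  have h1 : 1 ≤ 1 + ‖s‖ := by have := norm_nonneg s; linarith
  have h2 := le_pow65 h1
  have h3 : (1 + ‖s‖) ^ N ≤ Real.exp (N * (1 + ‖s‖)) := by
    rw [Real.exp_nat_mul]
    refine pow_le_pow_left₀ (by positivity) ?_ N
    linarith [Real.add_one_le_exp (1 + ‖s‖)]
  have h4 : K ≤ Real.exp (K * (1 + ‖s‖)) := by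
    have := Real.add_one_le_exp (K * (1 + ‖s‖))
    nlinarith
  calc K * (1 + ‖s‖) ^ N ≤ Real.exp (K * (1 + ‖s‖)) * Real.exp (N * (1 + ‖s‖)) := by gcongr
    _ = Real.exp ((K + N) * (1 + ‖s‖)) := by rw [← Real.exp_add]; congr 1; ring
    _ ≤ _ := by
        refine Real.exp_le_exp.2 ?_
        gcongr

lemma Go.exp_lin {S : Set ℂ} (a : ℂ) : Go S (fun s => cexp (a * s)) := by
  refine ⟨‖a‖, norm_nonneg a, fun s _ => ?_⟩
  rw [Complex.norm_exp]
  refine Real.exp_le_exp.2 ?_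
  have h1 : (a * s).re ≤ ‖a‖ * ‖s‖ := (Complex.re_le_norm _).trans (norm_mul_le a s)
  refine h1.trans ?_
  refine mul_le_mul_of_nonneg_left ?_ (norm_nonneg a)
  have : ‖s‖ ≤ 1 + ‖s‖ := by linarith
  exact this.trans (le_pow65 (by have := norm_nonneg s; linarith))

/-- the Gamma factor to the right -/
lemma Go.gam (μ x0 : ℝ) (h : 1 / 2 ≤ x0 + μ) :
    Go {s : ℂ | x0 ≤ s.re} (fun s => Gammaℝ (s + μ)) := by
  refine ⟨10 * (|μ| + 10) ^ (6 / 5 : ℝ) , by positivity, fun s hs => ?_⟩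
  have hs' : x0 ≤ s.re := hs
  have hre : (s + μ).re = s.re + μ := by simp
  have h0 : 0 < (s + μ).re := by rw [hre]; linarith
  refine (Pool.Agent.Helper75.Jen.norm_GammaR_le h0).trans ?_
  rw [hre]
  set x := (s.re + μ) / 2 with hx
  have hx4 : 1 / 4 ≤ x := by rw [hx]; linarith
  refine (Pool.Agent.Helper75.Jen.Gamma_le_rpow hx4).trans ?_
  set y := x + 2 with hy
  have hy2 : 2 ≤ y := by linarith
  have hy0 : 0 < y := by linarith
  have hlog : Real.log y ≤ 5 * y ^ (1 / 5 : ℝ) := by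
    have := Real.log_le_rpow_div hy0.le (show (0 : ℝ) < 1 / 5 by norm_num)
    linarith
  have e2 : y ^ y = Real.exp (y * Real.log y) := by
    rw [Real.rpow_def_of_pos hy0]; congr 1; ring
  have e3 : (4 : ℝ) ≤ Real.exp (2 * y) := by
    have := Real.add_one_le_exp (2 * y)
    linarith
  have hyb : y ≤ (|μ| + 10) * (1 + ‖s‖) := by
    have h1 := Complex.re_le_norm s
    have h2 := le_abs_self μ
    have h3 := norm_nonneg s
    have h4 := abs_nonneg μ
    have h5 : y = (s.re + μ) / 2 + 2 := by rw [hy, hx]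
    rw [h5]
    nlinarith [mul_nonneg h4 h3]
  have hy65 : y ^ (6 / 5 : ℝ) ≤ (|μ| + 10) ^ (6 / 5 : ℝ) * (1 + ‖s‖) ^ (6 / 5 : ℝ) := by
    rw [← Real.mul_rpow (by positivity) (by positivity)]
    exact Real.rpow_le_rpow hy0.le hyb (by norm_num)
  have e4 : y * y ^ (1 / 5 : ℝ) = y ^ (6 / 5 : ℝ) := by
    nth_rewrite 1 [← Real.rpow_one y]
    rw [← Real.rpow_add hy0]
    norm_num
  have e5 : y ≤ y ^ (6 / 5 : ℝ) := le_pow65 (by linarith)
  calc 4 * y ^ y ≤ Real.exp (2 * y) * Real.exp (y * Real.log y) := by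
        rw [e2]; gcongr
    _ = Real.exp (2 * y + y * Real.log y) := by rw [← Real.exp_add]
    _ ≤ _ := by
        refine Real.exp_le_exp.2 ?_
        have h6 : y * Real.log y ≤ 5 * y ^ (6 / 5 : ℝ) := by
          rw [← e4]
          calc y * Real.log y ≤ y * (5 * y ^ (1 / 5 : ℝ)) := by gcongr
            _ = _ := by ring
        have h7 : 0 ≤ y ^ (6 / 5 : ℝ) := by positivity
        have h8 : 2 * y + y * Real.log y ≤ 10 * y ^ (6 / 5 : ℝ) := by linarith
        refine h8.trans ?_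
        calc 10 * y ^ (6 / 5 : ℝ) ≤ 10 * ((|μ| + 10) ^ (6 / 5 : ℝ) * (1 + ‖s‖) ^ (6 / 5 : ℝ)) := by
              gcongr
          _ = _ := by ring

/-- finite order in the strip, high up -/
def Gr (x1 x2 : ℝ) (g : ℂ → ℂ) : Prop :=
  ∃ (a : ℕ) (B T : ℝ), 0 ≤ B ∧ ∀ s : ℂ, x1 ≤ s.re → s.re ≤ x2 → T ≤ |s.im| →
    ‖g s‖ ≤ Real.exp (B * (1 + |s.im|) ^ a)

lemma Gr.mul {x1 x2 : ℝ} {f g : ℂ → ℂ} (hf : Gr x1 x2 f) (hg : Gr x1 x2 g) :
    Gr x1 x2 (fun s => f s * g s) := by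
  obtain ⟨a, B, T, hB, h⟩ := hf
  obtain ⟨a', B', T', hB', h'⟩ := hg
  refine ⟨a + a', B + B', max T T', by positivity, fun s h1 h2 h3 => ?_⟩
  rw [norm_mul, add_mul, Real.exp_add]
  have h0 : 1 ≤ 1 + |s.im| := by have := abs_nonneg s.im; linarith
  refine mul_le_mul ((h s h1 h2 (le_of_max_le_left h3)).trans ?_)
    ((h' s h1 h2 (le_of_max_le_right h3)).trans ?_) (norm_nonneg _) (Real.exp_pos _).le
  · exact Real.exp_le_exp.2 (mul_le_mul_of_nonneg_left (pow_le_pow_right₀ h0 (by omega)) hB)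
  · exact Real.exp_le_exp.2 (mul_le_mul_of_nonneg_left (pow_le_pow_right₀ h0 (by omega)) hB')

lemma Gr.prod {x1 x2 : ℝ} {ι : Type*} (J : Finset ι) (f : ι → ℂ → ℂ)
    (h : ∀ i ∈ J, Gr x1 x2 (f i)) : Gr x1 x2 (fun s => ∏ i ∈ J, f i s) := by
  classical
  induction J using Finset.induction_on with
  | empty => exact ⟨0, 0, 0, le_rfl, fun s _ _ _ => by simp⟩
  | insert a J ha ih =>
    simp only [Finset.prod_insert ha]
    exact (h a (Finset.mem_insert_self _ _)).mul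
      (ih fun i hi => h i (Finset.mem_insert_of_mem hi))

/-- a bound for the norm in a strip -/
lemma norm_strip {x1 x2 : ℝ} {s : ℂ} (h1 : x1 ≤ s.re) (h2 : s.re ≤ x2) :
    1 + ‖s‖ ≤ (1 + |x1| + |x2|) * (1 + |s.im|) := by
  have h3 := norm_le_abs_re_add_abs_im s
  have h4 : |s.re| ≤ |x1| + |x2| := by
    rw [abs_le]
    have a1 := neg_abs_le x1
    have a2 := le_abs_self x2
    have a3 := abs_nonneg x1
    have a4 := abs_nonneg x2
    constructor <;> linarith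
  have h5 := abs_nonneg s.im
  have h6 := abs_nonneg x1
  have h7 := abs_nonneg x2
  nlinarith [mul_nonneg h6 h5, mul_nonneg h7 h5]

lemma Gr.of_fin {x1 x2 : ℝ} {F : ℂ → ℂ} {a : ℕ} {B : ℝ}
    (h : ∀ s, ‖F s‖ ≤ Real.exp (B * (1 + ‖s‖) ^ a)) : Gr x1 x2 F := by
  refine ⟨a, |B| * (1 + |x1| + |x2|) ^ a, 0, by positivity, fun s h1 h2 _ => ?_⟩
  refine (h s).trans (Real.exp_le_exp.2 ?_)
  rw [mul_assoc, ← mul_pow]
  calc B * (1 + ‖s‖) ^ a ≤ |B| * (1 + ‖s‖) ^ a := by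
        gcongr
        exact le_abs_self B
    _ ≤ _ := by
        gcongr
        exact norm_strip h1 h2

lemma Gr.exp_lin {x1 x2 : ℝ} (a : ℂ) : Gr x1 x2 (fun s => cexp (a * s)) := by
  refine Gr.of_fin (a := 1) (B := ‖a‖) fun s => ?_
  rw [Complex.norm_exp, pow_one]
  refine Real.exp_le_exp.2 ?_
  refine ((Complex.re_le_norm _).trans (norm_mul_le a s)).trans ?_
  exact mul_le_mul_of_nonneg_left (by linarith) (norm_nonneg a)

lemma Gr.gam_inv {x1 x2 : ℝ} (μ : ℝ) : Gr x1 x2 (fun s => (Gammaℝ (s + μ))⁻¹) := by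
  obtain ⟨K, T, N, hK, hT, h⟩ := GR_inv_growth (|x1| + |x2| + |μ| + 1) (by
    have := abs_nonneg x1
    have := abs_nonneg x2
    have := abs_nonneg μ
    linarith)
  refine ⟨1, K + N + 1, T, by positivity, fun s h1 h2 h3 => ?_⟩
  have hre : (s + μ).re = s.re + μ := by simp
  have him : (s + μ).im = s.im := by simp
  have h4 := h (s + μ) (by
    rw [hre, abs_le]
    have a1 := neg_abs_le x1
    have a2 := le_abs_self x2
    have a3 := abs_nonneg x1
    have a4 := abs_nonneg x2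
    have a5 := neg_abs_le μ
    have a6 := le_abs_self μ
    constructor <;> linarith) (by rw [him]; exact h3)
  rw [him] at h4
  refine h4.trans ?_
  have h5 : 1 ≤ 1 + |s.im| := by have := abs_nonneg s.im; linarith
  have h6 : (1 + |s.im|) ^ N ≤ Real.exp (N * (1 + |s.im|)) := by
    rw [Real.exp_nat_mul]
    refine pow_le_pow_left₀ (by positivity) ?_ N
    linarith [Real.add_one_le_exp (1 + |s.im|)]
  have h7 : K ≤ Real.exp (K * (1 + |s.im|)) := by
    have := Real.add_one_le_exp (K * (1 + |s.im|))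
    nlinarith
  calc K * (1 + |s.im|) ^ N * Real.exp |s.im| ≤
      Real.exp (K * (1 + |s.im|)) * Real.exp (N * (1 + |s.im|)) * Real.exp (1 + |s.im|) := by
        gcongr
        linarith
    _ = Real.exp ((K + N + 1) * (1 + |s.im|)) := by
        rw [← Real.exp_add, ← Real.exp_add]; congr 1; ring
    _ = _ := by rw [pow_one]

end Pool.Agent.Helper40.HW
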