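import Pool.Agent.Helper40.HW.LF

set_option autoImplicit false
set_option maxHeartbeats 1000000

/-!
# The Jensen polynomials of completed L-functions
-/

open Complex Filter Topology Metric Asymptotics

namespace Pool.Agent.Helper40.HW

variable {m k : ℕ} {μ : Fin m → ℝ} {ρ : Fin k → ℂ} {A c β : ℝ} {D F : ℂ → ℂ} {ε : ℂ}

/-- the comparison function in the variable `s` -/
noncomputable def Qs {m k : ℕ} (μ : Fin m → ℝ) (ρ : Fin k → ℂ) (A : ℝ) (s : ℂ) : ℂ :=
  (∏ i, (s - ρ i)) * Hf μ A s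

lemma Hf_diffAt (hA : 0 < A) {s : ℂ} (hs : s.im ≠ 0) : DifferentiableAt ℂ (Hf μ A) s ∧
    Hf μ A s ≠ 0 ∧ logDeriv (Hf μ A) s =
      ((Real.log A / 2 : ℝ) : ℂ) + ∑ j, logDeriv Gammaℝ (s + μ j) := by
  have him : ∀ j, (s + μ j).im ≠ 0 := fun j => by simpa using hs
  have hG : ∀ j, DifferentiableAt ℂ (fun z : ℂ => Gammaℝ (z + μ j)) s := fun j =>
    DifferentiableAt.comp (g := Gammaℝ) (f := fun z : ℂ => z + μ j) s
      (SG.GamAux.GR_analytic (him j)).differentiableAt (by fun_prop)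
  have hGn : ∀ j, Gammaℝ (s + μ j) ≠ 0 := fun j => SG.GamAux.GR_ne (him j)
  have e : Hf μ A = fun z => cexp ((Real.log A / 2 : ℝ) * z) * ∏ j, Gammaℝ (z + μ j) := by
    funext z; exact Hf_eq hA z
  have hE : DifferentiableAt ℂ (fun z : ℂ => cexp ((Real.log A / 2 : ℝ) * z)) s := by fun_prop
  have hP : DifferentiableAt ℂ (fun z : ℂ => ∏ j, Gammaℝ (z + μ j)) s :=
    DifferentiableAt.fun_finsetProd fun j _ => hG j
  have hPn : ∏ j, Gammaℝ (s + μ j) ≠ 0 := Finset.prod_ne_zero_iff.2 fun j _ => hGn j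
  refine ⟨by rw [e]; exact hE.mul hP, by rw [Hf_eq hA]; exact mul_ne_zero (Complex.exp_ne_zero _) hPn,
    ?_⟩
  rw [e, logDeriv_mul (f := fun z : ℂ => cexp ((Real.log A / 2 : ℝ) * z))
    (g := fun z : ℂ => ∏ j, Gammaℝ (z + μ j)) s (Complex.exp_ne_zero _) hPn hE hP]
  congr 1
  · have h1 : HasDerivAt (fun z : ℂ => cexp ((Real.log A / 2 : ℝ) * z))
        (cexp ((Real.log A / 2 : ℝ) * s) * ((Real.log A / 2 : ℝ) : ℂ)) s := by
      have h2 : HasDerivAt (fun z : ℂ => ((Real.log A / 2 : ℝ) : ℂ) * z)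
        ((Real.log A / 2 : ℝ) : ℂ) s := by
        simpa using (hasDerivAt_id s).const_mul ((Real.log A / 2 : ℝ) : ℂ)
      exact h2.cexp
    rw [logDeriv_apply, h1.deriv, mul_div_cancel_left₀ _ (Complex.exp_ne_zero _)]
  · rw [logDeriv_prod (f := fun j (z : ℂ) => Gammaℝ (z + μ j)) (fun j _ => hGn j) fun j _ => hG j]
    refine Finset.sum_congr rfl fun j _ => ?_
    rw [logDeriv_apply, logDeriv_apply, deriv_comp_add_const]

/-- the logarithmic derivative high up -/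
lemma Qs_ld (hA : 0 < A) : ∃ C T : ℝ, 0 ≤ C ∧ 4 ≤ T ∧ ∀ s : ℂ, T ≤ s.im → |s.re| ≤ 3 / 4 * s.im →
    Qs μ ρ A s ≠ 0 ∧ DifferentiableAt ℂ (Qs μ ρ A) s ∧ 1 ≤ ‖∏ i, (s - ρ i)‖ ∧
    ‖logDeriv (Qs μ ρ A) s - ((m / 2 * Real.log s.im : ℝ) : ℂ)‖ ≤ C := by
  obtain ⟨C, hC, hld⟩ := ldR
  set T : ℝ := 4 + ∑ i, ‖ρ i‖ + 4 * ∑ j, |μ j| with hT
  have hρ0 : 0 ≤ ∑ i, ‖ρ i‖ := Finset.sum_nonneg fun i _ => norm_nonneg _
  have hμ0 : 0 ≤ ∑ j, |μ j| := Finset.sum_nonneg fun j _ => abs_nonneg _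
  have hρi : ∀ i, ‖ρ i‖ ≤ ∑ i, ‖ρ i‖ := fun i =>
    Finset.single_le_sum (f := fun i => ‖ρ i‖) (fun i _ => norm_nonneg _) (Finset.mem_univ i)
  have hμj : ∀ j, |μ j| ≤ ∑ j, |μ j| := fun j =>
    Finset.single_le_sum (f := fun j => |μ j|) (fun j _ => abs_nonneg _) (Finset.mem_univ j)
  refine ⟨k + |Real.log A / 2| + m * C, T, by positivity, by linarith, ?_⟩
  intro s hs hre
  have him : s.im ≠ 0 := by intro h0; rw [h0] at hs; linarith
  have hims : 0 < s.im := by linarith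
  obtain ⟨h1, h2, h3⟩ := Hf_diffAt (μ := μ) hA him
  have hsρ : ∀ i, 1 ≤ ‖s - ρ i‖ := by
    intro i
    have a1 : |(s - ρ i).im| ≤ ‖s - ρ i‖ := abs_im_le_norm _
    have a2 : (s - ρ i).im = s.im - (ρ i).im := sub_im _ _
    have a3 := abs_im_le_norm (ρ i)
    have a4 := le_abs_self (ρ i).im
    have a5 := le_abs_self (s - ρ i).im
    have a6 := hρi i
    rw [a2] at a5 a1
    linarith
  have hsρ0 : ∀ i, s - ρ i ≠ 0 := fun i => by
    rw [← norm_pos_iff]; linarith [hsρ i]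
  have hPn : ∏ i, (s - ρ i) ≠ 0 := Finset.prod_ne_zero_iff.2 fun i _ => hsρ0 i
  have hPd : DifferentiableAt ℂ (fun z : ℂ => ∏ i, (z - ρ i)) s := by fun_prop
  refine ⟨mul_ne_zero hPn h2, hPd.mul h1, ?_, ?_⟩
  · rw [norm_prod]
    exact Finset.one_le_prod fun i _ => hsρ i
  have e1 : logDeriv (Qs μ ρ A) s = (∑ i, 1 / (s - ρ i)) + (((Real.log A / 2 : ℝ) : ℂ) +
      ∑ j, logDeriv Gammaℝ (s + μ j)) := by
    have e2 : Qs μ ρ A = fun z => (∏ i, (z - ρ i)) * Hf μ A z := rfl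
    rw [e2, logDeriv_mul (f := fun z : ℂ => ∏ i, (z - ρ i)) (g := Hf μ A) s hPn h2 hPd h1, h3]
    congr 1
    rw [logDeriv_prod (f := fun i (z : ℂ) => z - ρ i) (fun i _ => hsρ0 i) fun i _ => by fun_prop]
    refine Finset.sum_congr rfl fun i _ => ?_
    rw [logDeriv_apply]
    congr 1
    simp
  have e3 : logDeriv (Qs μ ρ A) s - ((m / 2 * Real.log s.im : ℝ) : ℂ) =
      (∑ i, 1 / (s - ρ i)) + ((Real.log A / 2 : ℝ) : ℂ) +
      ∑ j, (logDeriv Gammaℝ (s + μ j) - ((Real.log |(s + μ j).im| / 2 : ℝ) : ℂ)) := by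
    rw [e1, Finset.sum_sub_distrib]
    have e4 : ∀ j, (((Real.log |(s + μ j).im| / 2 : ℝ)) : ℂ) = ((Real.log s.im / 2 : ℝ) : ℂ) := by
      intro j
      have : (s + μ j).im = s.im := by simp
      rw [this, abs_of_pos hims]
    simp only [e4, Finset.sum_const, Finset.card_univ, Fintype.card_fin, nsmul_eq_mul]
    push_cast
    ring
  rw [e3]
  refine (norm_add_le _ _).trans (add_le_add ((norm_add_le _ _).trans (add_le_add ?_ ?_)) ?_)
  · refine (norm_sum_le _ _).trans ?_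
    calc ∑ i, ‖1 / (s - ρ i)‖ ≤ ∑ _i : Fin k, (1 : ℝ) := Finset.sum_le_sum fun i _ => by
          rw [norm_div, norm_one, div_le_one (by linarith [hsρ i])]
          exact hsρ i
      _ = k := by simp
  · rw [Complex.norm_real, Real.norm_eq_abs]
  · refine (norm_sum_le _ _).trans ?_
    calc ∑ j, ‖logDeriv Gammaℝ (s + μ j) - ((Real.log |(s + μ j).im| / 2 : ℝ) : ℂ)‖ ≤
        ∑ _j : Fin m, C := Finset.sum_le_sum fun j _ => by
          refine hld _ ?_ ?_
          · have : (s + μ j).im = s.im := by simp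
            rw [this, abs_of_pos hims]
            linarith
          · have a1 : (s + μ j).im = s.im := by simp
            have a2 : (s + μ j).re = s.re + μ j := by simp
            rw [a1, a2, abs_of_pos hims]
            have a3 := abs_add_le s.re (μ j)
            have a4 := hμj j
            linarith
      _ = m * C := by simp

/-- the comparison function in the variable `w` -/
noncomputable def Gw {m k : ℕ} (μ : Fin m → ℝ) (ρ : Fin k → ℂ) (A c β : ℝ) (δ : ℕ) (w : ℂ) : ℂ :=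
  Qs μ ρ A (c + 2 * β * w) * w ^ (-(δ : ℤ))

theorem LF.hi (h : LF μ ρ A c β D F ε) {f : ℂ → ℂ} {δ : ℕ}
    (hf : ∀ w, w ^ δ * f w = F (c + 2 * β * w)) : ∃ (C1 T0 R0 A1 : ℝ) (B : ℕ),
    Hi f (Gw μ ρ A c β δ) (2 * β * m) C1 T0 R0 A1 B := by
  have hβ := h.β1
  have hβ0 : 0 < β := by linarith
  have hA := h.A0
  have hm : (1 : ℝ) ≤ m := by exact_mod_cast h.m1
  obtain ⟨C, T, hC, hT, hQ⟩ := Qs_ld (μ := μ) (ρ := ρ) hA
  obtain ⟨KD, hKD⟩ := h.Db
  obtain ⟨R, hR⟩ := h.D1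
  obtain ⟨KE, NE, hKE, hE⟩ := h.E_poly
  have hc0 := abs_nonneg c
  have hsre : ∀ w : ℂ, (c + 2 * β * w : ℂ).re = c + 2 * β * w.re := by intro w; simp
  have hsim : ∀ w : ℂ, (c + 2 * β * w : ℂ).im = 2 * β * w.im := by intro w; simp
  set T0 : ℝ := T + 4 * |c| with hT0
  have hTw : ∀ w : ℂ, T0 ≤ w.im → T ≤ (c + 2 * β * w : ℂ).im ∧ w.im ≤ (c + 2 * β * w : ℂ).im := by
    intro w hw
    rw [hsim]
    constructor <;> nlinarith
  have hreg : ∀ w : ℂ, T0 ≤ w.im → |w.re| ≤ w.im / 2 →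
      |(c + 2 * β * w : ℂ).re| ≤ 3 / 4 * (c + 2 * β * w : ℂ).im := by
    intro w h1 h2
    rw [hsre, hsim]
    have a1 := abs_add_le c (2 * β * w.re)
    rw [abs_mul (2 * β), abs_of_pos (by linarith : 0 < 2 * β)] at a1
    have a2 : 2 * β * |w.re| ≤ 2 * β * (w.im / 2) := by gcongr
    have a3 : 4 * |c| ≤ 2 * β * w.im := by nlinarith
    linarith
  refine ⟨2 * β * C + β * m * |Real.log (2 * β)| + δ + 1, T0, |R| + |c| + β + 2,
    |KD| + KE * (1 + |c| + 3 * β) ^ NE + 1, NE, ?_⟩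
  refine ⟨?_, ?_, by linarith, ?_, ?_, ?_, ?_, ?_⟩
  · nlinarith
  · have : 0 ≤ 2 * β * C + β * m * |Real.log (2 * β)| + δ := by positivity
    linarith
  · have := abs_nonneg R
    linarith
  · have : 0 ≤ |KD| + KE * (1 + |c| + 3 * β) ^ NE := by positivity
    linarith
  · -- logarithmic derivative
    intro w h1 h2
    obtain ⟨b1, b2⟩ := hTw w h1
    obtain ⟨q1, q2, q3, q4⟩ := hQ _ b1 (hreg w h1 h2)
    have hw0 : w ≠ 0 := by
      intro h0
      rw [h0, zero_im] at h1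
      linarith
    have hwn : 1 ≤ ‖w‖ := by
      refine le_trans ?_ ((le_abs_self _).trans (abs_im_le_norm w))
      linarith
    have hz0 : w ^ (-(δ : ℤ)) ≠ 0 := zpow_ne_zero _ hw0
    have hlin : HasDerivAt (fun w : ℂ => (c + 2 * β * w : ℂ)) (2 * β) w := by
      simpa using ((hasDerivAt_id w).const_mul (2 * β : ℂ)).const_add (c : ℂ)
    have hd1 : DifferentiableAt ℂ (fun w : ℂ => Qs μ ρ A (c + 2 * β * w)) w :=
      DifferentiableAt.comp (g := Qs μ ρ A) (f := fun w : ℂ => (c + 2 * β * w : ℂ)) w q2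
        hlin.differentiableAt
    have hd2 : DifferentiableAt ℂ (fun w : ℂ => w ^ (-(δ : ℤ))) w :=
      differentiableAt_zpow.2 (Or.inl hw0)
    refine ⟨mul_ne_zero q1 hz0, hd1.mul hd2, ?_⟩
    have e1 : logDeriv (Gw μ ρ A c β δ) w =
        logDeriv (Qs μ ρ A) (c + 2 * β * w) * (2 * β) + ((-(δ : ℤ) : ℤ) : ℂ) / w := by
      have e2 : Gw μ ρ A c β δ = fun w => Qs μ ρ A (c + 2 * β * w) * w ^ (-(δ : ℤ)) := rfl
      rw [e2, logDeriv_mul (f := fun w : ℂ => Qs μ ρ A (c + 2 * β * w))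
        (g := fun w : ℂ => w ^ (-(δ : ℤ))) w q1 hz0 hd1 hd2, logDeriv_zpow]
      congr 1
      have e3 := logDeriv_comp (f := Qs μ ρ A) (g := fun w : ℂ => (c + 2 * β * w : ℂ)) (x := w)
        q2 hlin.differentiableAt
      rw [hlin.deriv] at e3
      exact e3
    have hims : 0 < w.im := by linarith
    have e4 : logDeriv (Gw μ ρ A c β δ) w - ((2 * β * m / 2 * Real.log w.im : ℝ) : ℂ) =
        (2 * β : ℂ) * (logDeriv (Qs μ ρ A) (c + 2 * β * w) -
          ((m / 2 * Real.log (c + 2 * β * w : ℂ).im : ℝ) : ℂ)) +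
        ((β * m * Real.log (2 * β) : ℝ) : ℂ) + ((-(δ : ℤ) : ℤ) : ℂ) / w := by
      rw [e1, hsim, Real.log_mul (by positivity) hims.ne']
      push_cast
      ring
    rw [e4]
    have n1 : ‖(2 * β : ℂ)‖ = 2 * β := by
      rw [norm_mul, Complex.norm_real, Real.norm_of_nonneg hβ0.le, Complex.norm_ofNat]
    have n2 : ‖((-(δ : ℤ) : ℤ) : ℂ) / w‖ ≤ δ := by
      rw [norm_div]
      have : ‖((-(δ : ℤ) : ℤ) : ℂ)‖ = δ := by
        push_cast
        rw [norm_neg, Complex.norm_natCast]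
      rw [this]
      exact div_le_self (Nat.cast_nonneg δ) hwn
    have n3 : ‖((β * m * Real.log (2 * β) : ℝ) : ℂ)‖ = β * m * |Real.log (2 * β)| := by
      rw [Complex.norm_real, Real.norm_eq_abs, abs_mul, abs_of_nonneg (by positivity)]
    refine (norm_add_le _ _).trans ?_
    refine (add_le_add (norm_add_le _ _) n2).trans ?_
    rw [norm_mul, n1, n3]
    have : 2 * β * ‖logDeriv (Qs μ ρ A) (c + 2 * β * w) -
          ((m / 2 * Real.log (c + 2 * β * w : ℂ).im : ℝ) : ℂ)‖ ≤ 2 * β * C := by gcongr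
    linarith
  · -- far to the right
    intro w h1 h2 h3
    have hR0 := abs_nonneg R
    have hR1 := le_abs_self R
    have hc1 := neg_abs_le c
    have hw0 : w ≠ 0 := by
      intro h0
      rw [h0, zero_im] at h1
      linarith
    have hwre : 0 ≤ w.re := by linarith
    have hbw : w.re ≤ 2 * β * w.re := by nlinarith
    have hs1 : c + β < (c + 2 * β * w : ℂ).re := by
      rw [hsre]
      have := le_abs_self c
      have : 0 ≤ |c| := hc0
      nlinarith
    have hs2 : R ≤ (c + 2 * β * w : ℂ).re := by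
      rw [hsre]
      linarith
    have e1 : f w = Gw μ ρ A c β δ w * D (c + 2 * β * w) := by
      have e2 := hf w
      rw [h.eq _ hs1] at e2
      have hwd : w ^ δ ≠ 0 := pow_ne_zero _ hw0
      rw [Gw, Qs, zpow_neg, zpow_natCast]
      field_simp
      linear_combination e2
    rw [e1]
    have e3 : Gw μ ρ A c β δ w * D (c + 2 * β * w) - Gw μ ρ A c β δ w =
        Gw μ ρ A c β δ w * (D (c + 2 * β * w) - 1) := by ring
    rw [e3, norm_mul, mul_comm]
    exact mul_le_mul_of_nonneg_right (hR _ hs2) (norm_nonneg _)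
  · -- everywhere to the right
    intro w h1 h2 h3
    have hw0 : w ≠ 0 := by
      intro h0
      rw [h0, zero_im] at h1
      linarith
    have hwim : 1 ≤ w.im := by linarith
    have hwd : w ^ δ ≠ 0 := pow_ne_zero _ hw0
    have hsc : c ≤ (c + 2 * β * w : ℂ).re := by
      rw [hsre]
      have : 0 ≤ 2 * β * w.re := by positivity
      linarith
    have hfw : f w = F (c + 2 * β * w) * w ^ (-(δ : ℤ)) := by
      rw [← hf w, zpow_neg, zpow_natCast]
      field_simp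
    have hB : 1 ≤ w.im ^ NE := one_le_pow₀ hwim
    rcases le_total (c + β + 1) (c + 2 * β * w : ℂ).re with h4 | h4
    · have e1 : f w = Gw μ ρ A c β δ w * D (c + 2 * β * w) := by
        rw [hfw, h.eq _ (by linarith), Gw, Qs]
        ring
      rw [e1, norm_mul, mul_comm]
      refine mul_le_mul_of_nonneg_right ?_ (norm_nonneg _)
      calc ‖D (c + 2 * β * w)‖ ≤ |KD| := (hKD _ h4).trans (le_abs_self _)
        _ ≤ |KD| + KE * (1 + |c| + 3 * β) ^ NE + 1 := by
            have : 0 ≤ KE * (1 + |c| + 3 * β) ^ NE := by positivity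
            linarith
        _ = (|KD| + KE * (1 + |c| + 3 * β) ^ NE + 1) * 1 := (mul_one _).symm
        _ ≤ _ := by gcongr
    · have h5 := hE (c + 2 * β * w) ⟨by linarith, h4⟩
      have h6 := Hi'_mul (μ := μ) hA (s := c + 2 * β * w) fun j => h.gam_ne hsc j
      obtain ⟨b1, b2⟩ := hTw w h1
      obtain ⟨q1, q2, q3, q4⟩ := hQ _ b1 (hreg w h1 (by rw [abs_of_nonneg h2]; exact h3))
      have e1 : f w = (F (c + 2 * β * w) * Hi' μ A (c + 2 * β * w)) *
          (Hf μ A (c + 2 * β * w) * w ^ (-(δ : ℤ))) := by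
        rw [hfw]
        linear_combination (-F (c + 2 * β * w) * w ^ (-(δ : ℤ))) * h6
      have e2 : ‖Hf μ A (c + 2 * β * w) * w ^ (-(δ : ℤ))‖ ≤ ‖Gw μ ρ A c β δ w‖ := by
        have e3 : Gw μ ρ A c β δ w = (∏ i, ((c + 2 * β * w : ℂ) - ρ i)) *
            (Hf μ A (c + 2 * β * w) * w ^ (-(δ : ℤ))) := by
          rw [Gw, Qs]; ring
        rw [e3, norm_mul (∏ i, ((c + 2 * β * w : ℂ) - ρ i))]
        have e5 := mul_le_mul_of_nonneg_right q3 (norm_nonneg (Hf μ A (c + 2 * β * w) * w ^ (-(δ : ℤ))))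
        rw [one_mul] at e5
        exact e5
      have e4 : 1 + ‖(c + 2 * β * w : ℂ)‖ ≤ (1 + |c| + 3 * β) * w.im := by
        have a1 : ‖(c + 2 * β * w : ℂ)‖ ≤ |c| + 2 * β * ‖w‖ := by
          refine (norm_add_le _ _).trans ?_
          rw [norm_mul, norm_mul, Complex.norm_real, Complex.norm_real, Complex.norm_ofNat,
            Real.norm_eq_abs, Real.norm_of_nonneg hβ0.le]
        have a2 := norm_le_abs_re_add_abs_im w
        rw [abs_of_nonneg h2, abs_of_nonneg (by linarith : 0 ≤ w.im)] at a2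
        have a3 : 2 * β * ‖w‖ ≤ 2 * β * (3 / 2 * w.im) := by
          have : ‖w‖ ≤ 3 / 2 * w.im := by linarith
          gcongr
        nlinarith
      rw [e1, norm_mul]
      calc ‖F (c + 2 * β * w) * Hi' μ A (c + 2 * β * w)‖ *
            ‖Hf μ A (c + 2 * β * w) * w ^ (-(δ : ℤ))‖ ≤
          (KE * (1 + ‖(c + 2 * β * w : ℂ)‖) ^ NE) * ‖Gw μ ρ A c β δ w‖ :=
            mul_le_mul h5 e2 (norm_nonneg _) (by positivity)
        _ ≤ (KE * ((1 + |c| + 3 * β) * w.im) ^ NE) * ‖Gw μ ρ A c β δ w‖ := by gcongr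
        _ = (KE * (1 + |c| + 3 * β) ^ NE * w.im ^ NE) * ‖Gw μ ρ A c β δ w‖ := by
            rw [mul_pow]; ring
        _ ≤ _ := by
            refine mul_le_mul_of_nonneg_right ?_ (norm_nonneg _)
            refine mul_le_mul_of_nonneg_right ?_ (by positivity)
            have := abs_nonneg KD
            linarith

end Pool.Agent.Helper40.HW

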