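import Pool.Agent.Helper40.HW.Ab
import Pool.Graph.R_seed8.H382R2.Gam

set_option autoImplicit false
set_option maxHeartbeats 1000000

/-!
# Estimates for the Gamma factors, and the Phragmén–Lindelöf principle
-/

open Complex Filter Topology Metric Asymptotics

namespace Pool.Agent.Helper40.HW

open Pool.Agent.Helper75.Jen (ratio_exp)

/-- logarithmic derivative of `Γ_ℝ` -/
lemma ldR : ∃ C : ℝ, 1 ≤ C ∧ ∀ s : ℂ, 2 ≤ |s.im| → |s.re| ≤ |s.im| →
    ‖logDeriv Gammaℝ s - ((Real.log |s.im| / 2 : ℝ) : ℂ)‖ ≤ C := by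
  obtain ⟨C, hC, h⟩ := SG.GamAux.ld_bound
  refine ⟨C, hC, fun s h1 h2 => ?_⟩
  have hs : s.im ≠ 0 := by
    intro h0
    rw [h0] at h1
    norm_num at h1
  have h3 := h s h1 h2
  have h4 := SG.GamAux.GR_deriv hs
  rw [logDeriv_apply, h4.deriv]
  have h5 := SG.GamAux.GR_ne hs
  rw [mul_div_cancel_left₀ _ h5]
  exact h3

/-- ratio of two values at the same height -/
lemma GR_ratio (X : ℝ) (hX : 0 ≤ X) : ∃ (K T : ℝ) (N : ℕ), 1 ≤ K ∧ 2 ≤ T ∧ ∀ x y t : ℝ, |x| ≤ X →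
    |y| ≤ X → T ≤ |t| → ‖Gammaℝ (y + t * I)‖ ≤ K * (1 + |t|) ^ N * ‖Gammaℝ (x + t * I)‖ := by
  obtain ⟨C, hC, h⟩ := ldR
  set r := 2 * X + 1 with hr
  have hr1 : 1 ≤ r := by rw [hr]; linarith
  refine ⟨Real.exp ((C + 1) * (2 * X)), X + 2 * r + 3, ⌈2 * X⌉₊, Real.one_le_exp (by positivity),
    by linarith, ?_⟩
  intro x y t hx hy ht
  have hx' := abs_le.1 hx
  have hy' := abs_le.1 hy
  set c : ℂ := x + t * I with hc
  have hcre : c.re = x := by simp [hc]
  have hcim : c.im = t := by simp [hc]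
  have hreg : ∀ z ∈ ball c r, 2 ≤ |z.im| ∧ |z.re| ≤ |z.im| ∧ |z.im| ≤ 2 * |t| := by
    intro z hz
    rw [mem_ball, dist_eq_norm] at hz
    have a1 := (abs_re_le_norm (z - c)).trans hz.le
    have a2 := (abs_im_le_norm (z - c)).trans hz.le
    rw [sub_re, hcre] at a1
    rw [sub_im, hcim] at a2
    have a3 : |t| ≤ |z.im| + r := by
      have : |t| ≤ |z.im| + |z.im - t| := by
        have := abs_sub_abs_le_abs_sub t z.im
        rw [abs_sub_comm] at this
        linarith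
      linarith
    have a4 : |z.im| ≤ |t| + r := by
      have := abs_sub_abs_le_abs_sub z.im t
      linarith
    have a5 : |z.re| ≤ X + r := by
      have := abs_sub_abs_le_abs_sub z.re x
      linarith
    exact ⟨by linarith, by linarith, by linarith⟩
  have him : ∀ z ∈ ball c r, z.im ≠ 0 := by
    intro z hz h0
    have := (hreg z hz).1
    rw [h0] at this
    norm_num at this
  have ht1 : 1 ≤ |t| := by linarith
  have ht0 : 0 < |t| := by linarith
  have hlog : 0 ≤ Real.log |t| := Real.log_nonneg ht1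
  obtain ⟨hh, hh1, hh2⟩ := ratio_exp (g := Gammaℝ) (c := c) (r := r) (ε := Real.log |t| + (C + 1))
    (fun z hz => (SG.GamAux.GR_analytic (him z hz)).differentiableAt.differentiableWithinAt)
    (fun z hz => SG.GamAux.GR_ne (him z hz))
    (fun z hz => by
      obtain ⟨b1, b2, b3⟩ := hreg z hz
      have b4 := h z b1 b2
      have e : logDeriv Gammaℝ z = ((Real.log |z.im| / 2 : ℝ) : ℂ) +
        (logDeriv Gammaℝ z - ((Real.log |z.im| / 2 : ℝ) : ℂ)) := by ring
      rw [e]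
      refine (norm_add_le _ _).trans ?_
      have b5 : 0 ≤ Real.log |z.im| := Real.log_nonneg (by linarith)
      rw [Complex.norm_real, Real.norm_of_nonneg (by positivity)]
      have b6 : Real.log |z.im| ≤ Real.log 2 + Real.log |t| := by
        rw [← Real.log_mul (by norm_num) ht0.ne']
        exact Real.log_le_log (by linarith) b3
      have b7 := Real.log_two_lt_d9
      linarith)
    (z := c) (w := y + t * I) (mem_ball_self (by linarith))
    (by
      rw [mem_ball, dist_eq_norm]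
      have : (y : ℂ) + t * I - c = ((y - x : ℝ) : ℂ) := by rw [hc]; push_cast; ring
      rw [this, Complex.norm_real, Real.norm_eq_abs]
      have : |y - x| ≤ 2 * X := by rw [abs_le]; constructor <;> linarith
      linarith)
  have hd : ‖(y : ℂ) + t * I - c‖ ≤ 2 * X := by
    have : (y : ℂ) + t * I - c = ((y - x : ℝ) : ℂ) := by rw [hc]; push_cast; ring
    rw [this, Complex.norm_real, Real.norm_eq_abs, abs_le]
    constructor <;> linarith
  rw [hh1, norm_mul, mul_comm]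
  refine mul_le_mul_of_nonneg_right ?_ (norm_nonneg _)
  rw [Complex.norm_exp]
  calc Real.exp hh.re ≤ Real.exp ((Real.log |t| + (C + 1)) * (2 * X)) := by
        refine Real.exp_le_exp.2 ((Complex.re_le_norm hh).trans (hh2.trans ?_))
        gcongr
    _ = Real.exp ((C + 1) * (2 * X)) * |t| ^ (2 * X) := by
        rw [Real.rpow_def_of_pos ht0, ← Real.exp_add]
        congr 1
        ring
    _ ≤ Real.exp ((C + 1) * (2 * X)) * (1 + |t|) ^ ⌈2 * X⌉₊ := by
        refine mul_le_mul_of_nonneg_left ?_ (Real.exp_pos _).le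
        rw [← Real.rpow_natCast]
        calc |t| ^ (2 * X) ≤ (1 + |t|) ^ (2 * X) :=
              Real.rpow_le_rpow ht0.le (by linarith) (by positivity)
          _ ≤ _ := Real.rpow_le_rpow_of_exponent_le (by linarith) (Nat.le_ceil _)

/-- `|Γ_ℝ(1 + it)|^(-1)` -/
lemma GR_one_inv (t : ℝ) : ‖(Gammaℝ (1 + t * I))⁻¹‖ ≤ Real.exp |t| := by
  have h1 := Gammaℝ_one_sub_mul_Gammaℝ_one_add (t * I)
  have h2 : (1 : ℂ) - t * I = (starRingEnd ℂ) (1 + t * I) := by
    rw [map_add, map_mul, map_one, Complex.conj_ofReal, Complex.conj_I]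
    ring
  rw [h2, Pool.Agent.Helper75.Jen.GammaR_conj] at h1
  have h3 := congrArg (fun x => ‖x‖) h1
  simp only [norm_mul, Complex.norm_conj, norm_inv] at h3
  have h4 : ‖Complex.cos (Real.pi * (t * I) / 2)‖ ≤ Real.exp (2 * |t|) := by
    have e : Complex.cos (Real.pi * (t * I) / 2) = ((Real.cosh (Real.pi * t / 2) : ℝ) : ℂ) := by
      rw [show (Real.pi * (t * I) / 2 : ℂ) = ((Real.pi * t / 2 : ℝ) : ℂ) * I by push_cast; ring,
        Complex.cos_mul_I, Complex.ofReal_cosh]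
    rw [e, Complex.norm_real, Real.norm_of_nonneg (Real.cosh_pos _).le]
    rw [← Real.cosh_abs]
    have h5 : |Real.pi * t / 2| ≤ 2 * |t| := by
      rw [abs_div, abs_mul, abs_of_pos Real.pi_pos, abs_two]
      have := Real.pi_lt_d2
      have := abs_nonneg t
      nlinarith
    rw [Real.cosh_eq]
    have h6 : Real.exp (-|Real.pi * t / 2|) ≤ Real.exp |Real.pi * t / 2| :=
      Real.exp_le_exp.2 (by have := abs_nonneg (Real.pi * t / 2); linarith)
    have h7 := Real.exp_le_exp.2 h5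
    linarith
  have hG0 : Gammaℝ (1 + t * I) ≠ 0 := Gammaℝ_ne_zero_of_re_pos (by simp)
  have hn : 0 < ‖Gammaℝ (1 + t * I)‖ := norm_pos_iff.2 hG0
  have h8 : ‖(Gammaℝ (1 + t * I))⁻¹‖ ^ 2 ≤ (Real.exp |t|) ^ 2 := by
    have e1 : (Real.exp |t|) ^ 2 = Real.exp (2 * |t|) := by
      rw [← Real.exp_nat_mul]; norm_num
    have e2 : ‖(Gammaℝ (1 + t * I))⁻¹‖ ^ 2 = ‖Complex.cos (Real.pi * (t * I) / 2)‖ := by
      rw [norm_inv, inv_pow, sq, h3, inv_inv]
    rw [e1, e2]
    exact h4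
  exact le_of_sq_le_sq h8 (Real.exp_pos _).le

/-- growth of `1/Γ_ℝ` in vertical strips -/
lemma GR_inv_growth (X : ℝ) (hX : 1 ≤ X) : ∃ (K T : ℝ) (N : ℕ), 1 ≤ K ∧ 2 ≤ T ∧ ∀ s : ℂ,
    |s.re| ≤ X → T ≤ |s.im| → ‖(Gammaℝ s)⁻¹‖ ≤ K * (1 + |s.im|) ^ N * Real.exp |s.im| := by
  obtain ⟨K, T, N, hK, hT, h⟩ := GR_ratio X (by linarith)
  refine ⟨K, T, N, hK, hT, fun s hs ht => ?_⟩
  have h1 := h s.re 1 s.im hs (by rw [abs_one]; exact hX) ht
  have e : ((s.re : ℝ) : ℂ) + s.im * I = s := Complex.re_add_im s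
  rw [e, ofReal_one] at h1
  have h2 := GR_one_inv s.im
  have hs0 : s.im ≠ 0 := by
    intro h0
    rw [h0, abs_zero] at ht
    linarith
  have hG := norm_pos_iff.2 (SG.GamAux.GR_ne hs0)
  have hG1 : 0 < ‖Gammaℝ (1 + s.im * I)‖ :=
    norm_pos_iff.2 (Gammaℝ_ne_zero_of_re_pos (by simp))
  rw [norm_inv] at h2 ⊢
  have h3 : 1 ≤ K * (1 + |s.im|) ^ N * ‖Gammaℝ s‖ * Real.exp |s.im| := by
    calc (1 : ℝ) = ‖Gammaℝ (1 + s.im * I)‖ * ‖Gammaℝ (1 + s.im * I)‖⁻¹ := by
          rw [mul_inv_cancel₀ hG1.ne']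
      _ ≤ (K * (1 + |s.im|) ^ N * ‖Gammaℝ s‖) * Real.exp |s.im| := by gcongr
  calc ‖Gammaℝ s‖⁻¹ = 1 * ‖Gammaℝ s‖⁻¹ := (one_mul _).symm
    _ ≤ (K * (1 + |s.im|) ^ N * ‖Gammaℝ s‖ * Real.exp |s.im|) * ‖Gammaℝ s‖⁻¹ := by gcongr
    _ = K * (1 + |s.im|) ^ N * Real.exp |s.im| := by field_simp

/-- the quotient on two vertical lines -/
lemma GR_lines (x y : ℝ) (hy : 0 < y) : ∃ (K : ℝ) (N : ℕ), 0 ≤ K ∧ ∀ t : ℝ,
    ‖Gammaℝ (y + t * I)‖ * ‖(Gammaℝ (x + t * I))⁻¹‖ ≤ K * (1 + |t|) ^ N := by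
  obtain ⟨K, T, N, hK, hT, h⟩ := GR_ratio (max |x| |y|) (le_max_of_le_left (abs_nonneg _))
  have hcont : Continuous fun t : ℝ => ‖Gammaℝ (y + t * I)‖ * ‖(Gammaℝ (x + t * I))⁻¹‖ := by
    refine Continuous.mul ?_ ?_
    · refine Continuous.norm ?_
      rw [continuous_iff_continuousAt]
      intro t
      have h0 : (Gammaℝ (y + t * I))⁻¹ ≠ 0 :=
        inv_ne_zero (Gammaℝ_ne_zero_of_re_pos (by simpa using hy))
      have h1 : ContinuousAt (fun t : ℝ => ((Gammaℝ (y + t * I))⁻¹)⁻¹) t := by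
        refine ContinuousAt.inv₀ ?_ h0
        exact (differentiable_Gammaℝ_inv.continuous.comp (by fun_prop :
          Continuous fun t : ℝ => (y : ℂ) + t * I)).continuousAt
      simpa using h1
    · exact (differentiable_Gammaℝ_inv.continuous.comp (by fun_prop :
          Continuous fun t : ℝ => (x : ℂ) + t * I)).norm
  obtain ⟨M, hM⟩ := (isCompact_Icc (a := -T) (b := T)).exists_bound_of_continuousOn
    hcont.continuousOn
  refine ⟨K + |M|, N, by positivity, fun t => ?_⟩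
  have h1 : 1 ≤ (1 + |t|) ^ N := one_le_pow₀ (by have := abs_nonneg t; linarith)
  rcases le_total T |t| with ht | ht
  · have h2 := h x y t (le_max_left _ _) (le_max_right _ _) ht
    have ht0 : t ≠ 0 := by
      intro h0
      rw [h0, abs_zero] at ht
      linarith
    have hG : 0 < ‖Gammaℝ (x + t * I)‖ := norm_pos_iff.2 (SG.GamAux.GR_ne (by simpa using ht0))
    rw [norm_inv]
    calc ‖Gammaℝ (y + t * I)‖ * ‖Gammaℝ (x + t * I)‖⁻¹ ≤
        (K * (1 + |t|) ^ N * ‖Gammaℝ (x + t * I)‖) * ‖Gammaℝ (x + t * I)‖⁻¹ := by gcongr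
      _ = K * (1 + |t|) ^ N := by field_simp
      _ ≤ _ := by
          refine mul_le_mul_of_nonneg_right ?_ (by positivity)
          have := abs_nonneg M
          linarith
  · have h2 := hM t (Set.mem_Icc.2 (abs_le.1 ht))
    rw [Real.norm_of_nonneg (by positivity)] at h2
    calc ‖Gammaℝ (y + t * I)‖ * ‖(Gammaℝ (x + t * I))⁻¹‖ ≤ M := h2
      _ ≤ |M| * 1 := by rw [mul_one]; exact le_abs_self M
      _ ≤ (K + |M|) * (1 + |t|) ^ N := by
          refine mul_le_mul ?_ h1 zero_le_one (by positivity)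
          linarith

lemma poly_exp (a : ℕ) (B c : ℝ) (hB : 0 ≤ B) (hc : 0 < c) : ∃ B' : ℝ, ∀ t : ℝ, 0 ≤ t →
    B * (1 + t) ^ a ≤ B' * Real.exp (c * t) := by
  refine ⟨B * (a.factorial / c ^ a * Real.exp c), fun t ht => ?_⟩
  have h1 := Real.pow_div_factorial_le_exp (c * (1 + t)) (by positivity) a
  have hf : (0 : ℝ) < a.factorial := by exact_mod_cast a.factorial_pos
  rw [div_le_iff₀ hf, mul_pow] at h1
  have h2 : (1 + t) ^ a ≤ a.factorial / c ^ a * Real.exp (c * (1 + t)) := by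
    rw [div_mul_eq_mul_div, le_div_iff₀ (by positivity)]
    linarith
  have h3 : Real.exp (c * (1 + t)) = Real.exp c * Real.exp (c * t) := by
    rw [← Real.exp_add]; congr 1; ring
  rw [h3] at h2
  calc B * (1 + t) ^ a ≤ B * (a.factorial / c ^ a * (Real.exp c * Real.exp (c * t))) := by gcongr
    _ = _ := by ring

/-- **Phragmén–Lindelöf with polynomial bounds.** -/
lemma PLpoly {E : ℂ → ℂ} (hE : Differentiable ℂ E) {x1 x2 : ℝ} (h12 : x1 < x2)
    {a : ℕ} {B T : ℝ} (hB : 0 ≤ B)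
    (hgr : ∀ s : ℂ, x1 ≤ s.re → s.re ≤ x2 → T ≤ |s.im| → ‖E s‖ ≤ Real.exp (B * (1 + |s.im|) ^ a))
    {K M : ℝ} {N : ℕ} (hM : 1 ≤ x1 + M)
    (hl : ∀ s : ℂ, s.re = x1 → ‖E s‖ ≤ K * ‖s + M‖ ^ N)
    (hr : ∀ s : ℂ, s.re = x2 → ‖E s‖ ≤ K * ‖s + M‖ ^ N) (s : ℂ) (h1 : x1 ≤ s.re)
    (h2 : s.re ≤ x2) : ‖E s‖ ≤ K * ‖s + M‖ ^ N := by
  have hnorm : ∀ s : ℂ, x1 ≤ s.re → 1 ≤ ‖s + M‖ := by
    intro s hs
    refine le_trans ?_ (Complex.re_le_norm _)
    rw [add_re, ofReal_re]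
    linarith
  have hne : ∀ s : ℂ, x1 ≤ s.re → (s + M) ^ N ≠ 0 := by
    intro s hs
    refine pow_ne_zero _ ?_
    rw [← norm_pos_iff]
    linarith [hnorm s hs]
  set g : ℂ → ℂ := fun s => E s / (s + M) ^ N with hg
  have hgn : ∀ s, ‖g s‖ = ‖E s‖ / ‖s + M‖ ^ N := by
    intro s; rw [hg]; simp only; rw [norm_div, norm_pow]
  have hcl : closure (re ⁻¹' Set.Ioo x1 x2) = re ⁻¹' Set.Icc x1 x2 := by
    rw [Complex.closure_preimage_re, closure_Ioo h12.ne]
  have hdc : DiffContOnCl ℂ g (re ⁻¹' Set.Ioo x1 x2) := by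
    apply DifferentiableOn.diffContOnCl
    rw [hcl]
    intro z hz
    have : x1 ≤ z.re := hz.1
    refine DifferentiableAt.differentiableWithinAt ?_
    exact (hE z).div (by fun_prop) (hne z this)
  have key : ‖g s‖ ≤ K := by
    refine PhragmenLindelof.vertical_strip hdc ?_ ?_ ?_ h1 h2
    · have hc : 0 < Real.pi / (x2 - x1) := div_pos Real.pi_pos (by linarith)
      obtain ⟨B', hB'⟩ := poly_exp a B (Real.pi / (x2 - x1) / 2) hB (by linarith)
      refine ⟨Real.pi / (x2 - x1) / 2, by linarith, B', ?_⟩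
      refine IsBigO.of_bound 1 ?_
      have hf : {z : ℂ | T ≤ |z.im|} ∈ comap (abs ∘ im) atTop := by
        refine ⟨Set.Ici T, Ici_mem_atTop T, ?_⟩
        intro z hz
        exact hz
      have hf2 : (re ⁻¹' Set.Ioo x1 x2) ∈ 𝓟 (re ⁻¹' Set.Ioo x1 x2) := mem_principal_self _
      filter_upwards [Filter.inter_mem_inf hf hf2] with z hz
      obtain ⟨hz1, hz2⟩ := hz
      have hz3 : x1 < z.re ∧ z.re < x2 := hz2
      rw [one_mul, Real.norm_of_nonneg (Real.exp_pos _).le, hgn]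
      have h4 := hnorm z hz3.1.le
      refine (div_le_self (norm_nonneg _) (one_le_pow₀ h4)).trans ?_
      refine (hgr z hz3.1.le hz3.2.le hz1).trans (Real.exp_le_exp.2 ?_)
      exact hB' _ (abs_nonneg _)
    · intro z hz
      rw [hgn]
      have h4 := hnorm z hz.ge
      rw [div_le_iff₀ (by positivity)]
      exact hl z hz
    · intro z hz
      rw [hgn]
      have h4 := hnorm z (by linarith)
      rw [div_le_iff₀ (by positivity)]
      exact hr z hz
  rw [hgn, div_le_iff₀ (by have := hnorm s h1; positivity)] at key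
  exact key

end Pool.Agent.Helper40.HW
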