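import Pool.Agent.Helper40.HW.Fin

set_option autoImplicit false
set_option maxHeartbeats 1000000

/-!
# The Jensen polynomials of completed L-functions: the theorem
-/

open Complex Filter Topology Metric Asymptotics

namespace Pool.Agent.Helper40.HW

variable {m k : ℕ} {μ : Fin m → ℝ} {ρ : Fin k → ℂ} {A c β : ℝ} {D F : ℂ → ℂ} {ε : ℂ}

/-- `γ(n)`, where `F(c + z) = ∑ γ(n) / n! z^(2n+δ)` -/
noncomputable def gamF (F : ℂ → ℂ) (c : ℂ) (δ n : ℕ) : ℂ :=
  (n.factorial : ℂ) / ((2 * n + δ).factorial : ℂ) * iteratedDeriv (2 * n + δ) F c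

lemma iter_lin (hF : Differentiable ℂ F) (a b : ℂ) (n : ℕ) :
    iteratedDeriv n (fun w => F (a + b * w)) 0 = b ^ n * iteratedDeriv n F a := by
  have h1 : ContDiff ℂ n (fun z => F (a + z)) := by
    have : Differentiable ℂ (fun z => F (a + z)) := hF.comp (by fun_prop)
    exact this.contDiff
  have h2 := congrFun (iteratedDeriv_comp_const_mul h1 b) 0
  simp only [mul_zero] at h2
  rw [h2, iteratedDeriv_comp_const_add]
  simp only [add_zero]

lemma iter_mul {f : ℂ → ℂ} (hf : Differentiable ℂ f) (n : ℕ) (z : ℂ) :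
    iteratedDeriv n (fun w => w * f w) z =
      z * iteratedDeriv n f z + n * iteratedDeriv (n - 1) f z := by
  induction n generalizing z with
  | zero => simp
  | succ n ih =>
    have hdk : ∀ k : ℕ, Differentiable ℂ (iteratedDeriv k f) := fun k =>
      hf.contDiff.differentiable_iteratedDeriv k (by exact_mod_cast WithTop.coe_lt_top (k : ℕ∞))
    have e : iteratedDeriv n (fun w => w * f w) = fun z => z * iteratedDeriv n f z +
        n * iteratedDeriv (n - 1) f z := funext ih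
    rw [iteratedDeriv_succ, e]
    have h1 : HasDerivAt (fun z => z * iteratedDeriv n f z + n * iteratedDeriv (n - 1) f z)
        (1 * iteratedDeriv n f z + z * deriv (iteratedDeriv n f) z +
          n * deriv (iteratedDeriv (n - 1) f) z) z := by
      refine HasDerivAt.add ?_ ?_
      · exact (hasDerivAt_id z).mul (hdk n z).hasDerivAt
      · exact ((hdk (n - 1) z).hasDerivAt).const_mul _
    rw [h1.deriv, ← iteratedDeriv_succ, ← iteratedDeriv_succ]
    rcases Nat.eq_zero_or_pos n with h0 | h0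
    · subst h0
      simp
      ring
    · have e2 : n - 1 + 1 = n := by omega
      rw [e2, Nat.add_sub_cancel]
      push_cast
      ring

/-- **Jensen polynomials of completed L-functions.** -/
theorem LF.jensen (h : LF μ ρ A c β D F ε) {δ : ℕ} (hδ : (δ = 0 ∧ ε = 1) ∨ (δ = 1 ∧ ε = -1)) :
    ∃ C0 : ℝ, 0 < C0 ∧ ∀ d n : ℕ, 2 ≤ d → C0 * Real.log d ≤ n →
      ∀ x : ℂ, ∑ j ∈ Finset.range (d + 1), (d.choose j : ℂ) * gamF F c δ (n + j) * x ^ j = 0 →
        x.im = 0 ∧ x.re < 0 := by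
  have hβ := h.β1
  have hβ0 : 0 < β := by linarith
  set g : ℂ → ℂ := fun w => F (c + 2 * β * w) with hg
  have hgd : Differentiable ℂ g := h.diff.comp (by fun_prop)
  have hgneg : ∀ w, g (-w) = ε * g w := by
    intro w
    rw [hg]
    simp only
    rw [← h.fe]
    congr 1
    ring
  have hgconj : ∀ w, g (starRingEnd ℂ w) = starRingEnd ℂ (g w) := by
    intro w
    rw [hg]
    simp only
    rw [← h.conj]
    congr 1
    rw [map_add, map_mul, map_mul, Complex.conj_ofReal, Complex.conj_ofReal, Complex.conj_ofNat]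
  -- the function f
  obtain ⟨f, hf, hfe⟩ : ∃ f : ℂ → ℂ, Ev f ∧ ∀ w, w ^ δ * f w = g w := by
    rcases hδ with ⟨h0, h1⟩ | ⟨h0, h1⟩
    · subst h0
      exact ⟨g, ⟨hgd, fun w => by rw [hgneg, h1, one_mul], hgconj⟩, fun w => by simp⟩
    · subst h0
      have hg0 : g 0 = 0 := by
        have := hgneg 0
        rw [neg_zero, h1] at this
        have h2 : (2 : ℂ) * g 0 = 0 := by linear_combination this
        simpa using h2
      have hdf : Differentiable ℂ (dslope g 0) := by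
        rw [← differentiableOn_univ] at hgd ⊢
        exact (Complex.differentiableOn_dslope univ_mem).2 hgd
      have hval : ∀ w, w ≠ 0 → dslope g 0 w = g w / w := by
        intro w hw
        rw [dslope_of_ne _ hw, slope_def_field, hg0, sub_zero, sub_zero]
      refine ⟨dslope g 0, ⟨hdf, ?_, ?_⟩, ?_⟩
      · intro w
        by_cases hw : w = 0
        · rw [hw, neg_zero]
        · rw [hval w hw, hval (-w) (neg_ne_zero.2 hw), hgneg, h1]
          field_simp
      · have hc1 : Continuous fun w => dslope g 0 (starRingEnd ℂ w) :=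
          hdf.continuous.comp Complex.continuous_conj
        have hc2 : Continuous fun w => starRingEnd ℂ (dslope g 0 w) :=
          Complex.continuous_conj.comp hdf.continuous
        have := Continuous.ext_on (dense_compl_singleton (0 : ℂ)) hc1 hc2 (by
          intro w hw
          have hw0 : w ≠ 0 := hw
          have hw1 : starRingEnd ℂ w ≠ 0 := by simpa using hw0
          simp only
          rw [hval w hw0, hval _ hw1, hgconj, map_div₀])
        exact fun w => congrFun this w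
      · intro w
        by_cases hw : w = 0
        · rw [hw, hg0]; simp
        · rw [hval w hw, pow_one]
          field_simp
  obtain ⟨C1, T0, R0, A1, B, hHi⟩ := h.hi (δ := δ) (f := f) hfe
  -- zeros
  have hz : ∀ w, f w = 0 → |w.re| ≤ 1 / 2 := by
    intro w hw
    have h1 : F (c + 2 * β * w) = 0 := by
      have := hfe w
      rw [hw, mul_zero] at this
      exact this.symm
    have h2 := h.zero_strip h1
    have h3 : (c + 2 * β * w : ℂ).re - c = 2 * β * w.re := by simp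
    rw [h3, abs_mul, abs_of_pos (by linarith : 0 < 2 * β)] at h2
    nlinarith [abs_nonneg w.re]
  -- growth
  obtain ⟨CF, hCF, hgr⟩ := h.growth
  obtain ⟨Bf, hBf⟩ := (isCompact_closedBall (0 : ℂ) 1).exists_bound_of_continuousOn
    hf.diff.continuous.continuousOn
  have hfin : ∀ w, ‖f w‖ ≤ Real.exp ((CF * (2 * (1 + |c| + 2 * β) ^ (2 : ℝ)) ^ (3 / 5 : ℝ) + |Bf|) *
      (1 + ‖w‖ ^ 2) ^ (3 / 5 : ℝ)) := by
    intro w
    have h1 : 1 ≤ (1 + ‖w‖ ^ 2) ^ (3 / 5 : ℝ) :=
      Real.one_le_rpow (by nlinarith [sq_nonneg ‖w‖]) (by norm_num)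
    have hp1 : 0 ≤ CF * (2 * (1 + |c| + 2 * β) ^ (2 : ℝ)) ^ (3 / 5 : ℝ) := by positivity
    rcases le_total 1 ‖w‖ with h2 | h2
    · have h3 : ‖f w‖ ≤ ‖F (c + 2 * β * w)‖ := by
        have := hfe w
        have e : F (c + 2 * β * w) = w ^ δ * f w := this.symm
        rw [e, norm_mul, norm_pow]
        have h4 : 1 ≤ ‖w‖ ^ δ := one_le_pow₀ h2
        have := mul_le_mul_of_nonneg_right h4 (norm_nonneg (f w))
        rwa [one_mul] at this
      refine h3.trans ((hgr _ (Set.mem_univ _)).trans (Real.exp_le_exp.2 ?_))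
      have h5 : 1 + ‖(c + 2 * β * w : ℂ)‖ ≤ (1 + |c| + 2 * β) * (1 + ‖w‖) := by
        have a1 : ‖(c + 2 * β * w : ℂ)‖ ≤ |c| + 2 * β * ‖w‖ := by
          refine (norm_add_le _ _).trans ?_
          rw [norm_mul, norm_mul, Complex.norm_real, Complex.norm_real, Complex.norm_ofNat,
            Real.norm_eq_abs, Real.norm_of_nonneg hβ0.le]
        have := abs_nonneg c
        have := norm_nonneg w
        nlinarith [mul_nonneg (abs_nonneg c) (norm_nonneg w)]
      have h6 : (1 + ‖(c + 2 * β * w : ℂ)‖) ^ (6 / 5 : ℝ) ≤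
          (2 * (1 + |c| + 2 * β) ^ (2 : ℝ)) ^ (3 / 5 : ℝ) * (1 + ‖w‖ ^ 2) ^ (3 / 5 : ℝ) := by
        have hb : 0 ≤ 1 + |c| + 2 * β := by positivity
        have h7 : (1 + ‖(c + 2 * β * w : ℂ)‖) ^ (2 : ℝ) ≤
            (2 * (1 + |c| + 2 * β) ^ (2 : ℝ)) * (1 + ‖w‖ ^ 2) := by
          have e2 : ∀ x : ℝ, x ^ (2 : ℝ) = x ^ 2 := fun x => by
            rw [show (2 : ℝ) = ((2 : ℕ) : ℝ) by norm_num, Real.rpow_natCast]
          rw [e2, e2]
          have h8 : (1 + ‖(c + 2 * β * w : ℂ)‖) ^ 2 ≤ ((1 + |c| + 2 * β) * (1 + ‖w‖)) ^ 2 := by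
            gcongr
          have h9 : (1 + ‖w‖) ^ 2 ≤ 2 * (1 + ‖w‖ ^ 2) := by nlinarith [sq_nonneg (1 - ‖w‖)]
          calc (1 + ‖(c + 2 * β * w : ℂ)‖) ^ 2 ≤ ((1 + |c| + 2 * β) * (1 + ‖w‖)) ^ 2 := h8
            _ = (1 + |c| + 2 * β) ^ 2 * (1 + ‖w‖) ^ 2 := by ring
            _ ≤ (1 + |c| + 2 * β) ^ 2 * (2 * (1 + ‖w‖ ^ 2)) := by gcongr
            _ = _ := by ring
        rw [← Real.mul_rpow (by positivity) (by positivity)]
        calc (1 + ‖(c + 2 * β * w : ℂ)‖) ^ (6 / 5 : ℝ) =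
            ((1 + ‖(c + 2 * β * w : ℂ)‖) ^ (2 : ℝ)) ^ (3 / 5 : ℝ) := by
              rw [← Real.rpow_mul (by positivity)]; norm_num
          _ ≤ _ := Real.rpow_le_rpow (by positivity) h7 (by norm_num)
      calc CF * (1 + ‖(c + 2 * β * w : ℂ)‖) ^ (6 / 5 : ℝ) ≤
          CF * ((2 * (1 + |c| + 2 * β) ^ (2 : ℝ)) ^ (3 / 5 : ℝ) * (1 + ‖w‖ ^ 2) ^ (3 / 5 : ℝ)) := by
            gcongr
        _ = CF * (2 * (1 + |c| + 2 * β) ^ (2 : ℝ)) ^ (3 / 5 : ℝ) * (1 + ‖w‖ ^ 2) ^ (3 / 5 : ℝ) := by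
            ring
        _ ≤ _ := by
            refine mul_le_mul_of_nonneg_right ?_ (by positivity)
            have := abs_nonneg Bf
            linarith
    · have h3 := hBf w (by rw [mem_closedBall_zero_iff]; exact h2)
      have h4 : |Bf| ≤ (CF * (2 * (1 + |c| + 2 * β) ^ (2 : ℝ)) ^ (3 / 5 : ℝ) + |Bf|) *
          (1 + ‖w‖ ^ 2) ^ (3 / 5 : ℝ) := by
        calc |Bf| = |Bf| * 1 := (mul_one _).symm
          _ ≤ _ := mul_le_mul (by linarith) h1 zero_le_one (by positivity)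
      calc ‖f w‖ ≤ |Bf| := h3.trans (le_abs_self Bf)
        _ ≤ Real.exp |Bf| := by linarith [Real.add_one_le_exp |Bf|]
        _ ≤ _ := Real.exp_le_exp.2 h4
  obtain ⟨C0, hC0, hmain⟩ := jensen_abs hf hHi hz (by positivity) hfin
  -- Taylor coefficients
  have hgm : ∀ n, gm f n = (2 * β : ℂ) ^ (2 * n + δ) * gamF F c δ n := by
    intro n
    have h1 := iter_lin h.diff (c : ℂ) (2 * β : ℂ) (2 * n + δ)
    have hgf : (fun w => F (c + 2 * β * w)) = fun w => w ^ δ * f w := funext fun w => (hfe w).symm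
    rw [gm, gamF]
    rcases hδ with ⟨h0, -⟩ | ⟨h0, -⟩
    · subst h0
      simp only [add_zero, pow_zero, one_mul] at hgf h1 ⊢
      rw [hgf] at h1
      rw [h1]
      ring
    · subst h0
      simp only [pow_one] at hgf
      rw [hgf, iter_mul hf.diff, zero_mul, zero_add, Nat.add_sub_cancel] at h1
      have hf1 : ((2 * n + 1).factorial : ℂ) = ((2 * n + 1 : ℕ) : ℂ) * ((2 * n).factorial : ℂ) := by
        rw [Nat.factorial_succ]; push_cast; ring
      have hn0 : ((2 * n + 1 : ℕ) : ℂ) ≠ 0 := by exact_mod_cast Nat.succ_ne_zero (2 * n)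
      have hn1 : ((2 * n).factorial : ℂ) ≠ 0 := by exact_mod_cast (2 * n).factorial_ne_zero
      have e : iteratedDeriv (2 * n) f 0 = (2 * β : ℂ) ^ (2 * n + 1) *
          iteratedDeriv (2 * n + 1) F c / ((2 * n + 1 : ℕ) : ℂ) := by
        rw [eq_div_iff hn0, ← h1]
        ring
      rw [e, hf1]
      field_simp
  refine ⟨C0, hC0, fun d n hd hn x hx => ?_⟩
  have hβc : (2 * β : ℂ) ≠ 0 := by
    have : (β : ℂ) ≠ 0 := by exact_mod_cast hβ0.ne'
    simpa using this
  set z : ℂ := x / (2 * β) ^ 2 with hzdef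
  have hz1 : z.im = x.im / (2 * β) ^ 2 ∧ z.re = x.re / (2 * β) ^ 2 := by
    have : z = x / (((2 * β) ^ 2 : ℝ) : ℂ) := by rw [hzdef]; push_cast; rfl
    rw [this, Complex.div_ofReal_im, Complex.div_ofReal_re]
    exact ⟨rfl, rfl⟩
  have hsum : ∑ j ∈ Finset.range (d + 1), (d.choose j : ℂ) * gm f (n + j) * z ^ j = 0 := by
    have e : ∀ j, (d.choose j : ℂ) * gm f (n + j) * z ^ j =
        (2 * β : ℂ) ^ (2 * n + δ) * ((d.choose j : ℂ) * gamF F c δ (n + j) * x ^ j) := by
      intro j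
      rw [hgm, hzdef, div_pow, ← pow_mul]
      have e2 : (2 * β : ℂ) ^ (2 * (n + j) + δ) = (2 * β : ℂ) ^ (2 * n + δ) * (2 * β : ℂ) ^ (2 * j) := by
        rw [← pow_add]; congr 1; ring
      rw [e2]
      have := pow_ne_zero (2 * j) hβc
      field_simp
    simp only [e]
    rw [← Finset.mul_sum, hx, mul_zero]
  have h1 := hmain d n hd hn z hsum
  rw [hz1.1, hz1.2] at h1
  have h2 : 0 < (2 * β) ^ 2 := by positivity
  refine ⟨(div_eq_zero_iff.1 h1.1).resolve_right h2.ne', ?_⟩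
  have h3 := h1.2
  rw [div_neg_iff] at h3
  rcases h3 with h3 | h3
  · linarith [h3.2]
  · exact h3.1

end Pool.Agent.Helper40.HW
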