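import Pool.Agent.Helper40.HW.Bd

set_option autoImplicit false
set_option maxHeartbeats 1000000

/-!
# Completed L-functions: polynomial bounds, growth, logarithmic derivative
-/

open Complex Filter Topology Metric Asymptotics

namespace Pool.Agent.Helper40.HW

/-- the factor at infinity with the conductor -/
noncomputable def Hf {m : ℕ} (μ : Fin m → ℝ) (A : ℝ) (s : ℂ) : ℂ :=
  (A : ℂ) ^ (s / 2) * ∏ j, Gammaℝ (s + μ j)

/-- A completed L-function `F`, of degree `m`, with poles of the completed function at the `ρ i` removed: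
`F(s) = ∏ (s - ρ_i) A^(s/2) ∏ Γ_ℝ(s + μ_j) D(s)` for `Re s > c + β`, and `F(2c - s) = ε F(s)`. -/
structure LF {m k : ℕ} (μ : Fin m → ℝ) (ρ : Fin k → ℂ) (A c β : ℝ) (D F : ℂ → ℂ) (ε : ℂ) :
    Prop where
  m1 : 0 < m
  A0 : 0 < A
  β1 : 1 / 2 ≤ β
  μ0 : ∀ j, 0 < c + μ j
  ρ0 : ∀ i, (ρ i).re ≤ c + β
  Dz : ∀ s : ℂ, c + β < s.re → D s ≠ 0
  Db : ∃ K : ℝ, ∀ s : ℂ, c + β + 1 ≤ s.re → ‖D s‖ ≤ K
  D1 : ∃ R : ℝ, ∀ s : ℂ, R ≤ s.re → ‖D s - 1‖ ≤ 1 / 100
  diff : Differentiable ℂ F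
  eq : ∀ s : ℂ, c + β < s.re → F s = (∏ i, (s - ρ i)) * Hf μ A s * D s
  conj : ∀ s : ℂ, F (starRingEnd ℂ s) = starRingEnd ℂ (F s)
  fin : ∃ (a : ℕ) (B : ℝ), ∀ s : ℂ, ‖F s‖ ≤ Real.exp (B * (1 + ‖s‖) ^ a)
  fe : ∀ s : ℂ, F (2 * c - s) = ε * F s
  eps : ε = 1 ∨ ε = -1

variable {m k : ℕ} {μ : Fin m → ℝ} {ρ : Fin k → ℂ} {A c β : ℝ} {D F : ℂ → ℂ} {ε : ℂ}

/-- the inverse of the factor at infinity -/
noncomputable def Hi' {m : ℕ} (μ : Fin m → ℝ) (A : ℝ) (s : ℂ) : ℂ :=
  cexp ((-Real.log A / 2 : ℝ) * s) * ∏ j, (Gammaℝ (s + μ j))⁻¹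

lemma Hi'_diff : Differentiable ℂ (Hi' μ A) := by
  unfold Hi'
  refine Differentiable.mul (by fun_prop) ?_
  refine Differentiable.fun_finsetProd fun j _ => ?_
  exact differentiable_Gammaℝ_inv.comp (by fun_prop : Differentiable ℂ fun s : ℂ => s + μ j)

lemma cpow_half (hA : 0 < A) (s : ℂ) : (A : ℂ) ^ (s / 2) = cexp ((Real.log A / 2 : ℝ) * s) := by
  rw [Complex.cpow_def_of_ne_zero (by exact_mod_cast hA.ne'), ← Complex.ofReal_log hA.le]
  congr 1
  push_cast
  ring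

lemma Hf_eq (hA : 0 < A) (s : ℂ) : Hf μ A s =
    cexp ((Real.log A / 2 : ℝ) * s) * ∏ j, Gammaℝ (s + μ j) := by
  rw [Hf, cpow_half hA]

lemma Hi'_mul (hA : 0 < A) {s : ℂ} (hs : ∀ j, Gammaℝ (s + μ j) ≠ 0) :
    Hi' μ A s * Hf μ A s = 1 := by
  rw [Hf_eq hA, Hi']
  have e : cexp ((-Real.log A / 2 : ℝ) * s) * (∏ j, (Gammaℝ (s + μ j))⁻¹) *
      (cexp ((Real.log A / 2 : ℝ) * s) * ∏ j, Gammaℝ (s + μ j)) =
      (cexp ((-Real.log A / 2 : ℝ) * s) * cexp ((Real.log A / 2 : ℝ) * s)) *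
      ((∏ j, (Gammaℝ (s + μ j))⁻¹) * ∏ j, Gammaℝ (s + μ j)) := by ring
  rw [e, ← Complex.exp_add, ← Finset.prod_mul_distrib,
    Finset.prod_eq_one (fun j _ => inv_mul_cancel₀ (hs j))]
  have : ((-Real.log A / 2 : ℝ) : ℂ) * s + ((Real.log A / 2 : ℝ) : ℂ) * s = 0 := by
    push_cast; ring
  rw [this, Complex.exp_zero, one_mul]

namespace LF

variable (h : LF μ ρ A c β D F ε)
include h

lemma gam_ne {s : ℂ} (hs : c ≤ s.re) (j : Fin m) : Gammaℝ (s + μ j) ≠ 0 := by
  refine Gammaℝ_ne_zero_of_re_pos ?_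
  have := h.μ0 j
  rw [add_re, ofReal_re]
  linarith

lemma Hf_ne {s : ℂ} (hs : c ≤ s.re) : Hf μ A s ≠ 0 := by
  rw [Hf_eq h.A0]
  exact mul_ne_zero (Complex.exp_ne_zero _) (Finset.prod_ne_zero_iff.2 fun j _ => h.gam_ne hs j)

lemma zero_free {s : ℂ} (hs : c + β < s.re) : F s ≠ 0 := by
  rw [h.eq s hs]
  have := h.β1
  refine mul_ne_zero (mul_ne_zero (Finset.prod_ne_zero_iff.2 fun i _ => ?_)
    (h.Hf_ne (by linarith))) (h.Dz s hs)
  intro h0
  have h1 := h.ρ0 i
  rw [sub_eq_zero] at h0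
  rw [← h0] at h1
  linarith

lemma eps_norm : ‖ε‖ = 1 := by
  rcases h.eps with h1 | h1 <;> rw [h1] <;> simp

lemma fe_norm (s : ℂ) : ‖F (2 * c - s)‖ = ‖F s‖ := by
  rw [h.fe, norm_mul, h.eps_norm, one_mul]

lemma zero_strip {s : ℂ} (hs : F s = 0) : |s.re - c| ≤ β := by
  rw [abs_le]
  constructor
  · by_contra hcon
    push Not at hcon
    have h1 : c + β < (2 * c - s).re := by
      simp only [sub_re, mul_re, ofReal_re, re_ofNat, im_ofNat, ofReal_im, mul_zero, sub_zero]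
      linarith
    apply h.zero_free h1
    rw [h.fe, hs, mul_zero]
  · by_contra hcon
    push Not at hcon
    exact h.zero_free (by linarith) hs

/-- the entire function `F / Hf` -/
lemma E_poly : Pb {s : ℂ | c - β - 1 ≤ s.re ∧ s.re ≤ c + β + 1} (fun s => F s * Hi' μ A s) := by
  have hβ := h.β1
  have hA := h.A0
  obtain ⟨KD, hKD⟩ := h.Db
  -- the right line
  have hR : Pb {s : ℂ | s.re = c + β + 1} (fun s => F s * Hi' μ A s) := by
    have h1 : Pb {s : ℂ | s.re = c + β + 1} (fun s => (∏ i, (s - ρ i)) * D s) := by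
      refine Pb.mul (Pb.prod _ _ fun i _ => ?_) (Pb.bdd (K := KD) fun s hs => hKD s (le_of_eq hs.symm))
      exact (Pb.lin 1 (-ρ i)).of_le fun s _ => by rw [one_mul, sub_eq_add_neg]
    refine h1.of_le fun s hs => le_of_eq ?_
    have hs' : s.re = c + β + 1 := hs
    rw [h.eq s (by linarith)]
    have h2 := Hi'_mul (μ := μ) hA (s := s) fun j => h.gam_ne (by linarith) j
    congr 1
    linear_combination (∏ i, (s - ρ i)) * D s * h2
  -- the left line
  have hL : Pb {s : ℂ | s.re = c - β - 1} (fun s => F s * Hi' μ A s) := by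
    have hre : ∀ s : ℂ, (2 * (c : ℂ) - s).re = 2 * c - s.re := by
      intro s
      simp
    have h1 : Pb {s : ℂ | s.re = c - β - 1} (fun s => (∏ i, ((2 * c - s) - ρ i)) *
        (cexp ((Real.log A / 2 : ℝ) * (2 * c - s)) * cexp ((-Real.log A / 2 : ℝ) * s)) *
        (∏ j, Gammaℝ ((2 * c - s) + μ j) * (Gammaℝ (s + μ j))⁻¹) * D (2 * c - s)) := by
      refine ((Pb.mul (Pb.prod _ _ fun i _ => ?_) ?_).mul (Pb.prod _ _ fun j _ => ?_)).mul ?_
      · refine (Pb.lin (-1) (2 * c - ρ i)).of_le fun s _ => ?_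
        refine le_of_eq (congrArg _ ?_)
        ring
      · refine Pb.bdd (K := Real.exp (Real.log A / 2 * (c + β + 1) + -Real.log A / 2 * (c - β - 1)))
          fun s hs => ?_
        have hs' : s.re = c - β - 1 := hs
        rw [← Complex.exp_add, Complex.norm_exp]
        refine Real.exp_le_exp.2 (le_of_eq ?_)
        rw [add_re, Complex.re_ofReal_mul, Complex.re_ofReal_mul, hre, hs']
        ring
      · obtain ⟨K, N, hK, hb⟩ := GR_lines (c - β - 1 + μ j) (c + β + 1 + μ j)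
          (by have := h.μ0 j; linarith)
        refine ⟨K, N, hK, fun s hs => ?_⟩
        have hs' : s.re = c - β - 1 := hs
        have e1 : s + μ j = ((c - β - 1 + μ j : ℝ) : ℂ) + s.im * I := by
          apply Complex.ext
          · simp [hs']
          · simp
        have e2 : (2 * c - s) + μ j =
            starRingEnd ℂ (((c + β + 1 + μ j : ℝ) : ℂ) + s.im * I) := by
          apply Complex.ext
          · simp [hs']
            ring
          · simp
        rw [norm_mul, e2, Pool.Agent.Helper75.Jen.GammaR_conj, Complex.norm_conj, e1]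
        refine (hb s.im).trans ?_
        gcongr
        exact abs_im_le_norm s
      · refine Pb.bdd (K := KD) fun s hs => hKD _ ?_
        have hs' : s.re = c - β - 1 := hs
        rw [hre, hs']
        linarith
    refine h1.of_le fun s hs => le_of_eq ?_
    have hs' : s.re = c - β - 1 := hs
    rw [norm_mul, ← h.fe_norm s, h.eq (2 * c - s) (by rw [hre, hs']; linarith), ← norm_mul]
    congr 1
    rw [Hf_eq hA, Hi', Finset.prod_mul_distrib]
    ring
  -- conclusion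
  obtain ⟨K1, N1, hK1, hb1⟩ := hR
  obtain ⟨K2, N2, hK2, hb2⟩ := hL
  set M : ℝ := |c| + β + 2 with hM
  have hM0 : 0 ≤ M := by have := abs_nonneg c; linarith
  have hx1 : 1 ≤ (c - β - 1) + M := by
    have := neg_abs_le c
    linarith
  have hnorm : ∀ s : ℂ, c - β - 1 ≤ s.re → 1 ≤ ‖s + M‖ ∧ 1 + ‖s‖ ≤ (2 + M) * ‖s + M‖ := by
    intro s hs
    have a1 : 1 ≤ ‖s + M‖ := by
      refine le_trans ?_ (Complex.re_le_norm _)
      rw [add_re, ofReal_re]
      linarith
    have a2 : ‖s‖ ≤ ‖s + M‖ + M := by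
      calc ‖s‖ = ‖(s + M) - M‖ := by congr 1; ring
        _ ≤ ‖s + M‖ + ‖(M : ℂ)‖ := norm_sub_le _ _
        _ = _ := by rw [Complex.norm_real, Real.norm_of_nonneg hM0]
    exact ⟨a1, by nlinarith⟩
  have hgr : Gr (c - β - 1) (c + β + 1) (fun s => F s * Hi' μ A s) := by
    obtain ⟨a, B, hfin⟩ := h.fin
    refine (Gr.of_fin hfin).mul ?_
    exact (Gr.exp_lin _).mul (Gr.prod _ _ fun j _ => Gr.gam_inv (μ j))
  obtain ⟨a, B, T, hB, hg⟩ := hgr
  set N := N1 + N2 with hN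
  set K := (K1 + K2) * (2 + M) ^ N with hK
  have hline : ∀ (K' : ℝ) (N' : ℕ), 0 ≤ K' → K' ≤ K1 + K2 → N' ≤ N → ∀ s : ℂ, c - β - 1 ≤ s.re →
      ‖F s * Hi' μ A s‖ ≤ K' * (1 + ‖s‖) ^ N' → ‖F s * Hi' μ A s‖ ≤ K * ‖s + M‖ ^ N := by
    intro K' N' h0 h1 h2 s hs h3
    obtain ⟨a1, a2⟩ := hnorm s hs
    have a3 : 1 ≤ 1 + ‖s‖ := by have := norm_nonneg s; linarith
    calc ‖F s * Hi' μ A s‖ ≤ K' * (1 + ‖s‖) ^ N' := h3
      _ ≤ (K1 + K2) * (1 + ‖s‖) ^ N := by
          refine mul_le_mul h1 (pow_le_pow_right₀ a3 h2) (by positivity) (by positivity)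
      _ ≤ (K1 + K2) * ((2 + M) * ‖s + M‖) ^ N := by gcongr
      _ = _ := by rw [hK, mul_pow]; ring
  have hE : Differentiable ℂ (fun s => F s * Hi' μ A s) := h.diff.mul Hi'_diff
  have key := fun s => PLpoly (M := M) (K := K) (N := N) hE
    (show c - β - 1 < c + β + 1 by linarith) hB hg hx1
    (fun s hs => hline K2 N2 hK2 (by linarith) (by omega) s hs.ge (hb2 s hs))
    (fun s hs => hline K1 N1 hK1 (by linarith) (by omega) s (by rw [hs]; linarith) (hb1 s hs)) s
  have hK0 : 0 ≤ K := by rw [hK]; positivity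
  refine ⟨K * (1 + M) ^ N, N, by positivity, fun s hs => ?_⟩
  refine (key s hs.1 hs.2).trans ?_
  have h0 : ‖s + M‖ ≤ (1 + M) * (1 + ‖s‖) := by
    refine (norm_add_le _ _).trans ?_
    rw [Complex.norm_real, Real.norm_of_nonneg hM0]
    have := norm_nonneg s
    nlinarith [mul_nonneg hM0 this]
  calc K * ‖s + M‖ ^ N ≤ K * ((1 + M) * (1 + ‖s‖)) ^ N :=
        mul_le_mul_of_nonneg_left (pow_le_pow_left₀ (norm_nonneg _) h0 N) hK0
    _ = K * (1 + M) ^ N * (1 + ‖s‖) ^ N := by rw [mul_pow ((1 : ℝ) + M)]; ring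

/-- boundedness of the factor at infinity in the right half of the strip -/
lemma Hf_bdd : Pb {s : ℂ | c ≤ s.re ∧ s.re ≤ c + β + 1} (Hf μ A) := by
  have hβ := h.β1
  have hA := h.A0
  have h1 : Pb {s : ℂ | c ≤ s.re ∧ s.re ≤ c + β + 1}
      (fun s => cexp ((Real.log A / 2 : ℝ) * s) * ∏ j, Gammaℝ (s + μ j)) := by
    refine Pb.mul (Pb.bdd (K := Real.exp (|Real.log A / 2| * (|c| + |c + β + 1|))) fun s hs => ?_)
      (Pb.prod _ _ fun j _ => ?_)
    · rw [Complex.norm_exp, Complex.re_ofReal_mul]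
      refine Real.exp_le_exp.2 ?_
      have h2 : |s.re| ≤ |c| + |c + β + 1| := by
        rw [abs_le]
        have a1 := neg_abs_le c
        have a2 := le_abs_self (c + β + 1)
        have a3 := abs_nonneg c
        have a4 := abs_nonneg (c + β + 1)
        have a5 := hs.1
        have a6 := hs.2
        constructor <;> linarith
      calc Real.log A / 2 * s.re ≤ |Real.log A / 2 * s.re| := le_abs_self _
        _ = |Real.log A / 2| * |s.re| := abs_mul _ _
        _ ≤ _ := by gcongr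
    · have hcont : ContinuousOn (fun x : ℝ => Real.Gamma ((x + μ j) / 2)) (Set.Icc c (c + β + 1)) := by
        intro x hx
        have h0 := h.μ0 j
        have hx1 := hx.1
        have h3 : ContinuousAt Real.Gamma ((x + μ j) / 2) := by
          refine (Real.differentiableAt_Gamma fun n => ?_).continuousAt
          have : (0 : ℝ) < (x + μ j) / 2 := by linarith
          have hn : (0 : ℝ) ≤ n := Nat.cast_nonneg n
          intro he
          linarith
        exact (ContinuousAt.comp (f := fun x : ℝ => (x + μ j) / 2) h3 (by fun_prop)).continuousWithinAt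
      obtain ⟨K, hK⟩ := isCompact_Icc.exists_bound_of_continuousOn hcont
      refine Pb.bdd (K := K) fun s hs => ?_
      have h0 := h.μ0 j
      have hre : (s + μ j).re = s.re + μ j := by simp
      have := hs.1
      refine (Pool.Agent.Helper75.Jen.norm_GammaR_le (by rw [hre]; linarith)).trans ?_
      rw [hre]
      exact (le_abs_self _).trans (hK s.re hs)
  refine h1.of_le fun s _ => le_of_eq ?_
  rw [Hf_eq hA]

/-- `F` has order at most `6/5` -/
lemma growth : Go Set.univ F := by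
  have hβ := h.β1
  have hA := h.A0
  have hre : ∀ s : ℂ, (2 * (c : ℂ) - s).re = 2 * c - s.re := by
    intro s
    simp
  -- right half plane
  have h1 : Go {s : ℂ | c ≤ s.re} F := by
    have ha : Go {s : ℂ | c + β + 1 ≤ s.re} F := by
      obtain ⟨KD, hKD⟩ := h.Db
      have h2 : Go {s : ℂ | c + β + 1 ≤ s.re} (fun s => (∏ i, (s - ρ i)) *
          (cexp ((Real.log A / 2 : ℝ) * s) * ∏ j, Gammaℝ (s + μ j)) * D s) := by
        refine (Go.mul ?_ ((Go.exp_lin _).mul (Go.prod _ _ fun j _ => ?_))).mul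
          (Pb.bdd (K := KD) fun s hs => hKD s hs).go
        · refine Pb.go (Pb.prod _ _ fun i _ => ?_)
          exact (Pb.lin 1 (-ρ i)).of_le fun s _ => by rw [one_mul, sub_eq_add_neg]
        · exact Go.gam (μ j) (c + β + 1) (by have := h.μ0 j; linarith)
      obtain ⟨C, hC, h3⟩ := h2
      refine ⟨C, hC, fun s hs => ?_⟩
      have hs' : c + β + 1 ≤ s.re := hs
      rw [h.eq s (by linarith), Hf_eq hA]
      exact h3 s hs
    have hb : Pb {s : ℂ | c ≤ s.re ∧ s.re ≤ c + β + 1} F := by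
      obtain ⟨K, N, hK, h3⟩ := h.E_poly
      have h4 : Pb {s : ℂ | c ≤ s.re ∧ s.re ≤ c + β + 1} (fun s => F s * Hi' μ A s) :=
        ⟨K, N, hK, fun s hs => h3 s ⟨by linarith [hs.1], hs.2⟩⟩
      refine (h4.mul h.Hf_bdd).of_le fun s hs => le_of_eq ?_
      have h5 := Hi'_mul (μ := μ) hA (s := s) fun j => h.gam_ne hs.1 j
      rw [mul_assoc, h5, mul_one]
    obtain ⟨C, hC, h2⟩ := ha
    obtain ⟨C', hC', h2'⟩ := hb.go
    refine ⟨max C C', le_max_of_le_left hC, fun s hs => ?_⟩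
    rcases le_total (c + β + 1) s.re with h3 | h3
    · refine (h2 s h3).trans (Real.exp_le_exp.2 ?_)
      gcongr
      exact le_max_left _ _
    · refine (h2' s ⟨hs, h3⟩).trans (Real.exp_le_exp.2 ?_)
      gcongr
      exact le_max_right _ _
  obtain ⟨C, hC, h2⟩ := h1
  refine ⟨C * (1 + 2 * |c|) ^ (6 / 5 : ℝ), by positivity, fun s _ => ?_⟩
  have hc0 := abs_nonneg c
  have hx : ∀ t : ℝ, 0 ≤ t → t ≤ (1 + 2 * |c|) * (1 + ‖s‖) → C * t ^ (6 / 5 : ℝ) ≤
      C * (1 + 2 * |c|) ^ (6 / 5 : ℝ) * (1 + ‖s‖) ^ (6 / 5 : ℝ) := by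
    intro t ht0 ht
    rw [mul_assoc, ← Real.mul_rpow (by positivity) (by positivity)]
    gcongr
  have hs0 := norm_nonneg s
  rcases le_total c s.re with h3 | h3
  · refine (h2 s h3).trans (Real.exp_le_exp.2 (hx _ (by positivity) ?_))
    nlinarith [mul_nonneg hc0 hs0]
  · rw [← h.fe_norm s]
    refine (h2 _ (by simp only [Set.mem_ofPred_eq, hre]; linarith)).trans
      (Real.exp_le_exp.2 (hx _ (by positivity) ?_))
    have h4 : ‖2 * (c : ℂ) - s‖ ≤ 2 * |c| + ‖s‖ := by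
      refine (norm_sub_le _ _).trans ?_
      rw [norm_mul, Complex.norm_real, Complex.norm_ofNat, Real.norm_eq_abs]
    nlinarith [mul_nonneg hc0 hs0]

end LF

end Pool.Agent.Helper40.HW
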