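import Pool.Agent.Helper40.HW.Jen

set_option autoImplicit false
set_option maxHeartbeats 1000000

/-!
# Completed L-functions: growth from a strip, products
-/

open Complex Filter Topology Metric Asymptotics

namespace Pool.Agent.Helper40.HW

variable {m k : ℕ} {μ : Fin m → ℝ} {ρ : Fin k → ℂ} {A c β : ℝ} {D F : ℂ → ℂ} {ε : ℂ}

lemma exp_mono_pow {B B' : ℝ} {a b : ℝ} {x : ℝ} (hB : B ≤ B') (hB' : 0 ≤ B') (hab : a ≤ b)
    (hx : 1 ≤ x) : Real.exp (B * x ^ a) ≤ Real.exp (B' * x ^ b) := by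
  refine Real.exp_le_exp.2 ?_
  have h1 : x ^ a ≤ x ^ b := Real.rpow_le_rpow_of_exponent_le hx hab
  have h2 : 0 ≤ x ^ a := by positivity
  calc B * x ^ a ≤ B' * x ^ a := mul_le_mul_of_nonneg_right hB h2
    _ ≤ _ := mul_le_mul_of_nonneg_left h1 hB'

/-- growth in a strip and the functional equation give growth in the plane -/
theorem LF.of_strip (m1 : 0 < m) (A0 : 0 < A) (β1 : 1 / 2 ≤ β) (μ0 : ∀ j, 0 < c + μ j)
    (ρ0 : ∀ i, (ρ i).re ≤ c + β) (Dz : ∀ s : ℂ, c + β < s.re → D s ≠ 0)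
    (Db : ∃ K : ℝ, ∀ s : ℂ, c + β + 1 ≤ s.re → ‖D s‖ ≤ K)
    (D1 : ∃ R : ℝ, ∀ s : ℂ, R ≤ s.re → ‖D s - 1‖ ≤ 1 / 100)
    (diff : Differentiable ℂ F)
    (eq : ∀ s : ℂ, c + β < s.re → F s = (∏ i, (s - ρ i)) * Hf μ A s * D s)
    (conj : ∀ s : ℂ, F (starRingEnd ℂ s) = starRingEnd ℂ (F s))
    (strip : ∃ (a : ℕ) (B : ℝ), ∀ s : ℂ, c - β - 1 ≤ s.re → s.re ≤ c + β + 1 →
      ‖F s‖ ≤ Real.exp (B * (1 + ‖s‖) ^ a))
    (fe : ∀ s : ℂ, F (2 * c - s) = ε * F s) (eps : ε = 1 ∨ ε = -1) :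
    LF μ ρ A c β D F ε := by
  have hre : ∀ s : ℂ, (2 * (c : ℂ) - s).re = 2 * c - s.re := by
    intro s
    simp
  have heps : ‖ε‖ = 1 := by rcases eps with h1 | h1 <;> rw [h1] <;> simp
  refine ⟨m1, A0, β1, μ0, ρ0, Dz, Db, D1, diff, eq, conj, ?_, fe, eps⟩
  obtain ⟨a, B, hst⟩ := strip
  have ha : Go {s : ℂ | c + β + 1 ≤ s.re} F := by
    obtain ⟨KD, hKD⟩ := Db
    have h2 : Go {s : ℂ | c + β + 1 ≤ s.re} (fun s => (∏ i, (s - ρ i)) *
        (cexp ((Real.log A / 2 : ℝ) * s) * ∏ j, Gammaℝ (s + μ j)) * D s) := by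
      refine (Go.mul ?_ ((Go.exp_lin _).mul (Go.prod _ _ fun j _ => ?_))).mul
        (Pb.bdd (K := KD) fun s hs => hKD s hs).go
      · refine Pb.go (Pb.prod _ _ fun i _ => ?_)
        exact (Pb.lin 1 (-ρ i)).of_le fun s _ => by rw [one_mul, sub_eq_add_neg]
      · exact Go.gam (μ j) (c + β + 1) (by have := μ0 j; linarith)
    obtain ⟨C, hC, h3⟩ := h2
    refine ⟨C, hC, fun s hs => ?_⟩
    have hs' : c + β + 1 ≤ s.re := hs
    rw [eq s (by linarith), Hf_eq A0]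
    exact h3 s hs
  obtain ⟨C, hC, h2⟩ := ha
  have hc0 := abs_nonneg c
  -- a common bound in the right half
  have hright : ∀ s : ℂ, c ≤ s.re →
      ‖F s‖ ≤ Real.exp ((|B| + C) * (1 + ‖s‖) ^ ((a + 2 : ℕ) : ℝ)) := by
    intro s hs
    have hx : 1 ≤ 1 + ‖s‖ := by have := norm_nonneg s; linarith
    rcases le_total (c + β + 1) s.re with h3 | h3
    · refine (h2 s h3).trans (exp_mono_pow (by linarith [abs_nonneg B]) (by positivity) ?_ hx)
      push_cast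
      have : (0 : ℝ) ≤ a := Nat.cast_nonneg a
      linarith
    · have h4 := hst s (by linarith) h3
      rw [← Real.rpow_natCast] at h4
      refine h4.trans (exp_mono_pow (by linarith [le_abs_self B]) (by positivity) ?_ hx)
      push_cast
      linarith
  refine ⟨a + 2, (|B| + C) * (1 + 2 * |c|) ^ (a + 2), fun s => ?_⟩
  have key : ∀ t : ℝ, 0 ≤ t → t ≤ (1 + 2 * |c|) * (1 + ‖s‖) →
      (|B| + C) * t ^ ((a + 2 : ℕ) : ℝ) ≤ (|B| + C) * (1 + 2 * |c|) ^ (a + 2) * (1 + ‖s‖) ^ (a + 2) := by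
    intro t ht0 ht
    rw [Real.rpow_natCast, mul_assoc, ← mul_pow]
    gcongr
  have hs0 := norm_nonneg s
  rcases le_total c s.re with h3 | h3
  · refine (hright s h3).trans (Real.exp_le_exp.2 (key _ (by positivity) ?_))
    nlinarith [mul_nonneg hc0 hs0]
  · have h5 : ‖F (2 * c - s)‖ = ‖F s‖ := by
      rw [fe, norm_mul, heps, one_mul]
    rw [← h5]
    refine (hright _ (by rw [hre]; linarith)).trans
      (Real.exp_le_exp.2 (key _ (by positivity) ?_))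
    have h4 : ‖2 * (c : ℂ) - s‖ ≤ 2 * |c| + ‖s‖ := by
      refine (norm_sub_le _ _).trans ?_
      rw [norm_mul, Complex.norm_real, Complex.norm_ofNat, Real.norm_eq_abs]
    nlinarith [mul_nonneg hc0 hs0]

/-- `D(s) → 1` for `Re s → ∞` -/
def Tn (D : ℂ → ℂ) : Prop := ∀ δ : ℝ, 0 < δ → ∃ R : ℝ, ∀ s : ℂ, R ≤ s.re → ‖D s - 1‖ ≤ δ

lemma Tn.mul {D E : ℂ → ℂ} (hD : Tn D) (hE : Tn E) : Tn (fun s => D s * E s) := by
  intro δ hδ
  set η : ℝ := min 1 (δ / 3) with hη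
  have hη0 : 0 < η := lt_min one_pos (by linarith)
  obtain ⟨R, h1⟩ := hD η hη0
  obtain ⟨R', h2⟩ := hE η hη0
  refine ⟨max R R', fun s hs => ?_⟩
  have a1 := h1 s ((le_max_left _ _).trans hs)
  have a2 := h2 s ((le_max_right _ _).trans hs)
  have e : D s * E s - 1 = (D s - 1) * (E s - 1) + (D s - 1) + (E s - 1) := by ring
  rw [e]
  refine (norm_add_le _ _).trans ?_
  refine (add_le_add_left (norm_add_le _ _) _).trans ?_
  rw [norm_mul]
  have a3 : ‖D s - 1‖ * ‖E s - 1‖ ≤ η * η := mul_le_mul a1 a2 (norm_nonneg _) hη0.le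
  have a4 : η ≤ 1 := min_le_left _ _
  have a5 : η ≤ δ / 3 := min_le_right _ _
  nlinarith

/-- completed L-functions with centre `c` and zeros in `|Re s - c| ≤ β` -/
def Good (c β : ℝ) (D F : ℂ → ℂ) (ε : ℂ) : Prop :=
  Tn D ∧ ∃ (m k : ℕ) (μ : Fin m → ℝ) (ρ : Fin k → ℂ) (A : ℝ), LF μ ρ A c β D F ε

lemma Hf_append {m1 m2 : ℕ} (μ1 : Fin m1 → ℝ) (μ2 : Fin m2 → ℝ) {A1 A2 : ℝ} (h1 : 0 < A1)
    (h2 : 0 < A2) (s : ℂ) :
    Hf (Fin.append μ1 μ2) (A1 * A2) s = Hf μ1 A1 s * Hf μ2 A2 s := by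
  have e : (((A1 * A2 : ℝ) : ℂ)) ^ (s / 2) = (A1 : ℂ) ^ (s / 2) * (A2 : ℂ) ^ (s / 2) := by
    rw [ofReal_mul, Complex.mul_cpow_ofReal_nonneg h1.le h2.le]
  rw [Hf, Hf, Hf, e, Fin.prod_univ_add]
  simp only [Fin.append_left, Fin.append_right]
  ring

theorem Good.mul {c β : ℝ} {D1 F1 D2 F2 : ℂ → ℂ} {ε1 ε2 : ℂ} (h1 : Good c β D1 F1 ε1)
    (h2 : Good c β D2 F2 ε2) :
    Good c β (fun s => D1 s * D2 s) (fun s => F1 s * F2 s) (ε1 * ε2) := by
  obtain ⟨t1, m1, k1, μ1, ρ1, A1, g1⟩ := h1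
  obtain ⟨t2, m2, k2, μ2, ρ2, A2, g2⟩ := h2
  have t := t1.mul t2
  refine ⟨t, m1 + m2, k1 + k2, Fin.append μ1 μ2, Fin.append ρ1 ρ2, A1 * A2, ?_⟩
  refine ⟨Nat.add_pos_left g1.m1 _, mul_pos g1.A0 g2.A0, g1.β1, ?_, ?_, ?_, ?_, ?_,
    g1.diff.mul g2.diff, ?_, ?_, ?_, ?_, ?_⟩
  · intro j
    refine Fin.addCases (fun i => ?_) (fun i => ?_) j
    · rw [Fin.append_left]; exact g1.μ0 i
    · rw [Fin.append_right]; exact g2.μ0 i
  · intro j
    refine Fin.addCases (fun i => ?_) (fun i => ?_) j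
    · rw [Fin.append_left]; exact g1.ρ0 i
    · rw [Fin.append_right]; exact g2.ρ0 i
  · intro s hs
    exact mul_ne_zero (g1.Dz s hs) (g2.Dz s hs)
  · obtain ⟨K, hK⟩ := g1.Db
    obtain ⟨K', hK'⟩ := g2.Db
    refine ⟨|K| * |K'|, fun s hs => ?_⟩
    rw [norm_mul]
    exact mul_le_mul ((hK s hs).trans (le_abs_self _)) ((hK' s hs).trans (le_abs_self _))
      (norm_nonneg _) (abs_nonneg _)
  · exact t (1 / 100) (by norm_num)
  · intro s hs
    rw [g1.eq s hs, g2.eq s hs, Hf_append μ1 μ2 g1.A0 g2.A0, Fin.prod_univ_add]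
    simp only [Fin.append_left, Fin.append_right]
    ring
  · intro s
    rw [g1.conj, g2.conj, map_mul]
  · obtain ⟨a, B, h⟩ := g1.fin
    obtain ⟨a', B', h'⟩ := g2.fin
    refine ⟨a + a', |B| + |B'|, fun s => ?_⟩
    have hx : 1 ≤ 1 + ‖s‖ := by have := norm_nonneg s; linarith
    rw [norm_mul, add_mul, Real.exp_add]
    refine mul_le_mul ((h s).trans ?_) ((h' s).trans ?_) (norm_nonneg _) (Real.exp_pos _).le
    · rw [← Real.rpow_natCast, ← Real.rpow_natCast]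
      refine exp_mono_pow (le_abs_self _) (abs_nonneg _) ?_ hx
      push_cast
      have : (0 : ℝ) ≤ a' := Nat.cast_nonneg a'
      linarith
    · rw [← Real.rpow_natCast, ← Real.rpow_natCast]
      refine exp_mono_pow (le_abs_self _) (abs_nonneg _) ?_ hx
      push_cast
      have : (0 : ℝ) ≤ a := Nat.cast_nonneg a
      linarith
  · intro s
    rw [g1.fe, g2.fe]
    ring
  · rcases g1.eps with h | h <;> rcases g2.eps with h' | h' <;> rw [h, h'] <;> simp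

theorem Good.prod {c β : ℝ} {ι : Type*} (J : Finset ι) (hJ : J.Nonempty) (D F : ι → ℂ → ℂ)
    (ε : ι → ℂ) (h : ∀ j ∈ J, Good c β (D j) (F j) (ε j)) :
    Good c β (fun s => ∏ j ∈ J, D j s) (fun s => ∏ j ∈ J, F j s) (∏ j ∈ J, ε j) := by
  classical
  induction hJ using Finset.Nonempty.cons_induction with
  | singleton a =>
    simp only [Finset.prod_singleton]
    exact h a (Finset.mem_singleton_self a)
  | cons a s ha hs ih =>
    simp only [Finset.prod_cons]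
    exact (h a (Finset.mem_cons_self a s)).mul (ih fun j hj => h j (Finset.mem_cons_of_mem hj))

/-- the main theorem for completed L-functions -/
theorem Good.jensen {c β : ℝ} {D F : ℂ → ℂ} {ε : ℂ} (h : Good c β D F ε) {δ : ℕ}
    (hδ : (δ = 0 ∧ ε = 1) ∨ (δ = 1 ∧ ε = -1)) :
    ∃ C : ℝ, 0 < C ∧ ∀ d n : ℕ, 2 ≤ d → C * Real.log d ≤ n → ∀ x : ℂ,
      ∑ j ∈ Finset.range (d + 1), (d.choose j : ℂ) * gamF F c δ (n + j) * x ^ j = 0 →
        x.im = 0 ∧ x.re < 0 := by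
  obtain ⟨-, m, k, μ, ρ, A, g⟩ := h
  exact g.jensen hδ

end Pool.Agent.Helper40.HW
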