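import Pool.Graph.R_pool_sql_team_seeded_3997aac3.Q246.Unram2

/-!
# Unramified characters of number fields: continuation and functional equation, with the sign

Copy of `Pool.Agent.Q246.Unr.UC.fe` with the additional information that the sign is `1` for the
trivial character (Dedekind zeta function).
-/

set_option autoImplicit false
set_option linter.unusedSectionVars false

open NumberField Complex Filter Topology Set MeasureTheory
open scoped ComplexConjugate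

namespace Pool.Agent.Helper40.HW

open Pool.Agent.Q246.Unr
open Pool.Agent.Y773 hiding sg Ps rl Nice Ftot hf
open Pool.Agent.Y773.G (sg Ps Nice Ftot G00 hf ex)

variable {K : Type} [Field K] [NumberField K]
variable {e : InfinitePlace K → ℕ} {ψ : Ideal (𝓞 K) →*₀ ℂ}

/-- **Continuation and functional equation, unramified characters.** -/
theorem UC_fe (h : UC e ψ) : ∃ (U : ℂ → ℂ) (w : ℂ), Differentiable ℂ U ∧ ‖w‖ = 1 ∧
    (open Classical in ∀ s : ℂ, 1 < s.re → U s = (s * (s - 1)) ^ (if Triv ψ then 1 else 0) *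
      (GG (Ideal.absNorm (differentIdeal ℤ (𝓞 K)) : ℝ) (ex e) s * LI ψ s)) ∧
    (∀ s, U s = w * conj (U (1 - conj s))) ∧
    (∀ a b : ℝ, ∃ C : ℝ, 0 ≤ C ∧ ∀ s : ℂ, a ≤ s.re → s.re ≤ b → ‖U s‖ ≤ C * (1 + ‖s‖) ^ 2) ∧
    (Triv ψ → (∀ w, e w = 0) → w = 1) := by
  classical
  have h𝔡 : differentIdeal ℤ (𝓞 K) ≠ ⊥ := differentIdeal_ne_bot
  obtain ⟨V, hV, hweak⟩ := G.fam_weak K
  obtain ⟨C, hC, hmel⟩ := G.mellin_Ftot K
  set 𝔟 : ClassGroup (𝓞 K) → Ideal (𝓞 K) := rp K with h𝔟d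
  have h𝔟 : Reps 𝔟 := reps_rp
  have hb : ∀ c, 𝔟 c ≠ ⊥ := h𝔟.ne_bot
  have htop : (⊤ : Ideal (𝓞 K)) ≠ ⊥ := top_ne_bot
  set m := mm 𝔟 ⊤ with hm
  set D := Dd K with hD
  have hm0 : 0 < m := mm_pos hb htop
  have hD0 : 0 < D := Dd_pos
  have hmm : ∀ c, (m : 𝓞 K) ∈ 𝔟 c := fun c => by
    have := mm_mem 𝔟 (⊤ : Ideal (𝓞 K)) c
    rwa [Ideal.mul_top] at this
  have hcompl : ∀ c, ∃ 𝔟' : Ideal (𝓞 K),
      𝔟' * (𝔟 c * differentIdeal ℤ (𝓞 K)) = Ideal.span {((m * D : ℕ) : 𝓞 K)} := by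
    intro c
    have h1 : ((m * D : ℕ) : 𝓞 K) ∈ 𝔟 c * differentIdeal ℤ (𝓞 K) := by
      push_cast
      exact Ideal.mul_mem_mul (hmm c) Dd_mem
    obtain ⟨𝔞, h𝔞⟩ := G.mem_iff_exists_mul.1 h1
    exact ⟨𝔞, h𝔞⟩
  choose 𝔟' h𝔟' using hcompl
  have hR' : Reps 𝔟' := G.reps_compl htop h𝔟 (Nat.mul_pos hm0 hD0) (fun c => by
    rw [Ideal.mul_top]; exact h𝔟' c)
  have hb' : ∀ c, 𝔟' c ≠ ⊥ := hR'.ne_bot
  set Φ : ClassGroup (𝓞 K) → 𝓞 K → ℂ := fun c => Ph ψ (𝔟 c) with hΦ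
  have hB : ∀ c x, ‖Φ c x‖ ≤ 1 := fun c x => h.norm_Ph_le (hb c) x
  have hB' : ∀ c x, ‖Ph ψ (𝔟' c) x‖ ≤ 1 := fun c x => h.norm_Ph_le (hb' c) x
  have hE : ∀ c, G.Eqv e (Φ c) := fun c => h.eqv _
  obtain ⟨P, hPf, hPg, hPk, hPε, hPf0, hPg0⟩ := hweak 𝔟 h𝔟 e h.he h.cpx Φ 1 hB hE m D hm0 hD0 Dd_mem
    (fun c x z => per (hmm c) x z)
  have hN : ∀ c, Nice e (Ps ψ e (𝔟 c)) := fun c => by
    rw [← h.rz_Ph (hb c)]
    exact G.rz_nice h.he h.cpx (hB c) (hE c)
  have hN' : ∀ c, Nice e (Ps ψ e (𝔟' c)) := fun c => by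
    rw [← h.rz_Ph (hb' c)]
    exact G.rz_nice h.he h.cpx (hB' c) (h.eqv _)
  set R : ℝ := (Ideal.absNorm (differentIdeal ℤ (𝓞 K)) : ℝ) with hRdef
  have hR1 : 1 ≤ R := by
    rw [hRdef]
    exact_mod_cast Nat.one_le_iff_ne_zero.mpr fun h1 => h𝔡 (Ideal.absNorm_eq_zero_iff.mp h1)
  have hR0 : 0 < R := by linarith
  have hRc : (R : ℂ) ≠ 0 := by exact_mod_cast hR0.ne'
  set τ : ℂ := ψ (differentIdeal ℤ (𝓞 K)) with hτ
  set A : ℂ := τ * (m : ℂ) ^ (Module.finrank ℚ K) with hA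
  set G1 : ℂ → ℂ := fun s => C * ((∏ φ : K →+* ℂ, Complex.Gammaℝ (s + ex e φ)) * LI ψ s) with hG1
  -- values at zero
  have hΦ0 : ∀ c, Φ c 0 = (ψ (𝔟 c))⁻¹ := fun c => by
    rw [hΦ]
    unfold Ph
    simp
  have hΦ0' : ∀ c, Ph ψ (𝔟' c) 0 = (ψ (𝔟' c))⁻¹ := fun c => by
    unfold Ph
    simp
  have hft : ∀ c x, FT D m (Φ c) x = τ * ((m : ℂ) ^ (Module.finrank ℚ K) /
      (Ideal.absNorm (𝔟 c) : ℂ)) * conj (Ph ψ (𝔟' c) x) := fun c x =>
    h.ft hm0 hD0 (h𝔟' c) (hmm c) x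
  -- the first function
  have hf1 : (fun t => P.f t - P.f₀) = Ftot ψ e 𝔟 := by
    funext t
    rw [hPf, hPf0]
    unfold G.FF G.Ftot
    simp_rw [fun c => G.hf_rz h.he (hB c) ((Ideal.absNorm (𝔟 c) : ℝ)⁻¹ * t),
      fun c => show rz (Φ c) = Ps ψ e (𝔟 c) from h.rz_Ph (hb c)]
    rw [Finset.sum_add_distrib, ← Finset.sum_mul]
    ring
  have hΛ1 : ∀ s : ℂ, 1 < s.re → P.Λ s = G1 s := by
    intro s hs
    have h1 := (P.hasMellin (s := s) (by rw [hPk]; exact hs)).2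
    rw [← h1, hf1]
    exact (hmel 𝔟 h𝔟 e ψ h.norm_le_one hN s hs).2
  -- the second function
  have hg1 : (fun t => P.g t - P.g₀) = fun t => A • conj (Ftot ψ e 𝔟' (R⁻¹ * t)) := by
    funext t
    rw [hPg, hPg0, smul_eq_mul]
    unfold G.FG G.Ftot
    rw [Finset.mul_sum, ← Finset.sum_sub_distrib, map_sum, Finset.mul_sum]
    refine Finset.sum_congr rfl fun c _ => ?_
    have hNb : (Ideal.absNorm (𝔟 c) : ℂ) ≠ 0 := by
      exact_mod_cast (fun h1 => hb c (Ideal.absNorm_eq_zero_iff.mp h1))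
    have hNbR : (Ideal.absNorm (𝔟 c) : ℝ) ≠ 0 := by
      exact_mod_cast (fun h1 => hb c (Ideal.absNorm_eq_zero_iff.mp h1))
    have hNb'R : (Ideal.absNorm (𝔟' c) : ℝ) ≠ 0 := by
      exact_mod_cast (fun h1 => hb' c (Ideal.absNorm_eq_zero_iff.mp h1))
    have h2 : t * (Ideal.absNorm (𝔟 c) : ℝ) / ((m * D : ℕ) : ℝ) ^ (Module.finrank ℚ K) =
        (Ideal.absNorm (𝔟' c) : ℝ)⁻¹ * (R⁻¹ * t) := by
      have h3 := congrArg Ideal.absNorm (h𝔟' c)
      rw [map_mul, map_mul, absNorm_span_nat] at h3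
      have h4 : ((m * D : ℕ) : ℝ) ^ (Module.finrank ℚ K) = (Ideal.absNorm (𝔟' c) : ℝ) *
          ((Ideal.absNorm (𝔟 c) : ℝ) * R) := by
        rw [hRdef]
        exact_mod_cast h3.symm
      rw [h4]
      field_simp
    have h5 : (FT D m (Φ c)) = fun x => (τ * ((m : ℂ) ^ (Module.finrank ℚ K) /
      (Ideal.absNorm (𝔟 c) : ℂ))) * conj (Ph ψ (𝔟' c) x) := funext (hft c)
    rw [h2, h5, G.hf_conj, G.hf_rz h.he (hB' c), h.rz_Ph (hb' c), map_add, map_mul]
    simp only []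
    have hG00 : conj (G00 e) = G00 e := by
      unfold G.G00
      exact Complex.conj_ofReal _
    rw [hG00, hA]
    field_simp
    ring
  have hconjR : ∀ z : ℂ, conj ((R : ℂ) ^ z) = (R : ℂ) ^ (conj z) := by
    intro z
    have h7 : ((R : ℝ) : ℂ).arg ≠ Real.pi := by
      rw [Complex.arg_ofReal_of_nonneg hR0.le]
      exact Real.pi_ne_zero.symm
    have h8 := Complex.conj_cpow (R : ℂ) (conj z) h7
    rw [Complex.conj_ofReal, Complex.conj_conj] at h8
    exact h8.symm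
  have hΛ2 : ∀ s : ℂ, 1 < s.re → P.symm.Λ s = A * ((R : ℂ) ^ s * conj (G1 (conj s))) := by
    intro s hs
    have h1 := (P.symm.hasMellin (s := s) (by
      show P.k < s.re
      rw [hPk]; exact hs)).2
    have h0 : (fun t => P.symm.f t - P.symm.f₀) = fun t => P.g t - P.g₀ := rfl
    rw [h0, hg1] at h1
    rw [← h1, mellin_const_smul, smul_eq_mul, mellin_conj (fun t => Ftot ψ e 𝔟' (R⁻¹ * t)),
      mellin_comp_mul_left _ _ (inv_pos.mpr hR0), smul_eq_mul, map_mul,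
      (hmel 𝔟' hR' e ψ h.norm_le_one hN' (conj s) (by rw [Complex.conj_re]; exact hs)).2]
    congr 2
    have h6 : (((R⁻¹ : ℝ) : ℂ)) ^ (-(conj s)) = (R : ℂ) ^ (conj s) := by
      rw [Complex.cpow_def_of_ne_zero (by exact_mod_cast (inv_pos.mpr hR0).ne'),
        ← Complex.ofReal_log (inv_pos.mpr hR0).le, Real.log_inv,
        Complex.cpow_def_of_ne_zero hRc, ← Complex.ofReal_log hR0.le]
      congr 1
      push_cast
      ring
    rw [h6, hconjR, Complex.conj_conj]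
  set κ : ℂ := P.ε with hκ
  have hfe0 : ∀ s : ℂ, 1 < s.re → P.Λ (1 - s) = κ * (A * ((R : ℂ) ^ s * conj (P.Λ (conj s)))) := by
    intro s hs
    have h1 := P.functional_equation s
    rw [hPk, smul_eq_mul, hΛ2 s hs, ← hΛ1 (conj s) (by rw [Complex.conj_re]; exact hs)] at h1
    simpa using h1
  -- the entire function
  set r : ℕ := if Triv ψ then 1 else 0 with hr
  have hent : ∃ U0 : ℂ → ℂ, Differentiable ℂ U0 ∧ (∀ s : ℂ, s ≠ 0 → s ≠ 1 →
      U0 s = (s * (s - 1)) ^ r * P.Λ s) ∧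
      ∀ a b : ℝ, ∃ C : ℝ, 0 ≤ C ∧ ∀ s : ℂ, a ≤ s.re → s.re ≤ b → ‖U0 s‖ ≤ C * (1 + ‖s‖) ^ 2 := by
    have hconv : ∀ s, MellinConvergent P.f_modif s := fun s =>
      (P.isStrongFEPair_toStrongFEPair.hasMellin s).1
    by_cases hψ : Triv ψ
    · have hr1 : r = 1 := if_pos hψ
      refine ⟨fun s => s * (s - 1) * P.Λ₀ s - (s - 1) * P.f₀ + s * (P.ε * P.g₀), ?_, ?_, ?_⟩
      · have := P.differentiable_Λ₀
        fun_prop
      · intro s h0 h1
        have h1' : s - 1 ≠ 0 := sub_ne_zero.2 h1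
        have h1'' : 1 - s ≠ 0 := sub_ne_zero.2 h1.symm
        rw [hr1, pow_one]
        unfold WeakFEPair.Λ
        rw [hPk, smul_eq_mul, smul_eq_mul]
        push_cast
        have e1 : s * (s - 1) * (1 / s * P.f₀) = (s - 1) * P.f₀ := by field_simp
        have e2 : s * (s - 1) * (P.ε / (1 - s) * P.g₀) = -(s * (P.ε * P.g₀)) := by
          field_simp
          ring
        linear_combination e1 + e2
      · intro a b
        obtain ⟨C', hC'⟩ := mellin_strip_bound hconv a b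
        refine ⟨|C'| + ‖P.f₀‖ + ‖P.ε * P.g₀‖, by positivity, fun s ha hb => ?_⟩
        have h1 : ‖P.Λ₀ s‖ ≤ |C'| := (hC' s ha hb).trans (le_abs_self _)
        have h2 : ‖s - 1‖ ≤ 1 + ‖s‖ := by
          refine (norm_sub_le _ _).trans ?_
          rw [NormOneClass.norm_one, add_comm]
        have h3 : ‖s‖ ≤ 1 + ‖s‖ := by linarith
        have h4 : 1 ≤ 1 + ‖s‖ := by linarith [norm_nonneg s]
        calc ‖s * (s - 1) * P.Λ₀ s - (s - 1) * P.f₀ + s * (P.ε * P.g₀)‖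
            ≤ ‖s * (s - 1) * P.Λ₀ s‖ + ‖(s - 1) * P.f₀‖ + ‖s * (P.ε * P.g₀)‖ :=
              (norm_add_le _ _).trans (add_le_add_left (norm_sub_le _ _) _)
          _ = ‖s‖ * ‖s - 1‖ * ‖P.Λ₀ s‖ + ‖s - 1‖ * ‖P.f₀‖ + ‖s‖ * ‖P.ε * P.g₀‖ := by
              rw [norm_mul, norm_mul, norm_mul, norm_mul]
          _ ≤ (1 + ‖s‖) * (1 + ‖s‖) * |C'| + (1 + ‖s‖) * ‖P.f₀‖ + (1 + ‖s‖) * ‖P.ε * P.g₀‖ := by
              gcongr
          _ ≤ (1 + ‖s‖) ^ 2 * |C'| + (1 + ‖s‖) ^ 2 * ‖P.f₀‖ + (1 + ‖s‖) ^ 2 * ‖P.ε * P.g₀‖ := by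
              have h5 : 1 + ‖s‖ ≤ (1 + ‖s‖) ^ 2 := by nlinarith
              have h6 : (1 + ‖s‖) * (1 + ‖s‖) = (1 + ‖s‖) ^ 2 := by ring
              rw [h6]
              gcongr
          _ = _ := by ring
    · have hr0 : r = 0 := if_neg hψ
      have hf0 : P.f₀ = 0 := by
        rw [hPf0]
        simp_rw [hΦ0]
        exact h.const hψ h𝔟
      have hg0 : P.g₀ = 0 := by
        rw [hPg0]
        have h1 : ∀ c, (Ideal.absNorm (𝔟 c) : ℂ) * FT D m (Φ c) 0 =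
            (τ * (m : ℂ) ^ (Module.finrank ℚ K)) * conj ((ψ (𝔟' c))⁻¹) := by
          intro c
          have hNb : (Ideal.absNorm (𝔟 c) : ℂ) ≠ 0 := by
            exact_mod_cast (fun h1 => hb c (Ideal.absNorm_eq_zero_iff.mp h1))
          rw [hft c 0, hΦ0']
          field_simp
        simp_rw [h1]
        rw [← Finset.mul_sum, ← map_sum]
        have hG00 : conj (G00 e) = G00 e := by
          unfold G.G00
          exact Complex.conj_ofReal _
        have h2 := congrArg conj (h.const hψ hR')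
        rw [map_mul, hG00, map_zero] at h2
        linear_combination (τ * (m : ℂ) ^ (Module.finrank ℚ K)) * h2
      refine ⟨P.Λ, fun s => P.differentiableAt_Λ (Or.inr hf0) (Or.inr hg0), fun s _ _ => by
        rw [hr0, pow_zero, one_mul], fun a b => ?_⟩
      obtain ⟨C', hC'⟩ := mellin_strip_bound hconv a b
      refine ⟨|C'|, abs_nonneg _, fun s ha hb => ?_⟩
      have h1 : P.Λ s = P.Λ₀ s := by
        unfold WeakFEPair.Λ
        rw [hf0, hg0]
        simp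
      have h2 : ‖P.Λ₀ s‖ ≤ |C'| := (hC' s ha hb).trans (le_abs_self _)
      rw [h1]
      have h4 : 1 ≤ (1 + ‖s‖) ^ 2 := one_le_pow₀ (by linarith [norm_nonneg s])
      nlinarith [abs_nonneg C']
  obtain ⟨U0, hU0, hU0e, hU0b⟩ := hent
  have hne : ∀ s : ℂ, 1 < s.re → s ≠ 0 ∧ s ≠ 1 ∧ 1 - s ≠ 0 ∧ 1 - s ≠ 1 := by
    intro s hs
    refine ⟨?_, ?_, ?_, ?_⟩
    · rintro rfl; simp at hs; linarith
    · rintro rfl; simp at hs
    · intro h1
      have := congrArg Complex.re h1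
      simp at this
      linarith
    · intro h1
      have := congrArg Complex.re h1
      simp at this
      linarith
  -- the functional equation of `U0`
  have hfeU : ∀ s : ℂ, U0 (1 - s) = κ * (A * ((R : ℂ) ^ s * conj (U0 (conj s)))) := by
    have hd1 : Differentiable ℂ fun s : ℂ => U0 (1 - s) :=
      hU0.comp (by fun_prop)
    have hd2 : Differentiable ℂ fun s : ℂ => conj (U0 (conj s)) := by
      intro s
      have h4 := (hU0 (conj s)).hasDerivAt.conj_conj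
      rw [Complex.conj_conj] at h4
      exact h4.differentiableAt
    have hd3 : Differentiable ℂ fun s : ℂ => (R : ℂ) ^ s := fun s =>
      (differentiableAt_id).const_cpow (Or.inl hRc)
    have hd4 : Differentiable ℂ fun s : ℂ => κ * (A * ((R : ℂ) ^ s * conj (U0 (conj s)))) :=
      ((hd3.mul hd2).const_mul A).const_mul κ
    have := entire_eq hd1 hd4 fun s hs => by
      obtain ⟨n1, n2, n3, n4⟩ := hne s hs
      have hs' : 1 < (conj s).re := by rw [Complex.conj_re]; exact hs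
      obtain ⟨n5, n6, -, -⟩ := hne (conj s) hs'
      show U0 (1 - s) = κ * (A * ((R : ℂ) ^ s * conj (U0 (conj s))))
      rw [hU0e _ n3 n4, hU0e _ n5 n6, hfe0 s hs]
      simp only [map_mul, map_pow, map_sub, map_one, Complex.conj_conj]
      have e1 : (1 - s) * (1 - s - 1) = s * (s - 1) := by ring
      rw [e1]
      ring
    exact fun s => congrFun this s
  -- normalisation
  set L : ℂ → ℂ := fun s => (R : ℂ) ^ (s / 2) * U0 s with hL
  set w : ℂ := κ * A * (R : ℂ) ^ (1 / 2 : ℂ) with hw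
  have hLfe : ∀ s, L s = w * conj (L (1 - conj s)) := by
    intro s
    have h5 := hfeU (1 - s)
    rw [sub_sub_cancel, map_sub, map_one] at h5
    rw [hL]
    simp only
    rw [h5, map_mul, hconjR, hw]
    have h6 : conj ((1 - conj s) / 2) = (1 - s) / 2 := by
      have h20 : conj (2 : ℂ) = 2 := map_ofNat (starRingEnd ℂ) 2
      rw [map_div₀, map_sub, map_one, Complex.conj_conj, h20]
    rw [h6]
    have h7 : (R : ℂ) ^ (s / 2) * (R : ℂ) ^ (1 - s) = (R : ℂ) ^ (1 / 2 : ℂ) * (R : ℂ) ^ ((1 - s) / 2) := by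
      rw [← Complex.cpow_add _ _ hRc, ← Complex.cpow_add _ _ hRc]
      congr 1
      ring
    linear_combination (κ * A * conj (U0 (1 - conj s))) * h7
  have hCc : (C : ℂ) ≠ 0 := by exact_mod_cast hC.ne'
  have hLval : ∀ s : ℂ, 1 < s.re → L s = C * ((s * (s - 1)) ^ r * (GG R (ex e) s * LI ψ s)) := by
    intro s hs
    obtain ⟨n1, n2, -, -⟩ := hne s hs
    rw [hL]
    simp only
    rw [hU0e s n1 n2, hΛ1 s hs, hG1]
    unfold GG
    ring
  have hL2 : L 2 ≠ 0 := by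
    have h5 : (1 : ℝ) < (2 : ℂ).re := by norm_num
    rw [hLval 2 h5]
    obtain ⟨A', -, hd⟩ := Pool.Agent.Y772.DK.t_dirK K
    have h6 := (hd ψ h.norm_le_one).2.2.1 2 h5
    refine mul_ne_zero hCc (mul_ne_zero (pow_ne_zero _ (by norm_num)) (mul_ne_zero ?_ h6))
    unfold GG
    refine mul_ne_zero ?_ (G.gam_ne_zero (ex e) (by norm_num))
    rw [Ne, Complex.cpow_eq_zero_iff]
    exact fun h => hRc h.1
  have hw1 : ‖w‖ = 1 := by
    have h5 := hLfe 2
    have h6 := hLfe (1 - conj 2)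
    rw [h6, map_mul] at h5
    have h7 : 1 - conj (1 - conj (2 : ℂ)) = 2 := by
      rw [map_sub, map_one, Complex.conj_conj]
      ring
    rw [h7, Complex.conj_conj] at h5
    have h8 : w * conj w = 1 := by
      have : (w * conj w) * L 2 = 1 * L 2 := by linear_combination -h5
      exact mul_right_cancel₀ hL2 this
    rw [Complex.mul_conj, Complex.normSq_eq_norm_sq] at h8
    have h9 : ‖w‖ ^ 2 = 1 := by exact_mod_cast h8
    have := norm_nonneg w
    nlinarith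
  refine ⟨fun s => (C : ℂ)⁻¹ * L s, w, ?_, hw1, fun s hs => ?_, fun s => ?_, fun a b => ?_, ?_⟩
  · have hd3 : Differentiable ℂ fun s : ℂ => (R : ℂ) ^ (s / 2) := fun s =>
      ((differentiableAt_id).div_const 2).const_cpow (Or.inl hRc)
    exact (hd3.mul hU0).const_mul _
  · simp only
    rw [hLval s hs]
    field_simp
  · simp only
    rw [map_mul, hLfe s]
    have h5 : conj ((C : ℂ)⁻¹) = (C : ℂ)⁻¹ := by
      rw [map_inv₀, Complex.conj_ofReal]
    rw [h5]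
    ring
  · obtain ⟨C', hC'0, hC'⟩ := hU0b a b
    refine ⟨‖(C : ℂ)⁻¹‖ * (R ^ (b / 2) * C'), by positivity, fun s hsa hsb => ?_⟩
    simp only
    rw [norm_mul, hL]
    simp only
    rw [norm_mul]
    have h5 : ‖(R : ℂ) ^ (s / 2)‖ ≤ R ^ (b / 2) := by
      rw [Complex.norm_cpow_eq_rpow_re_of_pos hR0]
      refine Real.rpow_le_rpow_of_exponent_le hR1 ?_
      have : (s / 2).re = s.re / 2 := by simp
      rw [this]
      linarith
    have h6 := hC' s hsa hsb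
    calc ‖(C : ℂ)⁻¹‖ * (‖(R : ℂ) ^ (s / 2)‖ * ‖U0 s‖)
        ≤ ‖(C : ℂ)⁻¹‖ * (R ^ (b / 2) * (C' * (1 + ‖s‖) ^ 2)) := by gcongr
      _ = _ := by ring
  · intro htr he0
    have hτ1 : τ = 1 := htr _ h𝔡
    have he' : e = fun _ => 0 := funext he0
    have hsum : (∑ φ : K →+* ℂ, G.eM e φ) = 0 := by
      rw [he']
      refine Finset.sum_eq_zero fun φ _ => ?_
      rfl
    have hmC : ((m : ℂ) ^ (Module.finrank ℚ K)) ≠ 0 :=
      pow_ne_zero _ (by exact_mod_cast hm0.ne')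
    have hw2 : w = ((V⁻¹ * R ^ (1 / 2 : ℝ) : ℝ) : ℂ) := by
      rw [hw, hPε, hA, hτ1, hsum, pow_zero, mul_one, one_mul]
      rw [mul_assoc (((V⁻¹ : ℝ) : ℂ)), inv_mul_cancel₀ hmC, mul_one, ofReal_mul,
        ofReal_cpow hR0.le]
      push_cast
      rfl
    have hpos : (0 : ℝ) < V⁻¹ * R ^ (1 / 2 : ℝ) := by positivity
    rw [hw2, Complex.norm_real, Real.norm_eq_abs, abs_of_pos hpos] at hw1
    rw [hw2, hw1, ofReal_one]

end Pool.Agent.Helper40.HW
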