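import Pool.Agent.Helper40.HW.Ser
import Pool.Agent.Helper40.HW.Unr
import Pool.Graph.R_seed8.Y772.NZ.Zeta
import Pool.Graph.R_seed8.Y772.DK.Main
import Pool.Graph.R_pool_sql_team_seeded_3997aac3.Q151.NF.DedCore

set_option autoImplicit false

/-!
# The completed zeta function of a number field
-/

open Complex Filter Topology NumberField
open scoped ComplexConjugate

namespace Pool.Agent.Helper40.HW

open Pool.Agent.Q246.Unr
open Pool.Agent.Y773 (LI GG)
open Pool.Agent.Y773.G (ex sg)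
open Pool.Agent.Y772.NZ (one one_ne LI_one one_norm)

variable (K : Type) [Field K] [NumberField K]

lemma uc_one : UC (fun _ => 0) (one K) where
  he := fun w => Nat.zero_le _
  cpx := fun w _ => rfl
  ne := fun 𝔞 h => by
    rw [one_ne K h]
    exact one_ne_zero
  sig := fun x hx => by
    have h1 : Ideal.span {x} ≠ (0 : Ideal (𝓞 K)) := by
      rw [Ne, Ideal.zero_eq_bot, Ideal.span_singleton_eq_bot]
      exact hx
    rw [one_ne K h1]
    unfold Pool.Agent.Y773.G.sg
    simp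

lemma triv_one : Triv (one K) := fun _ h => one_ne K h

open Classical in
lemma prod_gam (s : ℂ) : (∏ φ : K →+* ℂ, Gammaℝ (s + (ex (fun _ => 0) φ : ℕ))) =
    Gammaℝ s ^ InfinitePlace.nrRealPlaces K * Gammaℂ s ^ InfinitePlace.nrComplexPlaces K := by
  rw [← Pool.Agent.Q151.NF.gam_zero K (Gammaℝ s) (Gammaℂ s),
    ← Finset.prod_fiberwise (s := Finset.univ) (g := fun φ : K →+* ℂ => InfinitePlace.mk φ)]
  refine Finset.prod_congr rfl fun w _ => ?_
  have hmk : ∀ φ : K →+* ℂ, InfinitePlace.mk φ = w ↔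
      w.embedding = φ ∨ ComplexEmbedding.conjugate w.embedding = φ := by
    intro φ
    rw [← InfinitePlace.mk_eq_iff, InfinitePlace.mk_embedding]
    exact eq_comm
  by_cases hw : w.IsReal
  · rw [if_pos hw]
    have hset : (Finset.univ.filter fun φ : K →+* ℂ => InfinitePlace.mk φ = w) = {w.embedding} := by
      ext φ
      rw [Finset.mem_filter, Finset.mem_singleton, hmk]
      have h2 : ComplexEmbedding.conjugate w.embedding = w.embedding :=
        InfinitePlace.isReal_iff.1 hw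
      rw [h2]
      constructor
      · rintro ⟨-, h | h⟩ <;> exact h.symm
      · intro h
        exact ⟨Finset.mem_univ _, Or.inl h.symm⟩
    rw [hset, Finset.prod_singleton]
    have : ex (fun _ => 0) w.embedding = 0 := by
      unfold Pool.Agent.Y773.G.ex
      rw [InfinitePlace.mk_embedding, if_pos hw]
    rw [this]
    simp
  · rw [if_neg hw]
    have hc : w.IsComplex := InfinitePlace.not_isReal_iff_isComplex.1 hw
    have hne : w.embedding ≠ ComplexEmbedding.conjugate w.embedding := by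
      intro h
      exact (InfinitePlace.isComplex_iff.1 hc) h.symm
    have hset : (Finset.univ.filter fun φ : K →+* ℂ => InfinitePlace.mk φ = w) =
        {w.embedding, ComplexEmbedding.conjugate w.embedding} := by
      ext φ
      rw [Finset.mem_filter, Finset.mem_insert, Finset.mem_singleton, hmk]
      constructor
      · rintro ⟨-, h | h⟩
        · exact Or.inl h.symm
        · exact Or.inr h.symm
      · rintro (h | h)
        · exact ⟨Finset.mem_univ _, Or.inl h.symm⟩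
        · exact ⟨Finset.mem_univ _, Or.inr h.symm⟩
    rw [hset, Finset.prod_pair hne]
    have h1 : ex (fun _ => 0) w.embedding = 0 := by
      unfold Pool.Agent.Y773.G.ex
      rw [InfinitePlace.mk_embedding, if_neg hw, if_pos rfl]
    have h2 : ex (fun _ => 0) (ComplexEmbedding.conjugate w.embedding) = 1 := by
      unfold Pool.Agent.Y773.G.ex
      rw [InfinitePlace.mk_conjugate_eq, InfinitePlace.mk_embedding, if_neg hw, if_neg hne]
    rw [h1, h2, ← Gammaℝ_mul_Gammaℝ_add_one]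
    simp

lemma dz_ds {s : ℂ} (hs : 1 < s.re) :
    dedekindZeta K s = Ds (one K) (fun 𝔞 : Ideal (𝓞 K) => Ideal.absNorm 𝔞) s := by
  rw [← LI_one K hs]
  rfl

lemma one_cases (𝔞 : Ideal (𝓞 K)) (h : 𝔞 ≠ ⊤) : one K 𝔞 = 0 ∨ 2 ≤ Ideal.absNorm 𝔞 := by
  by_cases h0 : 𝔞 = ⊥
  · left
    rw [h0, ← Ideal.zero_eq_bot, map_zero]
  · right
    have h1 : Ideal.absNorm 𝔞 ≠ 0 := fun h2 => h0 (Ideal.absNorm_eq_zero_iff.1 h2)
    have h2 : Ideal.absNorm 𝔞 ≠ 1 := fun h3 => h (Ideal.absNorm_eq_one_iff.1 h3)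
    omega

lemma one_summable {x : ℝ} (hx : 1 < x) :
    Summable fun 𝔞 : Ideal (𝓞 K) => ‖one K 𝔞 * ((Ideal.absNorm 𝔞 : ℕ) : ℂ) ^ (-(x : ℂ))‖ := by
  obtain ⟨A', -, hd⟩ := Pool.Agent.Y772.DK.t_dirK K
  exact (hd (one K) (one_norm K)).1 x (by rw [ofReal_re]; exact hx)

lemma dz_ne {s : ℂ} (hs : 1 < s.re) : dedekindZeta K s ≠ 0 := by
  obtain ⟨A', -, hd⟩ := Pool.Agent.Y772.DK.t_dirK K
  rw [← LI_one K hs]
  exact (hd (one K) (one_norm K)).2.2.1 s hs

lemma dz_conj {s : ℂ} (hs : 1 < s.re) : dedekindZeta K (conj s) = conj (dedekindZeta K s) := by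
  rw [dz_ds K hs, dz_ds K (by rw [conj_re]; exact hs)]
  refine Ds_conj (fun 𝔞 => ?_) s
  by_cases h : 𝔞 = 0
  · rw [h, map_zero, map_zero]
  · rw [one_ne K h, map_one]

lemma dz_tn : Tn (dedekindZeta K) := by
  have h1 : Tn (Ds (one K) (fun 𝔞 : Ideal (𝓞 K) => Ideal.absNorm 𝔞)) :=
    Ds_tn (i0 := ⊤) (x0 := 2) (one_ne K (by
      rw [Ideal.zero_eq_bot]; exact top_ne_bot)) Ideal.absNorm_top (one_cases K)
      (one_summable K (by norm_num))
  intro δ hδ
  obtain ⟨R, hR⟩ := h1 δ hδ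
  refine ⟨max R 2, fun s hs => ?_⟩
  have h2 : 2 ≤ s.re := (le_max_right _ _).trans hs
  rw [dz_ds K (by linarith)]
  exact hR s ((le_max_left _ _).trans hs)

lemma cpow_conj' {R : ℝ} (hR : 0 < R) (s : ℂ) : (R : ℂ) ^ (conj s) = conj ((R : ℂ) ^ s) := by
  have h7 : ((R : ℝ) : ℂ).arg ≠ Real.pi := by
    rw [Complex.arg_ofReal_of_nonneg hR.le]
    exact Real.pi_ne_zero.symm
  have h8 := Complex.cpow_conj (R : ℂ) s h7
  rw [Complex.conj_ofReal] at h8
  exact h8

/-- the completed Dedekind zeta function -/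
theorem nf_good : ∃ F : ℂ → ℂ, Good (1 / 2) (1 / 2) (dedekindZeta K) F 1 ∧
    ∀ s : ℂ, 1 < s.re → F s = s * (s - 1) * ((|(discr K : ℝ)| : ℝ) : ℂ) ^ (s / 2) *
      Gammaℝ s ^ InfinitePlace.nrRealPlaces K * Gammaℂ s ^ InfinitePlace.nrComplexPlaces K *
      dedekindZeta K s := by
  classical
  obtain ⟨U, w, hU, -, hUe, hUf, hUb, hw⟩ := UC_fe (uc_one K)
  rw [hw (triv_one K) (fun _ => rfl)] at hUf
  set R : ℝ := (Ideal.absNorm (differentIdeal ℤ (𝓞 K)) : ℝ) with hR
  have hRd : R = |(discr K : ℝ)| := by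
    rw [hR, absNorm_differentIdeal K, Nat.cast_natAbs, Int.cast_abs]
  have hR0 : 0 < R := by
    rw [hRd, abs_pos]
    exact_mod_cast discr_ne_zero K
  set e := (Fintype.equivFin (K →+* ℂ)).symm with he
  set μ : Fin (Fintype.card (K →+* ℂ)) → ℝ := fun j => ((ex (fun _ => 0) (e j) : ℕ) : ℝ) with hμ
  set ρ : Fin 2 → ℂ := ![0, 1] with hρ
  have hprod : ∀ s : ℂ, ∏ j, Gammaℝ (s + μ j) =
      ∏ φ : K →+* ℂ, Gammaℝ (s + (ex (fun _ => 0) φ : ℕ)) := by
    intro s
    rw [← Equiv.prod_comp e]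
    refine Finset.prod_congr rfl fun j _ => ?_
    rw [hμ]
    simp
  have hroots : ∀ s : ℂ, ∏ i, (s - ρ i) = s * (s - 1) := by
    intro s
    rw [hρ]
    simp [Fin.prod_univ_two]
  have hval : ∀ s : ℂ, 1 < s.re → U s = (∏ i, (s - ρ i)) * Hf μ R s * dedekindZeta K s := by
    intro s hs
    have h1 : (if Triv (one K) then 1 else 0) = 1 := if_pos (triv_one K)
    have h2 := hUe s hs
    rw [show (if Triv (one K) then 1 else 0 : ℕ) = 1 from if_pos (triv_one K), pow_one,
      LI_one K hs] at h2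
    rw [h2, hroots, Hf, hprod]
    unfold GG
    ring
  have hconj : ∀ s : ℂ, U (conj s) = conj (U s) := by
    refine conj_of_half hU (x0 := 1) fun s hs => ?_
    rw [hval s hs, hval (conj s) (by rw [conj_re]; exact hs), hroots, hroots, dz_conj K hs, Hf, Hf,
      map_mul, map_mul, map_mul, map_mul, map_prod, ← cpow_conj' hR0, map_sub, map_one, map_div₀]
    have h2 : conj (2 : ℂ) = 2 := map_ofNat (starRingEnd ℂ) 2
    rw [h2]
    congr 3
    refine Finset.prod_congr rfl fun j _ => ?_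
    rw [← Pool.Agent.Helper75.Jen.GammaR_conj, map_add, conj_ofReal]
  refine ⟨U, ⟨dz_tn K, Fintype.card (K →+* ℂ), 2, μ, ρ, R, ?_⟩, ?_⟩
  · refine LF.of_strip Fintype.card_pos hR0 le_rfl ?_ ?_ ?_ ?_ ?_ hU ?_ hconj ?_ ?_ (Or.inl rfl)
    · intro j
      rw [hμ]
      positivity
    · intro i
      fin_cases i <;> simp [hρ]
      norm_num
    · intro s hs
      exact dz_ne K (by linarith)
    · refine ⟨∑' 𝔞 : Ideal (𝓞 K), ‖one K 𝔞 * ((Ideal.absNorm 𝔞 : ℕ) : ℂ) ^ (-((2 : ℝ) : ℂ))‖,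
        fun s hs => ?_⟩
      have h2 : 2 ≤ s.re := by linarith
      rw [dz_ds K (by linarith)]
      exact Ds_bound (i0 := ⊤) Ideal.absNorm_top (one_cases K) (one_summable K (by norm_num)) h2
    · exact dz_tn K (1 / 100) (by norm_num)
    · intro s hs
      exact hval s (by linarith)
    · obtain ⟨C, hC, hb⟩ := hUb (-1) 2
      refine ⟨2, C, fun s h1 h2 => ?_⟩
      refine (hb s (by linarith) (by linarith)).trans ?_
      have := Real.add_one_le_exp (C * (1 + ‖s‖) ^ 2)
      linarith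
    · intro s
      have h1 := hUf (2 * ((1 / 2 : ℝ) : ℂ) - s)
      rw [one_mul] at h1
      rw [h1, one_mul, ← hconj]
      congr 1
      simp
  · intro s hs
    rw [hval s hs, hroots, Hf, hprod, prod_gam K s, hRd]
    ring

end Pool.Agent.Helper40.HW
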