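import Pool.Agent.Helper75.Jen.Ver3

set_option autoImplicit false
set_option maxHeartbeats 1000000

/-!
# The saddle point argument for even entire functions which look like a product of Gamma functions

Abstract form of `Pool/Agent/Helper75/Jen/Ver2.lean`, `Ver3.lean` (the case of the Riemann `ξ`-function).
-/

open Complex Filter Topology Metric

namespace Pool.Agent.Helper40.HW

open Pool.Agent.Helper75.Jen (wf wf_sq wf_im_pos wf_hasDeriv wf_geom log_near cpow_half_sq KK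
  circ_pt sin_near saddle ratio_exp zeros_of_pos)

/-- `f` is asymptotic to `G` far to the right, and `G` has the logarithmic derivative
`(q/2) log (Im w) + O(1)` high up -/
structure Hi (f G : ℂ → ℂ) (q C1 T0 R0 A : ℝ) (B : ℕ) : Prop where
  q1 : 1 ≤ q
  C11 : 1 ≤ C1
  T04 : 4 ≤ T0
  R01 : 1 ≤ R0
  A1 : 1 ≤ A
  lb : ∀ w : ℂ, T0 ≤ w.im → |w.re| ≤ w.im / 2 → G w ≠ 0 ∧ DifferentiableAt ℂ G w ∧
    ‖logDeriv G w - ((q / 2 * Real.log w.im : ℝ) : ℂ)‖ ≤ C1
  h2 : ∀ w : ℂ, T0 ≤ w.im → R0 ≤ w.re → w.re ≤ w.im / 2 → ‖f w - G w‖ ≤ 1 / 100 * ‖G w‖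
  h1 : ∀ w : ℂ, T0 ≤ w.im → 0 ≤ w.re → w.re ≤ w.im / 2 → ‖f w‖ ≤ A * w.im ^ B * ‖G w‖

/-- even entire functions, real on the real line -/
structure Ev (f : ℂ → ℂ) : Prop where
  diff : Differentiable ℂ f
  even : ∀ w, f (-w) = f w
  conj : ∀ w, f (starRingEnd ℂ w) = starRingEnd ℂ (f w)

/-- `FF f (w^2) = f w` -/
noncomputable def FF (f : ℂ → ℂ) (z : ℂ) : ℂ := f (z ^ (1 / 2 : ℂ))

variable {f G : ℂ → ℂ}

lemma FF_eq (hf : Ev f) {z w : ℂ} (h : w ^ 2 = z) : FF f z = f w := by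
  unfold FF
  have h1 : (z ^ (1 / 2 : ℂ)) ^ 2 = w ^ 2 := by rw [cpow_half_sq, h]
  rcases sq_eq_sq_iff_eq_or_eq_neg.1 h1 with h2 | h2
  · rw [h2]
  · rw [h2, hf.even]

lemma FF_sq (hf : Ev f) (w : ℂ) : FF f (w ^ 2) = f w := FF_eq hf rfl

lemma FF_diff (hf : Ev f) : Differentiable ℂ (FF f) := by
  have hne : ∀ z : ℂ, z ≠ 0 → DifferentiableAt ℂ (FF f) z := by
    intro z hz
    by_cases hs : z ∈ slitPlane
    · have h1 : DifferentiableAt ℂ (fun z : ℂ => z ^ (1 / 2 : ℂ)) z :=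
        (differentiableAt_id).cpow_const hs
      exact (hf.diff _).comp z h1
    · have hs' : -z ∈ slitPlane := by
        rw [Complex.mem_slitPlane_iff] at hs ⊢
        push Not at hs
        obtain ⟨h1, h2⟩ := hs
        left
        rw [neg_re]
        rcases lt_or_eq_of_le h1 with h3 | h3
        · linarith
        · exfalso
          apply hz
          apply Complex.ext
          · rw [h3]; rfl
          · rw [h2]; rfl
      have h1 : DifferentiableAt ℂ (fun z : ℂ => I * (-z) ^ (1 / 2 : ℂ)) z := by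
        have : DifferentiableAt ℂ (fun z : ℂ => (-z) ^ (1 / 2 : ℂ)) z :=
          (differentiableAt_id.neg).cpow_const hs'
        exact this.const_mul I
      have h2 : FF f = fun z => f (I * (-z) ^ (1 / 2 : ℂ)) := by
        funext x
        refine FF_eq hf ?_
        rw [mul_pow, I_sq, cpow_half_sq]
        ring
      rw [h2]
      exact (hf.diff _).comp z h1
  intro z
  by_cases hz : z = 0
  · subst hz
    refine (Complex.analyticAt_of_differentiable_on_punctured_nhds_of_continuousAt ?_ ?_).differentiableAt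
    · filter_upwards [self_mem_nhdsWithin] with x hx
      exact hne x hx
    · have h0 : FF f 0 = f 0 := FF_eq hf (by norm_num)
      rw [Metric.continuousAt_iff]
      intro ε hε
      obtain ⟨δ, hδ, hd⟩ :=
        Metric.continuousAt_iff.1 (hf.diff.continuous.continuousAt (x := (0 : ℂ))) ε hε
      refine ⟨δ ^ 2, by positivity, ?_⟩
      intro x hx
      rw [h0]
      unfold FF
      apply hd
      rw [dist_zero_right] at hx ⊢
      have h1 : ‖x ^ (1 / 2 : ℂ)‖ ^ 2 = ‖x‖ := by rw [← norm_pow, cpow_half_sq]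
      rw [← h1] at hx
      exact lt_of_pow_lt_pow_left₀ 2 hδ.le hx
  · exact hne z hz

lemma FF_conj (hf : Ev f) (z : ℂ) : FF f (starRingEnd ℂ z) = starRingEnd ℂ (FF f z) := by
  have h1 : (starRingEnd ℂ (z ^ (1 / 2 : ℂ))) ^ 2 = starRingEnd ℂ z := by
    rw [← map_pow, cpow_half_sq]
  rw [FF_eq hf h1, hf.conj]
  rfl

lemma FF_roots (hz : ∀ w, f w = 0 → |w.re| ≤ 1 / 2) (z : ℂ) (h : FF f z = 0) : z ∈ KK := by
  set w := z ^ (1 / 2 : ℂ) with hw
  have h1 : f w = 0 := h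
  have h2 := hz w h1
  have h3 : z = w ^ 2 := (cpow_half_sq z).symm
  have h4 : w.re ^ 2 ≤ 1 / 4 := by
    have := abs_le.1 h2
    nlinarith [this.1, this.2]
  rw [h3]
  simp only [KK, Set.mem_ofPred_eq, sq, mul_re, mul_im]
  nlinarith [sq_nonneg w.im, mul_nonneg (sq_nonneg w.im) (sub_nonneg.2 h4)]

lemma FF_wf (hf : Ev f) (u : ℂ) : FF f u = f (wf u) := FF_eq hf (wf_sq u)

/-- the comparison function in the squared variable -/
noncomputable def Gt (G : ℂ → ℂ) (u : ℂ) : ℂ := G (wf u)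

variable {q C1 T0 R0 A τ : ℝ} {B m : ℕ}

lemma Gt_facts (hC : Hi f G q C1 T0 R0 A B) (hτ : 10 ^ 16 ≤ τ) (hT : 2 * T0 ≤ τ) {u : ℂ}
    (hu : ‖u - (-(τ ^ 2) : ℝ)‖ < τ ^ 2 / 4) :
    Gt G u ≠ 0 ∧ DifferentiableAt ℂ (Gt G) u ∧ logDeriv (Gt G) u = logDeriv G (wf u) / (2 * wf u) ∧
      ‖logDeriv G (wf u) - ((q / 2 * Real.log τ : ℝ) : ℂ)‖ ≤ C1 + q / 10 := by
  have hτ0 : 0 < τ := by linarith
  have hq := hC.q1
  obtain ⟨h1, h2, h3, h4, h5⟩ := wf_geom hτ0 hu
  obtain ⟨g1, g2, g3⟩ := hC.lb (wf u) (by linarith) (by linarith)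
  refine ⟨g1, ?_, ?_, ?_⟩
  · exact g2.comp u (wf_hasDeriv h1).differentiableAt
  · rw [logDeriv_apply, logDeriv_apply]
    have h6 : HasDerivAt (Gt G) (deriv G (wf u) * (1 / (2 * wf u))) u :=
      g2.hasDerivAt.comp u (wf_hasDeriv h1)
    rw [h6.deriv, Gt]
    have hw0 : wf u ≠ 0 := by
      intro h
      rw [h] at h2
      simp at h2
      linarith
    field_simp
  · have e : logDeriv G (wf u) - ((q / 2 * Real.log τ : ℝ) : ℂ) =
        (logDeriv G (wf u) - ((q / 2 * Real.log (wf u).im : ℝ) : ℂ)) +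
          ((q / 2 * (Real.log (wf u).im - Real.log τ) : ℝ) : ℂ) := by push_cast; ring
    rw [e]
    refine (norm_add_le _ _).trans (add_le_add g3 ?_)
    rw [Complex.norm_real, Real.norm_eq_abs, abs_mul]
    have := log_near hτ0 h2 h3
    rw [abs_of_pos (by linarith : (0 : ℝ) < q / 2)]
    calc q / 2 * |Real.log (wf u).im - Real.log τ| ≤ q / 2 * (1 / 5) := by gcongr
      _ = q / 10 := by ring

lemma Gt_upper (hC : Hi f G q C1 T0 R0 A B) (hτ : 10 ^ 16 ≤ τ) (hT : 2 * T0 ≤ τ)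
    (hl : 1000 * C1 ≤ Real.log τ) {u : ℂ}
    (hu : ‖u - (-(τ ^ 2) : ℝ)‖ < τ ^ 2 / 4) : ‖logDeriv (Gt G) u‖ ≤ (q * Real.log τ) / τ := by
  have hτ0 : 0 < τ := by linarith
  have hC1 := hC.C11
  have hq := hC.q1
  obtain ⟨h1, h2, h3, h4, h5⟩ := wf_geom hτ0 hu
  obtain ⟨g1, g2, g3, g4⟩ := Gt_facts hC hτ hT hu
  have hl0 : 0 < Real.log τ := by linarith
  have hwn : 86 / 100 * τ ≤ ‖wf u‖ := h2.trans ((le_abs_self _).trans (abs_im_le_norm _))
  have hnum : ‖logDeriv G (wf u)‖ ≤ q / 2 * Real.log τ + (C1 + q / 10) := by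
    have e : logDeriv G (wf u) = ((q / 2 * Real.log τ : ℝ) : ℂ) +
      (logDeriv G (wf u) - ((q / 2 * Real.log τ : ℝ) : ℂ)) := by ring
    rw [e]
    refine (norm_add_le _ _).trans (add_le_add ?_ g4)
    rw [Complex.norm_real, Real.norm_of_nonneg (by positivity)]
  have hwpos : 0 < 2 * ‖wf u‖ := by linarith
  have hql : Real.log τ ≤ q * Real.log τ := by nlinarith
  rw [g3, norm_div, norm_mul, Complex.norm_ofNat, div_le_div_iff₀ hwpos hτ0]
  calc ‖logDeriv G (wf u)‖ * τ ≤ (q / 2 * Real.log τ + (C1 + q / 10)) * τ := by gcongr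
    _ ≤ (172 / 100 * (q * Real.log τ)) * τ := by
        refine mul_le_mul_of_nonneg_right ?_ hτ0.le
        have : q / 10 ≤ q * Real.log τ / 10 := by nlinarith
        linarith
    _ = (q * Real.log τ) * (2 * (86 / 100 * τ)) := by ring
    _ ≤ (q * Real.log τ) * (2 * ‖wf u‖) := by gcongr

lemma Gt_diffOn (hC : Hi f G q C1 T0 R0 A B) (hτ : 10 ^ 16 ≤ τ) (hT : 2 * T0 ≤ τ) :
    DifferentiableOn ℂ (Gt G) (ball ((-(τ ^ 2) : ℝ) : ℂ) (τ ^ 2 / 4)) := by
  intro u hu
  rw [mem_ball, dist_eq_norm] at hu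
  exact (Gt_facts hC hτ hT hu).2.1.differentiableWithinAt

lemma logDeriv_Gt_diffOn (hC : Hi f G q C1 T0 R0 A B) (hτ : 10 ^ 16 ≤ τ) (hT : 2 * T0 ≤ τ) :
    DifferentiableOn ℂ (logDeriv (Gt G)) (ball ((-(τ ^ 2) : ℝ) : ℂ) (τ ^ 2 / 4)) := by
  intro x hx
  have h1 : AnalyticAt ℂ (Gt G) x := (Gt_diffOn hC hτ hT).analyticAt (isOpen_ball.mem_nhds hx)
  have h0 : Gt G x ≠ 0 := by
    rw [mem_ball, dist_eq_norm] at hx
    exact (Gt_facts hC hτ hT hx).1
  exact (h1.deriv.div h1 h0).differentiableAt.differentiableWithinAt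

lemma Gt_lip (hC : Hi f G q C1 T0 R0 A B) (hτ : 10 ^ 16 ≤ τ) (hT : 2 * T0 ≤ τ)
    (hl : 1000 * C1 ≤ Real.log τ) :
    ∀ u ∈ ball ((-(τ ^ 2) : ℝ) : ℂ) (τ ^ 2 / 8), ∀ u' ∈ ball ((-(τ ^ 2) : ℝ) : ℂ) (τ ^ 2 / 8),
      ‖logDeriv (Gt G) u - logDeriv (Gt G) u'‖ ≤ 8 * (q * Real.log τ) / τ ^ 3 * ‖u - u'‖ := by
  have hτ0 : 0 < τ := by linarith
  have hd := logDeriv_Gt_diffOn hC hτ hT
  have hsub : ∀ c ∈ ball ((-(τ ^ 2) : ℝ) : ℂ) (τ ^ 2 / 8), closedBall c (τ ^ 2 / 8) ⊆
      ball ((-(τ ^ 2) : ℝ) : ℂ) (τ ^ 2 / 4) := by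
    intro c hc z hz
    rw [mem_ball] at hc ⊢
    rw [mem_closedBall] at hz
    have := dist_triangle z c ((-(τ ^ 2) : ℝ) : ℂ)
    linarith
  have hder : ∀ c ∈ ball ((-(τ ^ 2) : ℝ) : ℂ) (τ ^ 2 / 8),
      ‖deriv (logDeriv (Gt G)) c‖ ≤ 8 * (q * Real.log τ) / τ ^ 3 := by
    intro c hc
    have hR : 0 < τ ^ 2 / 8 := by positivity
    have h1 : DiffContOnCl ℂ (logDeriv (Gt G)) (ball c (τ ^ 2 / 8)) :=
      (hd.mono (hsub c hc)).diffContOnCl_ball subset_rfl
    have h2 := Complex.norm_deriv_le_of_forall_mem_sphere_norm_le hR h1 (C := (q * Real.log τ) / τ)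
      (fun z hz => by
        have h3 := hsub c hc (sphere_subset_closedBall hz)
        rw [mem_ball, dist_eq_norm] at h3
        exact Gt_upper hC hτ hT hl h3)
    refine h2.trans (le_of_eq ?_)
    field_simp
  intro u hu u' hu'
  exact (convex_ball _ _).norm_image_sub_le_of_norm_deriv_le
    (fun x hx => (hd.differentiableAt (isOpen_ball.mem_nhds (ball_subset_ball (by nlinarith) hx))))
    hder hu' hu

lemma Gt_dir (hC : Hi f G q C1 T0 R0 A B) (hτ : 10 ^ 16 ≤ τ) (hT : 2 * T0 ≤ τ)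
    (hl : 1000 * C1 ≤ Real.log τ) {u : ℂ}
    (hu : ‖u - (-(τ ^ 2) : ℝ)‖ ≤ τ ^ 2 / 800) :
    ‖logDeriv (Gt G) u * (4 * I * τ / ((q * Real.log τ : ℝ) : ℂ)) - 1‖ ≤ 1 / 100 := by
  have hτ0 : 0 < τ := by linarith
  have hC1 := hC.C11
  have hq := hC.q1
  have hu' : ‖u - (-(τ ^ 2) : ℝ)‖ < τ ^ 2 / 4 := by
    refine lt_of_le_of_lt hu ?_
    have : 0 < τ ^ 2 := by positivity
    linarith
  obtain ⟨h1, h2, h3, h4, h5⟩ := wf_geom hτ0 hu'
  obtain ⟨g1, g2, g3, g4⟩ := Gt_facts hC hτ hT hu'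
  have hlog0 : 0 < Real.log τ := by linarith
  have hlog1 : 1000 ≤ Real.log τ := by linarith
  set l := q * Real.log τ with hldef
  have hlge : Real.log τ ≤ l := by rw [hldef]; nlinarith
  have hl0 : 0 < l := by linarith
  have hlne : (l : ℂ) ≠ 0 := by exact_mod_cast hl0.ne'
  have hw0 : wf u ≠ 0 := by
    intro h
    rw [h] at h2
    simp at h2
    linarith
  have hwn : 86 / 100 * τ ≤ ‖wf u‖ := h2.trans ((le_abs_self _).trans (abs_im_le_norm _))
  have hql : q / 2 * Real.log τ = 1 / 2 * l := by rw [hldef]; ring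
  rw [hql] at g4
  -- the two factors
  have f1 : ‖logDeriv G (wf u) * (2 / l) - 1‖ ≤ 1 / 400 := by
    have e : logDeriv G (wf u) * (2 / l) - 1 =
        (logDeriv G (wf u) - ((1 / 2 * l : ℝ) : ℂ)) * (2 / l) := by
      push_cast
      field_simp
    rw [e, norm_mul, norm_div, Complex.norm_ofNat, Complex.norm_real, Real.norm_of_nonneg hl0.le]
    calc ‖logDeriv G (wf u) - ((1 / 2 * l : ℝ) : ℂ)‖ * (2 / l) ≤ (C1 + q / 10) * (2 / l) := by
          gcongr
      _ ≤ 1 / 400 := by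
          rw [mul_div_assoc', div_le_iff₀ hl0]
          have : 1000 * q ≤ l := by rw [hldef]; nlinarith
          linarith
  have f2 : ‖I * τ / wf u - 1‖ ≤ 1 / 400 := by
    have e : I * τ / wf u - 1 = (I * τ - wf u) / wf u := by field_simp
    rw [e, norm_div, div_le_iff₀ (norm_pos_iff.2 hw0)]
    have e2 : (I * τ - wf u) * (wf u + I * τ) = -(u - (-(τ ^ 2) : ℝ)) := by
      have := wf_sq u
      push_cast
      linear_combination (-1 : ℂ) * this + (τ : ℂ) ^ 2 * I_sq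
    have e3 := congrArg (fun x => ‖x‖) e2
    simp only [norm_mul, norm_neg] at e3
    have e4 : 18 / 10 * τ ≤ ‖wf u + I * τ‖ := by
      refine le_trans ?_ ((le_abs_self _).trans (abs_im_le_norm _))
      simp only [add_im, mul_im, I_re, I_im, ofReal_re, ofReal_im]
      linarith
    have e5 : ‖I * τ - wf u‖ * (18 / 10 * τ) ≤ τ ^ 2 / 800 := by
      calc ‖I * τ - wf u‖ * (18 / 10 * τ) ≤ ‖I * τ - wf u‖ * ‖wf u + I * τ‖ := by gcongr
        _ = ‖u - (-(τ ^ 2) : ℝ)‖ := e3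
        _ ≤ _ := hu
    have e6 : ‖I * τ - wf u‖ ≤ τ / 1440 := by
      have : ‖I * τ - wf u‖ * (18 / 10 * τ) ≤ (τ / 1440) * (18 / 10 * τ) := by
        refine e5.trans (le_of_eq ?_)
        ring
      exact le_of_mul_le_mul_right this (by positivity)
    linarith
  have e : logDeriv (Gt G) u * (4 * I * τ / l) - 1 =
      (logDeriv G (wf u) * (2 / l) - 1) * (I * τ / wf u - 1) +
        (logDeriv G (wf u) * (2 / l) - 1) + (I * τ / wf u - 1) := by
    rw [g3]
    field_simp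
    ring
  rw [e]
  refine (norm_add_le _ _).trans ?_
  have n1 := norm_add_le ((logDeriv G (wf u) * (2 / l) - 1) * (I * τ / wf u - 1))
    (logDeriv G (wf u) * (2 / l) - 1)
  rw [norm_mul] at n1
  have n2 : ‖logDeriv G (wf u) * (2 / l) - 1‖ * ‖I * τ / wf u - 1‖ ≤ 1 / 400 * (1 / 400) := by
    gcongr
  linarith

/-- the range of the parameters -/
structure Par (q C1 T0 R0 A : ℝ) (B : ℕ) (τ : ℝ) (m : ℕ) : Prop where
  m9 : (10 : ℝ) ^ 9 ≤ m
  mt : 10 ^ 7 * (m : ℝ) ≤ τ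
  tT : 2 * T0 ≤ τ
  lt : 1000 * C1 ≤ Real.log τ
  lm : 1000 * (q * R0 + B + A) * Real.log τ ≤ m

lemma Par.tau (h : Par q C1 T0 R0 A B τ m) : 10 ^ 16 ≤ τ := by
  have := h.m9; have := h.mt
  linarith

/-- the saddle point -/
lemma exists_saddle (hC : Hi f G q C1 T0 R0 A B) (h : Par q C1 T0 R0 A B τ m) :
    ∃ v : ℂ, v * logDeriv (Gt G) (((-(τ ^ 2) : ℝ) : ℂ) + v) = m ∧
      m * τ / (q * Real.log τ) ≤ ‖v‖ ∧ ‖v‖ ≤ 8 * m * τ / (q * Real.log τ) ∧
      98 / 100 * ‖v‖ ≤ v.im := by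
  have hτ := h.tau
  have hT := h.tT
  have hτ0 : 0 < τ := by linarith
  have hC1 := hC.C11
  have hq := hC.q1
  have hl := h.lt
  have hlog0 : 0 < Real.log τ := by linarith
  have hlog1 : 1000 ≤ Real.log τ := by linarith
  have hm9 := h.m9
  have hm0 : (0 : ℝ) < m := by linarith
  have hmt := h.mt
  have hdir0 : ∀ u : ℂ, ‖u - (-(τ ^ 2) : ℝ)‖ ≤ τ ^ 2 / 800 →
      ‖logDeriv (Gt G) u * (4 * I * τ / ((q * Real.log τ : ℝ) : ℂ)) - 1‖ ≤ 1 / 100 :=
    fun u hu => Gt_dir hC hτ hT hl hu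
  have hlip0 := Gt_lip hC hτ hT hl
  set l := q * Real.log τ with hldef
  have hlge : Real.log τ ≤ l := by rw [hldef]; nlinarith
  have hl0 : 0 < l := by linarith
  have hl1 : 1000 ≤ l := by linarith
  set R0 : ℝ := 8 * m * τ / l with hR0
  have hR0pos : 0 ≤ R0 := by positivity
  have hlτ : 10 ^ 10 * (m : ℝ) ≤ l * τ := by nlinarith
  have hR0le : R0 ≤ τ ^ 2 / 800 := by
    rw [hR0, div_le_div_iff₀ hl0 (by norm_num)]
    have : 6400 * (m : ℝ) ≤ l * τ := by linarith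
    nlinarith
  have hball : ∀ v : ℂ, ‖v‖ ≤ R0 → ‖((-(τ ^ 2) : ℝ) : ℂ) + v - ((-(τ ^ 2) : ℝ) : ℂ)‖ ≤ τ ^ 2 / 800 := by
    intro v hv
    rw [add_sub_cancel_left]
    linarith
  set P : ℂ → ℂ := fun v => logDeriv (Gt G) (((-(τ ^ 2) : ℝ) : ℂ) + v) with hP
  have hdir : ∀ v : ℂ, ‖v‖ ≤ R0 → ‖P v * (4 * I * τ / l) - 1‖ ≤ 1 / 100 := fun v hv =>
    hdir0 _ (hball v hv)
  have hfac : ‖(4 * I * τ / l : ℂ)‖ = 4 * τ / l := by
    rw [norm_div, norm_mul, norm_mul, Complex.norm_I, Complex.norm_real, Complex.norm_real,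
      Real.norm_of_nonneg hτ0.le, Real.norm_of_nonneg hl0.le, Complex.norm_ofNat, mul_one]
  have hfpos : 0 < 4 * τ / l := by positivity
  have hPlow : ∀ v : ℂ, ‖v‖ ≤ R0 → 99 / 100 ≤ ‖P v‖ * (4 * τ / l) := by
    intro v hv
    have h1 := hdir v hv
    have h2 : ‖(1 : ℂ)‖ - ‖P v * (4 * I * τ / l)‖ ≤ ‖(1 : ℂ) - P v * (4 * I * τ / l)‖ :=
      norm_sub_norm_le _ _
    rw [norm_sub_rev, norm_one, norm_mul, hfac] at h2
    linarith
  have hPup : ∀ v : ℂ, ‖v‖ ≤ R0 → ‖P v‖ * (4 * τ / l) ≤ 101 / 100 := by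
    intro v hv
    have h1 := hdir v hv
    have h2 : ‖P v * (4 * I * τ / l)‖ - ‖(1 : ℂ)‖ ≤ ‖P v * (4 * I * τ / l) - 1‖ :=
      norm_sub_norm_le _ _
    rw [norm_one, norm_mul, hfac] at h2
    linarith
  have hPlow2 : ∀ v : ℂ, ‖v‖ ≤ R0 → l / (8 * τ) ≤ ‖P v‖ := by
    intro v hv
    have h1 := hPlow v hv
    rw [mul_div_assoc', le_div_iff₀ hl0] at h1
    rw [div_le_iff₀ (by positivity)]
    nlinarith
  have hPne : ∀ v : ℂ, ‖v‖ ≤ R0 → P v ≠ 0 := by
    intro v hv h0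
    have := hPlow2 v hv
    rw [h0, norm_zero] at this
    have h1 : 0 < l / (8 * τ) := by positivity
    linarith
  set T : ℂ → ℂ := fun v => (m : ℂ) / P v with hT
  have hTmap : Set.MapsTo T (closedBall (0 : ℂ) R0) (closedBall (0 : ℂ) R0) := by
    intro v hv
    rw [mem_closedBall_zero_iff] at hv ⊢
    rw [hT]
    simp only
    rw [norm_div, Complex.norm_natCast, div_le_iff₀ (norm_pos_iff.2 (hPne v hv))]
    calc (m : ℝ) = R0 * (l / (8 * τ)) := by rw [hR0]; field_simp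
      _ ≤ R0 * ‖P v‖ := by gcongr; exact hPlow2 v hv
  have hlipT : ∀ v ∈ closedBall (0 : ℂ) R0, ∀ v' ∈ closedBall (0 : ℂ) R0,
      dist (T v) (T v') ≤ 1 / 2 * dist v v' := by
    intro v hv v' hv'
    rw [mem_closedBall_zero_iff] at hv hv'
    rw [dist_eq_norm, dist_eq_norm, hT]
    simp only
    have e : (m : ℂ) / P v - m / P v' = m * (P v' - P v) / (P v * P v') := by
      have := hPne v hv; have := hPne v' hv'
      field_simp
    rw [e, norm_div, norm_mul, norm_mul, Complex.norm_natCast]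
    have h1 : ‖P v' - P v‖ ≤ 8 * l / τ ^ 3 * ‖v - v'‖ := by
      have h2 := hlip0 (((-(τ ^ 2) : ℝ) : ℂ) + v') (by
        rw [mem_ball, dist_eq_norm]
        refine (hball v' hv').trans_lt ?_
        have : 0 < τ ^ 2 := by positivity
        linarith) (((-(τ ^ 2) : ℝ) : ℂ) + v) (by
        rw [mem_ball, dist_eq_norm]
        refine (hball v hv).trans_lt ?_
        have : 0 < τ ^ 2 := by positivity
        linarith)
      have e3 : ((-(τ ^ 2) : ℝ) : ℂ) + v' - (((-(τ ^ 2) : ℝ) : ℂ) + v) = -(v - v') := by ring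
      rw [e3, norm_neg] at h2
      exact h2
    have h2 : (l / (8 * τ)) * (l / (8 * τ)) ≤ ‖P v‖ * ‖P v'‖ := by
      have := hPlow2 v hv; have := hPlow2 v' hv'
      gcongr
    have h3 : 0 < (l / (8 * τ)) * (l / (8 * τ)) := by positivity
    rw [div_le_iff₀ (lt_of_lt_of_le h3 h2)]
    calc (m : ℝ) * ‖P v' - P v‖ ≤ m * (8 * l / τ ^ 3 * ‖v - v'‖) := by gcongr
      _ = (8 * m * l / τ ^ 3) * ‖v - v'‖ := by ring
      _ ≤ (1 / 2 * ((l / (8 * τ)) * (l / (8 * τ)))) * ‖v - v'‖ := by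
          refine mul_le_mul_of_nonneg_right ?_ (norm_nonneg _)
          rw [div_le_iff₀ (by positivity)]
          have e5 : 1 / 2 * (l / (8 * τ) * (l / (8 * τ))) * τ ^ 3 = 1 / 128 * l * (l * τ) := by
            field_simp
            ring
          rw [e5]
          have : 1024 * (m : ℝ) ≤ l * τ := by linarith
          nlinarith
      _ ≤ (1 / 2 * (‖P v‖ * ‖P v'‖)) * ‖v - v'‖ := by gcongr
      _ = 1 / 2 * ‖v - v'‖ * (‖P v‖ * ‖P v'‖) := by ring
  have hcontr : ContractingWith (1 / 2) (hTmap.restrict T _ _) := by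
    refine ⟨by norm_num, ?_⟩
    apply LipschitzWith.of_dist_le_mul
    intro a b
    have := hlipT a.1 a.2 b.1 b.2
    rw [Subtype.dist_eq, Subtype.dist_eq]
    simpa using this
  obtain ⟨v, hv, hfix, -⟩ := hcontr.exists_fixedPoint' isClosed_closedBall.isComplete hTmap
    (mem_closedBall_self hR0pos) (edist_ne_top _ _)
  have hvR : ‖v‖ ≤ R0 := by rwa [mem_closedBall_zero_iff] at hv
  have hPv := hPne v hvR
  have hfix' : (m : ℂ) / P v = v := hfix
  have hvP : v * P v = m := by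
    rw [div_eq_iff hPv] at hfix'
    exact hfix'.symm
  refine ⟨v, hvP, ?_, hvR, ?_⟩
  · have h1 := hPup v hvR
    have h2 := congrArg (fun x => ‖x‖) hvP
    simp only [norm_mul, Complex.norm_natCast] at h2
    rw [div_le_iff₀ hl0, ← h2]
    rw [mul_div_assoc', div_le_iff₀ hl0] at h1
    have : ‖P v‖ * τ ≤ l := by nlinarith
    calc ‖v‖ * ‖P v‖ * τ = ‖v‖ * (‖P v‖ * τ) := by ring
      _ ≤ ‖v‖ * l := by gcongr
  · -- direction
    have hQ := hdir v hvR
    set Q := P v * (4 * I * τ / l) with hQdef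
    have hvQ : v * Q = ((4 * m * τ / l : ℝ) : ℂ) * I := by
      rw [hQdef, ← mul_assoc, hvP]
      push_cast
      ring
    have hA : 0 < 4 * m * τ / l := by positivity
    set A := 4 * m * τ / l with hAdef
    have hQn : ‖Q‖ ≤ 101 / 100 := by
      have : Q = (Q - 1) + 1 := by ring
      rw [this]
      refine (norm_add_le _ _).trans ?_
      rw [norm_one]; linarith
    have hQre : 99 / 100 ≤ Q.re := by
      have h1 := (abs_le.1 ((abs_re_le_norm (Q - 1)).trans hQ)).1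
      rw [sub_re, one_re] at h1
      linarith
    have hQ0 : Q ≠ 0 := by
      intro h0; rw [h0] at hQre; simp at hQre; linarith
    have hQpos : 0 < ‖Q‖ := norm_pos_iff.2 hQ0
    have hv2 : v * ((‖Q‖ ^ 2 : ℝ) : ℂ) = ((A : ℝ) : ℂ) * (I * starRingEnd ℂ Q) := by
      have : Q * starRingEnd ℂ Q = ((‖Q‖ ^ 2 : ℝ) : ℂ) := by
        rw [Complex.mul_conj, Complex.normSq_eq_norm_sq]
      rw [← this]
      linear_combination (starRingEnd ℂ Q) * hvQ
    have him : v.im * ‖Q‖ ^ 2 = A * Q.re := by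
      have := congrArg Complex.im hv2
      rw [Complex.im_mul_ofReal, Complex.im_ofReal_mul, Complex.I_mul_im, Complex.conj_re] at this
      exact this
    have hnv : ‖v‖ * ‖Q‖ = A := by
      have := congrArg (fun x => ‖x‖) hvQ
      simp only [norm_mul, Complex.norm_I, mul_one, Complex.norm_real] at this
      rw [this, Real.norm_of_nonneg hA.le]
    have hfin : 98 / 100 * ‖v‖ * ‖Q‖ ^ 2 ≤ v.im * ‖Q‖ ^ 2 := by
      rw [him, ← hnv]
      have : 98 / 100 * ‖Q‖ ≤ Q.re := by linarith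
      have h2 : 0 ≤ ‖v‖ * ‖Q‖ := by positivity
      nlinarith
    exact le_of_mul_le_mul_right hfin (by positivity)

lemma comp_H2 (hf : Ev f) (hC : Hi f G q C1 T0 R0 A B) (hτ : 10 ^ 16 ≤ τ) (hT : 2 * T0 ≤ τ)
    {u : ℂ} (hu : ‖u - (-(τ ^ 2) : ℝ)‖ < τ ^ 2 / 4)
    (hre : R0 ≤ (wf u).re) : ‖FF f u - Gt G u‖ ≤ 1 / 100 * ‖Gt G u‖ := by
  obtain ⟨h1, h2, h3, h4, h5⟩ := wf_geom (by linarith : 0 < τ) hu
  rw [FF_wf hf, Gt]
  exact hC.h2 _ (by linarith) hre (by linarith [(abs_le.1 h4).2])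

lemma comp_H1 (hf : Ev f) (hC : Hi f G q C1 T0 R0 A B) (hτ : 10 ^ 16 ≤ τ) (hT : 2 * T0 ≤ τ)
    (hl : 1000 * C1 ≤ Real.log τ) {u : ℂ}
    (hu : ‖u - (-(τ ^ 2) : ℝ)‖ < τ ^ 2 / 4)
    (hre : -1 ≤ (wf u).re) :
    ‖FF f u‖ ≤ A * (2 * τ) ^ B * Real.exp (2 * q * Real.log τ) * ‖Gt G u‖ := by
  have hτ0 : 0 < τ := by linarith
  have hC1 := hC.C11
  have hq := hC.q1
  have hA := hC.A1
  obtain ⟨h1, h2, h3, h4, h5⟩ := wf_geom hτ0 hu
  have h4' := abs_le.1 h4
  have hl0 : 0 < Real.log τ := by linarith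
  have hl1 : 1000 ≤ Real.log τ := by linarith
  have hE1 : 1 ≤ Real.exp (2 * q * Real.log τ) := Real.one_le_exp (by positivity)
  have hB2 : (wf u).im ^ B ≤ (2 * τ) ^ B := by
    refine pow_le_pow_left₀ (by linarith) (by linarith) B
  rcases le_or_gt 0 (wf u).re with hp | hn
  · rw [FF_wf hf, Gt]
    refine (hC.h1 _ (by linarith) hp (by linarith)).trans ?_
    refine mul_le_mul_of_nonneg_right ?_ (norm_nonneg _)
    calc A * (wf u).im ^ B ≤ A * (2 * τ) ^ B := by gcongr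
      _ = A * (2 * τ) ^ B * 1 := (mul_one _).symm
      _ ≤ _ := by gcongr
  · set w := wf u with hw
    set w' : ℂ := -(starRingEnd ℂ w) with hw'
    have hwre : w'.re = -w.re := by rw [hw', neg_re, conj_re]
    have hwim : w'.im = w.im := by rw [hw', neg_im, conj_im, neg_neg]
    have hfx : ‖f w‖ = ‖f w'‖ := by
      rw [hw', hf.even, hf.conj, Complex.norm_conj]
    have hdist : ‖w' - w‖ ≤ 2 := by
      have : w' - w = ((-2 * w.re : ℝ) : ℂ) := by
        apply Complex.ext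
        · rw [sub_re, hwre, ofReal_re]; ring
        · rw [sub_im, hwim, ofReal_im]; ring
      rw [this, Complex.norm_real, Real.norm_of_nonneg (by linarith)]
      linarith
    -- the ball of radius 4 about w
    have hreg : ∀ z ∈ ball w 4, T0 ≤ z.im ∧ |z.re| ≤ z.im / 2 ∧ z.im ≤ 2 * τ := by
      intro z hz
      rw [mem_ball, dist_eq_norm] at hz
      have a1 := (abs_re_le_norm (z - w)).trans hz.le
      have a2 := (abs_im_le_norm (z - w)).trans hz.le
      rw [sub_re, abs_le] at a1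
      rw [sub_im, abs_le] at a2
      refine ⟨by linarith, ?_, by linarith⟩
      rw [abs_le]
      constructor <;> linarith
    have hdiff : DifferentiableOn ℂ G (ball w 4) := fun z hz =>
      (hC.lb z (hreg z hz).1 (hreg z hz).2.1).2.1.differentiableWithinAt
    have hn0 : ∀ z ∈ ball w 4, G z ≠ 0 := fun z hz =>
      (hC.lb z (hreg z hz).1 (hreg z hz).2.1).1
    have hbd : ∀ z ∈ ball w 4, ‖logDeriv G z‖ ≤ q * Real.log τ := by
      intro z hz
      obtain ⟨r1, r2, r3⟩ := hreg z hz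
      have r4 := (hC.lb z r1 r2).2.2
      have hT4 := hC.T04
      have r5 : Real.log z.im ≤ Real.log τ + 1 := by
        have : Real.log z.im ≤ Real.log (2 * τ) := Real.log_le_log (by linarith) r3
        rw [Real.log_mul (by norm_num) hτ0.ne'] at this
        linarith [Real.log_two_lt_d9]
      have r6 : 0 ≤ Real.log z.im := Real.log_nonneg (by linarith)
      have e : logDeriv G z = ((q / 2 * Real.log z.im : ℝ) : ℂ) +
        (logDeriv G z - ((q / 2 * Real.log z.im : ℝ) : ℂ)) := by ring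
      rw [e]
      refine (norm_add_le _ _).trans ?_
      rw [Complex.norm_real, Real.norm_of_nonneg (by positivity)]
      have : q / 2 * Real.log z.im ≤ q / 2 * (Real.log τ + 1) := by gcongr
      nlinarith
    obtain ⟨hh, hh1, hh2⟩ := ratio_exp hdiff hn0 hbd (mem_ball_self (by norm_num : (0 : ℝ) < 4))
      (w := w') (by rw [mem_ball, dist_eq_norm]; linarith)
    have hG' : ‖G w'‖ ≤ ‖G w‖ * Real.exp (2 * q * Real.log τ) := by
      rw [hh1, norm_mul]
      refine mul_le_mul_of_nonneg_left ?_ (norm_nonneg _)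
      rw [Complex.norm_exp]
      refine Real.exp_le_exp.2 ((Complex.re_le_norm hh).trans (hh2.trans ?_))
      have : 0 ≤ q * Real.log τ := by positivity
      nlinarith
    rw [FF_wf hf, hfx]
    have hz := hC.h1 w' (by rw [hwim]; linarith) (by rw [hwre]; linarith)
      (by rw [hwre, hwim]; linarith)
    rw [hwim] at hz
    have e : Gt G u = G w := rfl
    rw [e]
    calc ‖f w'‖ ≤ A * w.im ^ B * ‖G w'‖ := hz
      _ ≤ A * (2 * τ) ^ B * (‖G w‖ * Real.exp (2 * q * Real.log τ)) := by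
          refine mul_le_mul ?_ hG' (norm_nonneg _) (by positivity)
          exact mul_le_mul_of_nonneg_left hB2 (by linarith)
      _ = A * (2 * τ) ^ B * Real.exp (2 * q * Real.log τ) * ‖G w‖ := by ring

theorem hS1_core (hf : Ev f) (hC : Hi f G q C1 T0 R0 A B) (h : Par q C1 T0 R0 A B τ m) {y : ℝ}
    (hy : y ^ 2 ≤ τ ^ 2 + 1 / 4)
    (hz : iteratedDeriv m (FF f) ⟨-(τ ^ 2), y⟩ = 0) :
    y = 0 ∧ iteratedDeriv (m + 1) (FF f) ⟨-(τ ^ 2), y⟩ ≠ 0 := by
  have hτ := h.tau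
  have hT := h.tT
  have hτ0 : 0 < τ := by linarith
  have hC1 := hC.C11
  have hq := hC.q1
  have hA := hC.A1
  have hR01 := hC.R01
  have hl := h.lt
  have hm9 := h.m9
  have hmt := h.mt
  have hlm := h.lm
  have hm0 : (0 : ℝ) < m := by linarith
  obtain ⟨v, hv1, hv2, hv3, hv4⟩ := exists_saddle hC h
  have hlog0 : 0 < Real.log τ := by linarith
  have hlog1 : 1000 ≤ Real.log τ := by linarith
  have hB0 : (0 : ℝ) ≤ B := Nat.cast_nonneg B
  have hlip := Gt_lip hC hτ hT hl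
  set l := q * Real.log τ with hldef
  have hlge : Real.log τ ≤ l := by rw [hldef]; nlinarith
  have hl0 : 0 < l := by linarith
  have hl1 : 1000 ≤ l := by linarith
  have hlτ : 10 ^ 10 * (m : ℝ) ≤ l * τ := by nlinarith
  set Y := Real.sqrt (τ ^ 2 + 1 / 4) with hY
  have hYs : Y ^ 2 = τ ^ 2 + 1 / 4 := Real.sq_sqrt (by positivity)
  have hY0 : 0 ≤ Y := Real.sqrt_nonneg _
  have hYle : Y ≤ 101 / 100 * τ := by
    rw [hY, Real.sqrt_le_left (by positivity)]
    nlinarith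
  have hyY : |y| ≤ Y := by
    rw [hY]
    exact Real.abs_le_sqrt hy
  have hρτ : ‖v‖ * l ≤ 8 * m * τ := by
    rwa [le_div_iff₀ hl0] at hv3
  have hρτ2 : m * τ ≤ ‖v‖ * l := by
    rwa [div_le_iff₀ hl0] at hv2
  have hρpos : 0 < ‖v‖ := lt_of_lt_of_le (by positivity) hv2
  -- bound on the radius
  have hρle : ‖v‖ ≤ τ ^ 2 / 10 ^ 8 := by
    refine hv3.trans ?_
    rw [div_le_div_iff₀ hl0 (by norm_num)]
    nlinarith
  have hr : ‖v‖ + Y < τ ^ 2 / 8 := by
    have : τ * 10 ^ 16 ≤ τ ^ 2 := by nlinarith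
    linarith
  have hcirc : ∀ y : ℝ, |y| ≤ Y → ∀ φ : ℝ,
      ‖((⟨-(τ ^ 2), y⟩ : ℂ) + ‖v‖ * cexp (φ * I)) - (-(τ ^ 2) : ℝ)‖ < τ ^ 2 / 4 := by
    intro y hy φ
    refine lt_of_le_of_lt (circ_pt rfl).1 ?_
    rw [abs_of_pos hρpos]
    have : 0 < τ ^ 2 := by positivity
    linarith
  -- the constant of `comp_H1`
  have hbig : A * (2 * τ) ^ B * Real.exp (2 * q * Real.log τ) ≤ Real.exp (1 / 100 * m) := by
    have e1 : A ≤ Real.exp A := by linarith [Real.add_one_le_exp A]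
    have e2 : (2 * τ) ^ B ≤ Real.exp (B * (2 * Real.log τ)) := by
      rw [Real.exp_nat_mul]
      refine pow_le_pow_left₀ (by positivity) ?_ B
      rw [two_mul (Real.log τ), Real.exp_add, Real.exp_log hτ0]
      nlinarith
    calc A * (2 * τ) ^ B * Real.exp (2 * q * Real.log τ) ≤
        Real.exp A * Real.exp (B * (2 * Real.log τ)) * Real.exp (2 * q * Real.log τ) := by gcongr
      _ = Real.exp (A + B * (2 * Real.log τ) + 2 * q * Real.log τ) := by
          rw [Real.exp_add, Real.exp_add]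
      _ ≤ _ := by
          refine Real.exp_le_exp.2 ?_
          have a1 : A ≤ A * Real.log τ := by nlinarith
          have a2 : q * Real.log τ ≤ q * R0 * Real.log τ := by
            have : q * 1 ≤ q * R0 := by gcongr
            nlinarith
          have a3 : 0 ≤ A * Real.log τ := by positivity
          have a4 : 0 ≤ B * Real.log τ := by positivity
          have a5 : 0 ≤ q * R0 * Real.log τ := by positivity
          have a6 : 1000 * (q * R0 + B + A) * Real.log τ =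
            1000 * (q * R0 * Real.log τ) + 1000 * (B * Real.log τ) + 1000 * (A * Real.log τ) := by
            ring
          linarith
  have hpos := saddle (FF_diff hf) (m := m) hm9 (x := -(τ ^ 2)) (Y := Y) (r := τ ^ 2 / 8)
    (L := 8 * l / τ ^ 3) (v := v) (Gt := Gt G) hY0 (by positivity)
    ((Gt_diffOn hC hτ hT).mono (ball_subset_ball (by nlinarith)))
    (fun u hu => (Gt_facts hC hτ hT (by
      rw [mem_ball, dist_eq_norm] at hu
      have : 0 < τ ^ 2 := by positivity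
      linarith)).1)
    hlip hv1 hr hv4
    (by
      rw [mul_div_assoc', div_le_iff₀ (by positivity)]
      have e1 : (‖v‖ * l) ^ 2 ≤ (8 * m * τ) ^ 2 := by gcongr
      have e2 : ‖v‖ ^ 2 * (8 * l) * l ≤ (1 / 10000 * m * τ ^ 3) * l := by
        calc ‖v‖ ^ 2 * (8 * l) * l = 8 * (‖v‖ * l) ^ 2 := by ring
          _ ≤ 8 * (8 * m * τ) ^ 2 := by gcongr
          _ = 512 * m * τ ^ 2 * m := by ring
          _ ≤ 512 * m * τ ^ 2 * (l * τ / 10 ^ 10) := by gcongr; linarith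
          _ ≤ (1 / 10000 * m * τ ^ 3) * l := by
              have : 0 ≤ m * τ ^ 3 * l := by positivity
              nlinarith
      exact le_of_mul_le_mul_right e2 hl0)
    (by
      have e1 : ‖v‖ * (8 * l / τ ^ 3) * Y = 8 * (‖v‖ * l) * Y / τ ^ 3 := by ring
      rw [e1, div_le_iff₀ (by positivity)]
      calc 8 * (‖v‖ * l) * Y ≤ 8 * (8 * m * τ) * (101 / 100 * τ) := by gcongr
        _ = 6464 / 100 * (m * τ ^ 2) := by ring
        _ ≤ 6464 / 100 * ((τ / 10 ^ 7) * τ ^ 2) := by gcongr; linarith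
        _ ≤ 1 / 200 * τ ^ 3 := by
            have : 0 ≤ τ ^ 3 := by positivity
            nlinarith)
    (by
      intro y hy φ hφ
      set u := ((⟨-(τ ^ 2), y⟩ : ℂ) + ‖v‖ * cexp (φ * I)) with hu
      have hub := hcirc y hy φ
      obtain ⟨g1, g2, g3, g4, g5⟩ := wf_geom hτ0 hub
      have him : u.im = y + ‖v‖ * Real.sin φ := (circ_pt (x := -(τ ^ 2)) rfl).2
      have hsin : 0 ≤ Real.sin φ := Real.sin_nonneg_of_mem_Icc hφ
      have hre : -1 ≤ (wf u).re := by
        by_contra hcon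
        push Not at hcon
        have h1 : 2 * (wf u).re * (wf u).im < 2 * (-1) * (86 / 100 * τ) := by nlinarith
        rw [g5, him] at h1
        have h2 := (abs_le.1 hy).1
        have h3 : 0 ≤ ‖v‖ * Real.sin φ := by positivity
        linarith
      refine (comp_H1 hf hC hτ hT hl hub hre).trans ?_
      exact mul_le_mul_of_nonneg_right hbig (norm_nonneg _))
    (by
      intro y hy φ hφ
      set u := ((⟨-(τ ^ 2), y⟩ : ℂ) + ‖v‖ * cexp (φ * I)) with hu
      have hub := hcirc y hy φ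
      obtain ⟨g1, g2, g3, g4, g5⟩ := wf_geom hτ0 hub
      have him : u.im = y + ‖v‖ * Real.sin φ := (circ_pt (x := -(τ ^ 2)) rfl).2
      have hsin1 : 98 / 100 ≤ Real.sin (arg v) := by
        rw [Complex.sin_arg, le_div_iff₀ hρpos]
        exact hv4
      have hsin : 7 / 10 ≤ Real.sin φ := sin_near hsin1 hφ
      refine comp_H2 hf hC hτ hT hub ?_
      by_contra hcon
      push Not at hcon
      have h1 : 2 * (wf u).re * (wf u).im ≤ 2 * R0 * (114 / 100 * τ) := by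
        rcases le_or_gt 0 (wf u).re with h0 | h0
        · have := mul_le_mul hcon.le g3 (by linarith) (by linarith)
          linarith
        · have : (wf u).re * (wf u).im ≤ 0 := mul_nonpos_of_nonpos_of_nonneg h0.le (by linarith)
          have : 0 ≤ R0 * τ := by positivity
          linarith
      rw [g5, him] at h1
      have h2 := (abs_le.1 hy).1
      have h3 : ‖v‖ * (7 / 10) ≤ ‖v‖ * Real.sin φ := by gcongr
      have hR0τ : τ ≤ R0 * τ := by nlinarith
      have h4 : ‖v‖ ≤ 10 * R0 * τ := by linarith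
      have h5 : m * τ ≤ 10 * R0 * τ * l := hρτ2.trans (by gcongr)
      have h6 : (m : ℝ) ≤ 10 * R0 * l := by
        have : m * τ ≤ (10 * R0 * l) * τ := by linarith
        exact le_of_mul_le_mul_right this hτ0
      have a3 : 0 ≤ A * Real.log τ := by positivity
      have a4 : 0 ≤ B * Real.log τ := by positivity
      have a5 : 0 < q * R0 * Real.log τ := by positivity
      have a6 : 1000 * (q * R0 + B + A) * Real.log τ =
        1000 * (q * R0 * Real.log τ) + 1000 * (B * Real.log τ) + 1000 * (A * Real.log τ) := by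
        ring
      have a7 : 10 * R0 * l = 10 * (q * R0 * Real.log τ) := by rw [hldef]; ring
      linarith)
  exact zeros_of_pos (FF_diff hf) (FF_conj hf) m hρpos hpos hyY hz

end Pool.Agent.Helper40.HW
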