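import Pool.Agent.Helper40.HW.Mul

set_option autoImplicit false

/-!
# Generalised Dirichlet series over an index type with a norm
-/

open Complex Filter Topology

namespace Pool.Agent.Helper40.HW

/-- `∑ a(i) N(i)^(-s)` -/
noncomputable def Ds {ι : Type*} (a : ι → ℂ) (N : ι → ℕ) (s : ℂ) : ℂ :=
  ∑' i, a i * (N i : ℂ) ^ (-s)

variable {ι : Type*} {a : ι → ℂ} {N : ι → ℕ} {i0 : ι}

lemma norm_term_le (h1 : N i0 = 1) (hn : ∀ i, i ≠ i0 → a i = 0 ∨ 2 ≤ N i) {x0 : ℝ} {s : ℂ}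
    (hs : x0 ≤ s.re) (i : ι) :
    ‖a i * (N i : ℂ) ^ (-s)‖ ≤ ‖a i * (N i : ℂ) ^ (-(x0 : ℂ))‖ := by
  rcases eq_or_ne i i0 with rfl | hi
  · rw [h1]; simp
  · rcases hn i hi with h0 | h2
    · rw [h0]; simp
    · rw [norm_mul, norm_mul]
      refine mul_le_mul_of_nonneg_left ?_ (norm_nonneg _)
      have hN : 0 < N i := by omega
      rw [Complex.norm_natCast_cpow_of_pos hN, Complex.norm_natCast_cpow_of_pos hN]
      refine Real.rpow_le_rpow_of_exponent_le (by exact_mod_cast hN) ?_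
      simp only [neg_re, ofReal_re]
      linarith

lemma norm_term_le2 (hn : ∀ i, i ≠ i0 → a i = 0 ∨ 2 ≤ N i) {x0 : ℝ} {s : ℂ}
    (hs : x0 ≤ s.re) {i : ι} (hi : i ≠ i0) :
    ‖a i * (N i : ℂ) ^ (-s)‖ ≤ ‖a i * (N i : ℂ) ^ (-(x0 : ℂ))‖ * (2 : ℝ) ^ (-(s.re - x0)) := by
  rcases hn i hi with h0 | h2
  · rw [h0]; simp
  · rw [norm_mul, norm_mul, mul_assoc]
    refine mul_le_mul_of_nonneg_left ?_ (norm_nonneg _)
    have hN : 0 < N i := by omega
    rw [Complex.norm_natCast_cpow_of_pos hN, Complex.norm_natCast_cpow_of_pos hN]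
    simp only [neg_re, ofReal_re]
    have e : -s.re = -x0 + -(s.re - x0) := by ring
    rw [e, Real.rpow_add (by exact_mod_cast hN)]
    refine mul_le_mul_of_nonneg_left ?_ (by positivity)
    refine Real.rpow_le_rpow_of_nonpos (by norm_num) (by exact_mod_cast h2) (by linarith)

lemma Ds_summable (h1 : N i0 = 1) (hn : ∀ i, i ≠ i0 → a i = 0 ∨ 2 ≤ N i) {x0 : ℝ}
    (hsm : Summable fun i => ‖a i * (N i : ℂ) ^ (-(x0 : ℂ))‖) {s : ℂ} (hs : x0 ≤ s.re) :
    Summable fun i => ‖a i * (N i : ℂ) ^ (-s)‖ :=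
  Summable.of_nonneg_of_le (fun _ => norm_nonneg _) (norm_term_le h1 hn hs) hsm

lemma Ds_bound (h1 : N i0 = 1) (hn : ∀ i, i ≠ i0 → a i = 0 ∨ 2 ≤ N i) {x0 : ℝ}
    (hsm : Summable fun i => ‖a i * (N i : ℂ) ^ (-(x0 : ℂ))‖) {s : ℂ} (hs : x0 ≤ s.re) :
    ‖Ds a N s‖ ≤ ∑' i, ‖a i * (N i : ℂ) ^ (-(x0 : ℂ))‖ :=
  tsum_of_norm_bounded hsm.hasSum (norm_term_le h1 hn hs)

lemma Ds_tn (h0 : a i0 = 1) (h1 : N i0 = 1) (hn : ∀ i, i ≠ i0 → a i = 0 ∨ 2 ≤ N i) {x0 : ℝ}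
    (hsm : Summable fun i => ‖a i * (N i : ℂ) ^ (-(x0 : ℂ))‖) : Tn (Ds a N) := by
  classical
  set S : ℝ := ∑' i, ‖a i * (N i : ℂ) ^ (-(x0 : ℂ))‖ with hS
  have hS0 : 0 ≤ S := tsum_nonneg fun _ => norm_nonneg _
  intro δ hδ
  -- choose R
  have hlim : Tendsto (fun x : ℝ => S * (2 : ℝ) ^ (-(x - x0))) atTop (𝓝 (S * 0)) := by
    refine Tendsto.const_mul S ?_
    have h2 : Tendsto (fun x : ℝ => x - x0) atTop atTop := tendsto_atTop_add_const_right _ _ tendsto_id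
    have h3 : Tendsto (fun x : ℝ => (2 : ℝ) ^ (-x)) atTop (𝓝 0) := by
      have := tendsto_rpow_atBot_of_base_gt_one 2 (by norm_num)
      exact this.comp tendsto_neg_atTop_atBot
    exact h3.comp h2
  rw [mul_zero] at hlim
  obtain ⟨R, hR⟩ := ((hlim.eventually (gt_mem_nhds hδ)).and (eventually_ge_atTop x0)).exists_forall_of_atTop
  refine ⟨R, fun s hs => ?_⟩
  obtain ⟨hR1, hR2⟩ := hR s.re hs
  have hsum := (Ds_summable h1 hn hsm hR2).of_norm
  have e : Ds a N s = 1 + ∑' i, if i = i0 then 0 else a i * (N i : ℂ) ^ (-s) := by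
    rw [Ds, hsum.tsum_eq_add_tsum_ite i0, h0, h1]
    simp
  rw [e, add_sub_cancel_left]
  have hb : ∀ i, ‖(if i = i0 then 0 else a i * (N i : ℂ) ^ (-s))‖ ≤
      ‖a i * (N i : ℂ) ^ (-(x0 : ℂ))‖ * (2 : ℝ) ^ (-(s.re - x0)) := by
    intro i
    split_ifs with hi
    · rw [norm_zero]; positivity
    · exact norm_term_le2 hn hR2 hi
  refine (tsum_of_norm_bounded (hsm.hasSum.mul_right _) hb).trans ?_
  exact hR1.le

lemma Ds_conj (ha : ∀ i, starRingEnd ℂ (a i) = a i) (s : ℂ) :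
    Ds a N (starRingEnd ℂ s) = starRingEnd ℂ (Ds a N s) := by
  rw [Ds, Ds, Complex.conj_tsum]
  refine tsum_congr fun i => ?_
  rw [map_mul, ha]
  congr 1
  have h := Complex.cpow_conj (N i : ℂ) (-s) (by
    rw [Complex.natCast_arg]; exact Real.pi_pos.ne)
  rw [map_neg, Complex.conj_natCast] at h
  exact h

/-- entire functions that agree in a half plane -/
lemma entire_eq' {f g : ℂ → ℂ} (hf : Differentiable ℂ f) (hg : Differentiable ℂ g) {x0 : ℝ}
    (h : ∀ s : ℂ, x0 < s.re → f s = g s) : f = g := by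
  have h1 : AnalyticOnNhd ℂ f Set.univ := fun z _ => hf.analyticAt z
  have h2 : AnalyticOnNhd ℂ g Set.univ := fun z _ => hg.analyticAt z
  have hopen : IsOpen {s : ℂ | x0 < s.re} := isOpen_lt continuous_const Complex.continuous_re
  have h3 : f =ᶠ[𝓝 ((x0 + 1 : ℝ) : ℂ)] g := by
    filter_upwards [hopen.mem_nhds (show x0 < (((x0 + 1 : ℝ) : ℂ)).re by
      rw [ofReal_re]; linarith)] with s hs
    exact h s hs
  exact h1.eq_of_eventuallyEq h2 h3

/-- reality from a half plane -/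
lemma conj_of_half {F : ℂ → ℂ} (hF : Differentiable ℂ F) {x0 : ℝ}
    (h : ∀ s : ℂ, x0 < s.re → F (starRingEnd ℂ s) = starRingEnd ℂ (F s)) (s : ℂ) :
    F (starRingEnd ℂ s) = starRingEnd ℂ (F s) := by
  have hZ : Differentiable ℂ (fun z => starRingEnd ℂ (F (starRingEnd ℂ z))) := by
    intro z
    have h1 := (hF (starRingEnd ℂ z)).hasDerivAt.conj_conj
    rw [Complex.conj_conj] at h1
    exact h1.differentiableAt
  have h1 := entire_eq' (x0 := x0) hF hZ fun z hz => by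
    have h2 := h z hz
    show F z = starRingEnd ℂ (F (starRingEnd ℂ z))
    rw [h2, Complex.conj_conj]
  have h2 := congrFun h1 (starRingEnd ℂ s)
  simpa using h2

end Pool.Agent.Helper40.HW
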